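import Mathlib
import Pool.Agent.Lib.P0c8ca5G.OmA

/-!
# Clifford theory over a normal subgroup: definitions

`C` is a normal subgroup of `A` and `δ` an irreducible representation of `C` on `k ^ n`, `k` algebraically closed.

* `Lin p C δ ψ X`: `ψ : G → A / C` has a kernel of order prime to `p` (it is central), its image is `T / C`, `T` the stabilizer of
  `δ`; the elements `t` of `G` over `x C` are the intertwiners `X t x` of `x`, up to the identification
  `X t (x c) = X t x δ(c)`.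
* `stD C δ`: the stabilizer `T` of `δ`.
* `Ls ψ L`: the subgroup of `G` over the image of `L` in `A / C`.
* `opS C δ f x`: the operator `∑ f(x c) δ(c)`, sum over `c ∈ C`.
* `be C δ ψ X f t`: the scalar with `opS C δ f x = be * (X t x)⁻¹`, `ψ t = x C`.
* `stF C δ ψ X f`: the element of the group algebra of `G` with the coefficients `be / |ker ψ|`.
* `lq C δ ψ X Q`: the subgroup of the `t` over `q C` with `X t q = 1`, `q ∈ Q` (`Q` centralizes `C`).
* `VH p C V`: `V` is normal, centralizes `C`, and `p` does not divide `|V ⊓ C|`.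
-/

set_option autoImplicit false

namespace Pool.Agent.Lib.P0c8ca5.Ii

open MonoidAlgebra Ps Bq Zz Gg

variable {p : ℕ} {k : Type*} [Field k] {A G : Type*} [Group A] [Group G]

/-- `G` is the group of the intertwiners of the irreducible representation `δ` of `C`, modulo `C` -/
structure Lin (p : ℕ) (C : Subgroup A) [C.Normal] {n : ℕ} (δ : Rp k C n) (ψ : G →* A ⧸ C)
    (X : G → A → ((Fin n → k) ≃ₗ[k] (Fin n → k))) : Prop where
  irr : Irr' δ
  itw : ∀ t (x : A), ψ t = (x : A ⧸ C) → Itw C δ x (X t x)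
  mul : ∀ t s (x y : A), ψ t = (x : A ⧸ C) → ψ s = (y : A ⧸ C) →
    ∀ v, X (t * s) (x * y) v = X t x (X s y v)
  res : ∀ (c : C) v, X 1 (c : A) v = δ c v
  onto : ∀ (x : A) Y, Itw C δ x Y → ∃ t, ψ t = (x : A ⧸ C)
  inj : ∀ t, ψ t = 1 → (∀ v, X t 1 v = v) → t = 1
  ker : ¬ p ∣ Nat.card ψ.ker
  cen : ∀ v ∈ Subgroup.centralizer (C : Set A),
    ∃ t, ψ t = (v : A ⧸ C) ∧ ∀ w, X t v w = w

theorem itw_one {C : Subgroup A} {n : ℕ} {δ : Rp k C n} :
    Itw C δ (1 : A) (LinearEquiv.refl k (Fin n → k)) := by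
  intro g g' hg v
  have h1 : g' = g := Subtype.ext (by rw [hg]; group)
  rw [h1]
  rfl

/-- the stabilizer of `δ` -/
def stD (C : Subgroup A) [C.Normal] {n : ℕ} (δ : Rp k C n) : Subgroup A where
  carrier := {x | ∃ Y, Itw C δ x Y}
  one_mem' := ⟨_, itw_one⟩
  mul_mem' := by
    rintro x y ⟨X, hX⟩ ⟨Y, hY⟩
    exact ⟨_, hX.mul (mem_norm_of_normal C x) (mem_norm_of_normal C y) hY⟩
  inv_mem' := by
    rintro x ⟨X, hX⟩
    exact ⟨_, hX.inv (mem_norm_of_normal C x)⟩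

theorem mem_stD {C : Subgroup A} [C.Normal] {n : ℕ} {δ : Rp k C n} {x : A} :
    x ∈ stD C δ ↔ ∃ Y, Itw C δ x Y := Iff.rfl

/-- the subgroup of `G` over the image of `L` -/
def Ls {C : Subgroup A} [C.Normal] (ψ : G →* A ⧸ C) (L : Subgroup A) : Subgroup G :=
  (L.map (QuotientGroup.mk' C)).comap ψ

/-- the operator `∑ f(x c) δ(c)` -/
noncomputable def opS (C : Subgroup A) {n : ℕ} (δ : Rp k C n) (f : MonoidAlgebra k A) (x : A) :
    (Fin n → k) →ₗ[k] (Fin n → k) :=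
  ∑ᶠ c : C, f.coeff (x * (c : A)) • δ c

open Classical in
/-- the scalar of `t` -/
noncomputable def be (C : Subgroup A) [C.Normal] {n : ℕ} (δ : Rp k C n) (ψ : G →* A ⧸ C)
    (X : G → A → ((Fin n → k) ≃ₗ[k] (Fin n → k))) (f : MonoidAlgebra k A) (t : G) : k :=
  if h : ∃ s : k, ∀ v, opS C δ f (Quotient.out (ψ t)) v
    = s • (X t (Quotient.out (ψ t))).symm v then h.choose else 0

open Classical in
/-- the image of `f` in the group algebra of `G` -/
noncomputable def stF [Finite G] (C : Subgroup A) [C.Normal] {n : ℕ} (δ : Rp k C n)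
    (ψ : G →* A ⧸ C) (X : G → A → ((Fin n → k) ≃ₗ[k] (Fin n → k))) (f : MonoidAlgebra k A) :
    MonoidAlgebra k G :=
  MonoidAlgebra.ofCoeff (Finsupp.equivFunOnFinite.symm fun t =>
    (Nat.card ψ.ker : k)⁻¹ * be C δ ψ X f t)

/-- the lift of a subgroup `Q` that centralizes `C` -/
def lq (C : Subgroup A) [C.Normal] {n : ℕ} (ψ : G →* A ⧸ C)
    (X : G → A → ((Fin n → k) ≃ₗ[k] (Fin n → k))) (Q : Subgroup A) : Subgroup G :=
  Subgroup.closure {t | ∃ q ∈ Q, ψ t = (q : A ⧸ C) ∧ ∀ w, X t q w = w}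

theorem coeff_stF [Finite G] {C : Subgroup A} [C.Normal] {n : ℕ} {δ : Rp k C n}
    {ψ : G →* A ⧸ C} {X : G → A → ((Fin n → k) ≃ₗ[k] (Fin n → k))} {f : MonoidAlgebra k A}
    (t : G) : (stF C δ ψ X f).coeff t = (Nat.card ψ.ker : k)⁻¹ * be C δ ψ X f t := rfl

theorem opS_apply {C : Subgroup A} [Fintype C] {n : ℕ} (δ : Rp k C n) (f : MonoidAlgebra k A)
    (x : A) (v : Fin n → k) :
    opS C δ f x v = ∑ c : C, f.coeff (x * (c : A)) • δ c v := by
  rw [opS, finsum_eq_sum_of_fintype, LinearMap.sum_apply]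
  rfl

theorem mem_Ls {C : Subgroup A} [C.Normal] {ψ : G →* A ⧸ C} {L : Subgroup A} {t : G} :
    t ∈ Ls ψ L ↔ ∃ x ∈ L, ψ t = (x : A ⧸ C) := by
  rw [Ls, Subgroup.mem_comap, Subgroup.mem_map]
  constructor
  · rintro ⟨x, hx, h⟩
    exact ⟨x, hx, h.symm⟩
  · rintro ⟨x, hx, h⟩
    exact ⟨x, hx, h.symm⟩

theorem mem_Ls_of {C : Subgroup A} [C.Normal] {ψ : G →* A ⧸ C} {L : Subgroup A} (hC : C ≤ L)
    {t : G} {x : A} (h : ψ t = (x : A ⧸ C)) : t ∈ Ls ψ L ↔ x ∈ L := by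
  rw [mem_Ls]
  constructor
  · rintro ⟨y, hy, h1⟩
    have h2 : (y : A)⁻¹ * x ∈ C := by
      rw [← QuotientGroup.eq, ← h1, h]
    have h3 := L.mul_mem hy (hC h2)
    rwa [mul_inv_cancel_left] at h3
  · intro hx
    exact ⟨x, hx, h⟩

theorem exists_rep {C : Subgroup A} [C.Normal] (ψ : G →* A ⧸ C) (t : G) :
    ∃ x : A, ψ t = (x : A ⧸ C) :=
  ⟨Quotient.out (ψ t), (QuotientGroup.out_eq' (ψ t)).symm⟩

/-- `V` is a normal subgroup that centralizes `C`, and `p` does not divide `|V ⊓ C|` -/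
structure VH (p : ℕ) (C V : Subgroup A) : Prop where
  vc : V ≤ Subgroup.centralizer (C : Set A)
  nrm : V.Normal
  prime : ¬ p ∣ Nat.card ↥(V ⊓ C)

end Pool.Agent.Lib.P0c8ca5.Ii
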