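import Mathlib
import Pool.Agent.Lib.P0c8ca5I.Defs

/-!
# Module LinA: first properties of `Lin`; the scalars of the kernel
-/

set_option autoImplicit false

namespace Pool.Agent.Lib.P0c8ca5.Ii

open MonoidAlgebra Ps Bq Zz Gg

variable {p : ℕ} {k : Type*} [Field k] {A G : Type*} [Group A] [Group G] {C : Subgroup A}
  [C.Normal] {n : ℕ} {δ : Rp k C n} {ψ : G →* A ⧸ C}
  {X : G → A → ((Fin n → k) ≃ₗ[k] (Fin n → k))}

theorem mk_one_of_mem {c : A} (hc : c ∈ C) : ψ (1 : G) = (c : A ⧸ C) := by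
  rw [map_one, eq_comm, QuotientGroup.eq_one_iff]
  exact hc

theorem Lin.mul_res (h : Lin p C δ ψ X) {t : G} {x : A} (ht : ψ t = (x : A ⧸ C)) (c : C)
    (v : Fin n → k) : X t (x * c) v = X t x (δ c v) := by
  have h1 := h.mul t 1 x c ht (mk_one_of_mem c.2) v
  rw [mul_one] at h1
  rw [h1, h.res]

theorem Lin.res_mul (h : Lin p C δ ψ X) {t : G} {x : A} (ht : ψ t = (x : A ⧸ C)) (c : C)
    (v : Fin n → k) : X t (c * x) v = δ c (X t x v) := by
  have h1 := h.mul 1 t c x (mk_one_of_mem c.2) ht v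
  rw [one_mul] at h1
  rw [h1, h.res]

theorem Lin.one_one (h : Lin p C δ ψ X) (v : Fin n → k) : X 1 1 v = v := by
  have h1 := h.res 1 v
  rw [Subgroup.coe_one, map_one] at h1
  exact h1

theorem Lin.inv_apply (h : Lin p C δ ψ X) {t : G} {x : A} (ht : ψ t = (x : A ⧸ C))
    (v : Fin n → k) : X t⁻¹ x⁻¹ v = (X t x).symm v := by
  apply (X t x).injective
  rw [LinearEquiv.apply_symm_apply]
  have h1 := h.mul t t⁻¹ x x⁻¹ ht (by rw [map_inv, ht]; rfl) v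
  rw [← h1, mul_inv_cancel, mul_inv_cancel, h.one_one]

theorem Lin.mem_stD (h : Lin p C δ ψ X) {t : G} {x : A} (ht : ψ t = (x : A ⧸ C)) :
    x ∈ stD C δ := ⟨_, h.itw t x ht⟩

theorem Lin.mem_stD_iff (h : Lin p C δ ψ X) {x : A} :
    x ∈ stD C δ ↔ ∃ t, ψ t = (x : A ⧸ C) :=
  ⟨fun ⟨Y, hY⟩ => h.onto x Y hY, fun ⟨_, ht⟩ => h.mem_stD ht⟩

theorem C_le_stD (δ : Rp k C n) : C ≤ stD C δ := fun g hg => by
  obtain ⟨Z, hZ, -⟩ := itw_of_mem (ρ := δ) hg
  exact ⟨Z, hZ⟩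

/-- two elements of `G` with the same image and the same intertwiner are equal -/
theorem Lin.ext_of (h : Lin p C δ ψ X) {t s : G} {x : A} (ht : ψ t = (x : A ⧸ C))
    (hs : ψ s = (x : A ⧸ C)) (hX : ∀ v, X t x v = X s x v) : t = s := by
  have h1 : t * s⁻¹ = 1 := by
    apply h.inj
    · rw [map_mul, map_inv, ht, hs, mul_inv_cancel]
    · intro v
      have h2 := h.mul t s⁻¹ x x⁻¹ ht (by rw [map_inv, hs]; rfl) v
      rw [mul_inv_cancel] at h2
      rw [h2, h.inv_apply hs, hX, LinearEquiv.apply_symm_apply]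
  exact mul_inv_eq_one.1 h1

open Classical in
/-- the scalar of an element of the kernel -/
noncomputable def ze (X : G → A → ((Fin n → k) ≃ₗ[k] (Fin n → k))) (z : G) : k :=
  if h : ∃ s : k, ∀ v, X z 1 v = s • v then h.choose else 0

theorem Lin.exists_ne (h : Lin p C δ ψ X) : ∃ v : Fin n → k, v ≠ 0 := by
  have := h.irr.nontriv
  exact _root_.exists_ne 0

theorem Lin.smul_inj (h : Lin p C δ ψ X) {a b : k} (Y : (Fin n → k) ≃ₗ[k] (Fin n → k))
    (hab : ∀ v, a • Y v = b • Y v) : a = b := by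
  obtain ⟨v, hv⟩ := h.exists_ne
  have h1 : Y v ≠ 0 := fun h0 => hv (by
    rw [← LinearEquiv.map_eq_zero_iff Y]; exact h0)
  exact smul_left_injective k h1 (hab v)

theorem Lin.ze_eq (h : Lin p C δ ψ X) {z : G} {s : k} (hs : ∀ v, X z 1 v = s • v) :
    ze X z = s := by
  have h1 : ∃ s : k, ∀ v, X z 1 v = s • v := ⟨s, hs⟩
  unfold ze
  rw [dif_pos h1]
  have h2 := h1.choose_spec
  exact h.smul_inj (LinearEquiv.refl k _) (fun v => (h2 v).symm.trans (hs v))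

theorem Lin.ze_spec [IsAlgClosed k] (h : Lin p C δ ψ X) {z : G} (hz : ψ z = 1)
    (v : Fin n → k) : X z 1 v = ze X z • v := by
  have h1 : Itw C δ 1 (X z 1) := h.itw z 1 (by rw [hz]; rfl)
  obtain ⟨s, -, hs⟩ := Itw.unique h.irr (mem_norm_of_normal C 1) (itw_one (δ := δ)) h1
  rw [h.ze_eq hs]
  exact hs v

theorem Lin.ze_ne_zero [IsAlgClosed k] (h : Lin p C δ ψ X) {z : G} (hz : ψ z = 1) :
    ze X z ≠ 0 := by
  intro h0
  obtain ⟨v, hv⟩ := h.exists_ne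
  have h1 := h.ze_spec hz v
  rw [h0, zero_smul, LinearEquiv.map_eq_zero_iff] at h1
  exact hv h1

theorem Lin.ze_one (h : Lin p C δ ψ X) : ze X (1 : G) = 1 :=
  h.ze_eq (fun v => by rw [h.one_one, one_smul])

/-- multiplication by an element of the kernel -/
theorem Lin.ker_mul [IsAlgClosed k] (h : Lin p C δ ψ X) {z t : G} {x : A} (hz : ψ z = 1)
    (ht : ψ t = (x : A ⧸ C)) (v : Fin n → k) : X (z * t) x v = ze X z • X t x v := by
  have h1 := h.mul z t 1 x (by rw [hz]; rfl) ht v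
  rw [one_mul] at h1
  rw [h1, h.ze_spec hz]

theorem Lin.mul_ker [IsAlgClosed k] (h : Lin p C δ ψ X) {z t : G} {x : A} (hz : ψ z = 1)
    (ht : ψ t = (x : A ⧸ C)) (v : Fin n → k) : X (t * z) x v = ze X z • X t x v := by
  have h1 := h.mul t z x 1 ht (by rw [hz]; rfl) v
  rw [mul_one] at h1
  rw [h1, h.ze_spec hz, map_smul]

theorem Lin.ze_mul [IsAlgClosed k] (h : Lin p C δ ψ X) {z w : G} (hz : ψ z = 1)
    (hw : ψ w = 1) : ze X (z * w) = ze X z * ze X w := by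
  apply h.ze_eq
  intro v
  rw [h.ker_mul hz (by rw [hw]; rfl), h.ze_spec hw, smul_smul]

theorem Lin.ze_inv [IsAlgClosed k] (h : Lin p C δ ψ X) {z : G} (hz : ψ z = 1) :
    ze X z⁻¹ = (ze X z)⁻¹ := by
  have h1 := h.ze_mul hz (w := z⁻¹) (by rw [map_inv, hz, inv_one])
  rw [mul_inv_cancel, h.ze_one] at h1
  exact eq_inv_of_mul_eq_one_right h1.symm

theorem Lin.ker_central [IsAlgClosed k] (h : Lin p C δ ψ X) :
    ψ.ker ≤ Subgroup.center G := by
  intro z hz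
  have hz1 : ψ z = 1 := hz
  rw [Subgroup.mem_center_iff]
  intro t
  obtain ⟨x, hx⟩ := exists_rep ψ t
  refine h.ext_of (x := x) ?_ ?_ ?_
  · rw [map_mul, hz1, mul_one, hx]
  · rw [map_mul, hz1, one_mul, hx]
  · intro v
    rw [h.ker_mul hz1 hx, h.mul_ker hz1 hx]

theorem Lin.ze_inj [IsAlgClosed k] (h : Lin p C δ ψ X) {z : G} (hz : ψ z = 1)
    (h1 : ze X z = 1) : z = 1 :=
  h.inj z hz (fun v => by rw [h.ze_spec hz, h1, one_smul])

theorem Lin.card_ker_ne [CharP k p] (h : Lin p C δ ψ X) : (Nat.card ψ.ker : k) ≠ 0 :=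
  fun h0 => h.ker ((CharP.cast_eq_zero_iff k p _).1 h0)

/-- conjugation -/
theorem Lin.conj (h : Lin p C δ ψ X) {t s : G} {x y : A} (ht : ψ t = (x : A ⧸ C))
    (hs : ψ s = (y : A ⧸ C)) (v : Fin n → k) :
    X (t * s * t⁻¹) (x * y * x⁻¹) v = X t x (X s y ((X t x).symm v)) := by
  have h1 : ψ (t * s) = ((x * y : A) : A ⧸ C) := by rw [map_mul, ht, hs]; rfl
  have h2 : ψ t⁻¹ = ((x⁻¹ : A) : A ⧸ C) := by rw [map_inv, ht]; rfl
  rw [h.mul (t * s) t⁻¹ (x * y) x⁻¹ h1 h2, h.mul t s x y ht hs, h.inv_apply ht]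

end Pool.Agent.Lib.P0c8ca5.Ii
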