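import Mathlib
import Pool.Agent.Lib.P0c8ca5I.LinA

/-!
# Module LinB: the lift of the subgroups that centralize `C`

Every `v` in the centralizer of `C` has exactly one lift `t` with `ψ t = v C` and `X t v = 1` (`h.cen`, `h.ext_of`).
PROOF of `mem_lq`.  The set of the lifts of the elements of `Q` is a subgroup, by `h.mul` and `h.inv_apply`.
PROOF of `lift_conj`.  `h.conj`; `x v x⁻¹` centralizes `C` too.
PROOF of `lift_inj`.  Let `v`, `w ∈ V` be of order a power of `p` with the same lift `t`.  `ψ t` shows `z = v⁻¹ w ∈ C ⊓ V`, it commutes with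
`v` (`V` centralizes `C`), so `w = v z`, `1 = w ^ p ^ m = z ^ p ^ m` for large `m`, and the order of `z` divides
`|V ⊓ C|`, which is prime to `p`; so `z = 1`.
PROOF of `lq_le_iff`.  `lift_inj`.
PROOF of `lq_pgroup`.  If `t` is the lift of `v` then `t ^ j` is the lift of `v ^ j`, and `1` is the lift of `1`.
PROOF of `lq_norm`, `lq_centr`.  `lift_conj` and `lift_inj`; `x q x⁻¹ ∈ V` as `V` is normal; note `t ∈ normalizer R ↔ ∀ r ∈ R, t r t⁻¹ ∈ R`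
in finite groups, or use `cg x Q = Q` (`cg_eq_self_iff`, P0c8ca5.GroupLem), `lq_cg` and `lq_le_iff`.
PROOF of `lq_surj`.  Let `R ≤ Ls ψ V` be a p-group.  `Q₁ := {v ∈ V | the lift of v lies in R}` is a subgroup; `Q` a Sylow p-subgroup
of `Q₁` (as a subgroup of `A`).  For `t ∈ R` there is `v ∈ V` with `ψ t = v C`; let `s` be the lift of `v`; `t = s z` with `ψ z = 1`, so `z` is central
of order prime to `p`.  `p ^ m` a large power with `t ^ p ^ m = 1`, and `j` with `j ≡ 1` modulo the order of `t` and `j ≡ 0` modulo the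
order of `z`... simplest: choose `j` with `p ^ m ∣ j - 1` and `|ker ψ| ∣ j` (coprime numbers).  Then `t = t ^ j = s ^ j z ^ j = s ^ j` is the lift of
`v ^ j`.  So every `t ∈ R` is the lift of some `v ∈ Q₁`, and choosing in the same way `j'` with `p ^ m ∣ j' - 1` (`m` large), `|V ⊓ C| ∣ j'`:
`v ^ j'` still has the lift `t ^ j' = t`, and `v ^ j'` has order a power of `p`: `(v ^ p ^ m)` has the lift `1`, so `v ^ p ^ m ∈ V ⊓ C` and
`(v ^ j') ^ p ^ m = 1`.  So it suffices that the elements of p-power order of `Q₁` form a subgroup.  For `v`, `w` of p-power order in `Q₁`,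
`v w` has a lift `t ∈ R`; by the above `t` is also the lift of `u = (v w) ^ j'` of p-power order and `v w = u z`, `z ∈ V ⊓ C` central in `V`.
Instead of this: take a Sylow p-subgroup `Q` of `Q₁` and show that the homomorphism `Q₁ → R` maps it onto `R`: the kernel is contained in `V ⊓ C`, of
order prime to `p`, so `|Q₁| = |R| |kernel|`, `|Q| = |R|`, and the restriction to `Q` is injective (`lift_inj`).
-/

set_option autoImplicit false

namespace Pool.Agent.Lib.P0c8ca5.Ii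

open MonoidAlgebra Ps Bq Zz Gg

variable {p : ℕ} {k : Type*} [Field k] {A G : Type*} [Group A] [Group G] {C : Subgroup A}
  [C.Normal] {n : ℕ} {δ : Rp k C n} {ψ : G →* A ⧸ C}
  {X : G → A → ((Fin n → k) ≃ₗ[k] (Fin n → k))} {V Q R : Subgroup A}

namespace LinBAux

/-- the lifts of the elements of `Q` -/
def lqS (h : Lin p C δ ψ X) (Q : Subgroup A) : Subgroup G where
  carrier := {t | ∃ q ∈ Q, ψ t = (q : A ⧸ C) ∧ ∀ w, X t q w = w}
  one_mem' := ⟨1, Q.one_mem, by rw [map_one]; rfl, fun w => h.one_one w⟩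
  mul_mem' := by
    rintro t s ⟨q, hq, h1, h2⟩ ⟨r, hr, h3, h4⟩
    refine ⟨q * r, Q.mul_mem hq hr, by rw [map_mul, h1, h3]; rfl, fun w => ?_⟩
    rw [h.mul t s q r h1 h3, h4, h2]
  inv_mem' := by
    rintro t ⟨q, hq, h1, h2⟩
    refine ⟨q⁻¹, Q.inv_mem hq, by rw [map_inv, h1]; rfl, fun w => ?_⟩
    rw [h.inv_apply h1]
    apply (X t q).injective
    rw [LinearEquiv.apply_symm_apply, h2]

theorem mem_lq' (h : Lin p C δ ψ X) {t : G} :
    t ∈ lq C ψ X Q ↔ ∃ q ∈ Q, ψ t = (q : A ⧸ C) ∧ ∀ w, X t q w = w := by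
  have h1 : lq C ψ X Q = lqS h Q := by
    apply le_antisymm
    · exact (Subgroup.closure_le _).2 (fun t ht => ht)
    · exact fun t ht => Subgroup.subset_closure ht
  rw [h1]
  exact Iff.rfl

theorem lift_pow (h : Lin p C δ ψ X) {t : G} {v : A} (h1 : ψ t = (v : A ⧸ C))
    (h2 : ∀ w, X t v w = w) (j : ℕ) :
    ψ (t ^ j) = ((v ^ j : A) : A ⧸ C) ∧ ∀ w, X (t ^ j) (v ^ j) w = w := by
  induction j with
  | zero =>
    rw [pow_zero, pow_zero]
    exact ⟨by rw [map_one]; rfl, fun w => h.one_one w⟩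
  | succ j ih =>
    refine ⟨by rw [map_pow, h1]; rfl, fun w => ?_⟩
    rw [pow_succ, pow_succ, h.mul (t ^ j) t (v ^ j) v ih.1 h1, h2, ih.2]

end LinBAux

open LinBAux

theorem Lin.mem_lq (h : Lin p C δ ψ X) (hQ : Q ≤ Subgroup.centralizer (C : Set A)) {t : G} :
    t ∈ lq C ψ X Q ↔ ∃ q ∈ Q, ψ t = (q : A ⧸ C) ∧ ∀ w, X t q w = w := by
  exact mem_lq' h

theorem lq_mono (hQR : Q ≤ R) : lq C ψ X Q ≤ lq C ψ X R := by
  exact Subgroup.closure_mono (fun t ⟨q, hq, h1⟩ => ⟨q, hQR hq, h1⟩)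

theorem Lin.lift_conj (h : Lin p C δ ψ X) {t s : G} {x v : A} (ht : ψ t = (x : A ⧸ C))
    (hs : ψ s = (v : A ⧸ C)) (hw : ∀ w, X s v w = w) :
    ψ (t * s * t⁻¹) = ((x * v * x⁻¹ : A) : A ⧸ C) ∧ ∀ w, X (t * s * t⁻¹) (x * v * x⁻¹) w = w := by
  refine ⟨by rw [map_mul, map_mul, map_inv, ht, hs]; rfl, fun w => ?_⟩
  rw [h.conj ht hs, hw, LinearEquiv.apply_symm_apply]

/-- an element of p-power order of `V` is determined by its lift -/
theorem Lin.lift_inj [Fact p.Prime] [Finite A] (h : Lin p C δ ψ X) (hV : VH p C V) {t : G}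
    {v w : A} (hv : v ∈ V) (hw : w ∈ V) (hvp : ∃ m : ℕ, v ^ p ^ m = 1)
    (hwp : ∃ m : ℕ, w ^ p ^ m = 1) (h1 : ψ t = (v : A ⧸ C)) (h2 : ψ t = (w : A ⧸ C)) : v = w := by
  obtain ⟨m, hm⟩ := hvp
  obtain ⟨l, hl⟩ := hwp
  have hz : v⁻¹ * w ∈ C := QuotientGroup.eq.1 (h1.symm.trans h2)
  have hzV : v⁻¹ * w ∈ V := V.mul_mem (V.inv_mem hv) hw
  have hc : Commute v (v⁻¹ * w) :=
    (Subgroup.mem_centralizer_iff.1 (hV.vc hv) _ hz).symm
  have e1 : w = v * (v⁻¹ * w) := by group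
  have hv' : v ^ p ^ (m + l) = 1 := by rw [pow_add, pow_mul, hm, one_pow]
  have hw' : w ^ p ^ (m + l) = 1 := by rw [add_comm, pow_add, pow_mul, hl, one_pow]
  have hz' : (v⁻¹ * w) ^ p ^ (m + l) = 1 := by
    have h3 := hw'
    rw [e1, hc.mul_pow, hv', one_mul] at h3
    exact h3
  have h4 : orderOf (v⁻¹ * w) ∣ p ^ (m + l) := orderOf_dvd_of_pow_eq_one hz'
  have h5 : orderOf (v⁻¹ * w) ∣ Nat.card ↥(V ⊓ C) := by
    have h6 := orderOf_dvd_natCard (⟨v⁻¹ * w, hzV, hz⟩ : ↥(V ⊓ C))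
    rwa [← Subgroup.orderOf_coe] at h6
  have hp : p.Prime := Fact.out
  have h7 : Nat.Coprime (p ^ (m + l)) (Nat.card ↥(V ⊓ C)) :=
    Nat.Coprime.pow_left _ ((Nat.Prime.coprime_iff_not_dvd hp).2 hV.prime)
  have h8 : orderOf (v⁻¹ * w) = 1 := Nat.eq_one_of_dvd_coprimes h7 h4 h5
  have h9 : v⁻¹ * w = 1 := orderOf_eq_one_iff.1 h8
  exact (inv_mul_eq_one.1 h9)

theorem Lin.lq_le_iff [Fact p.Prime] [Finite A] (h : Lin p C δ ψ X) (hV : VH p C V)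
    (hQ : Q ≤ V) (hR : R ≤ V) (hQp : IsPGroup p Q) (hRp : IsPGroup p R) :
    lq C ψ X Q ≤ lq C ψ X R ↔ Q ≤ R := by
  constructor
  · intro hle q hq
    obtain ⟨t, ht, ht'⟩ := h.cen q (hV.vc (hQ hq))
    obtain ⟨r, hr, hr1, -⟩ := (mem_lq' h).1 (hle ((mem_lq' h).2 ⟨q, hq, ht, ht'⟩))
    have hqp : ∃ m : ℕ, q ^ p ^ m = 1 := by
      obtain ⟨m, hm⟩ := hQp ⟨q, hq⟩
      exact ⟨m, congrArg Subtype.val hm⟩
    have hrp : ∃ m : ℕ, r ^ p ^ m = 1 := by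
      obtain ⟨m, hm⟩ := hRp ⟨r, hr⟩
      exact ⟨m, congrArg Subtype.val hm⟩
    rw [h.lift_inj hV (hQ hq) (hR hr) hqp hrp ht hr1]
    exact hr
  · exact fun hle => lq_mono hle

theorem Lin.lq_pgroup (h : Lin p C δ ψ X) (hQ : Q ≤ Subgroup.centralizer (C : Set A))
    (hQp : IsPGroup p Q) : IsPGroup p (lq C ψ X Q) := by
  rintro ⟨t, ht⟩
  obtain ⟨q, hq, h1, h2⟩ := (mem_lq' h).1 ht
  obtain ⟨m, hm⟩ := hQp ⟨q, hq⟩
  have hm' : q ^ p ^ m = 1 := congrArg Subtype.val hm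
  refine ⟨m, Subtype.ext ?_⟩
  change t ^ p ^ m = 1
  obtain ⟨h3, h4⟩ := lift_pow h h1 h2 (p ^ m)
  rw [hm'] at h3 h4
  exact h.inj _ h3 h4

theorem Lin.lq_bot (h : Lin p C δ ψ X) : lq C ψ X (⊥ : Subgroup A) = ⊥ := by
  rw [eq_bot_iff]
  intro t ht
  obtain ⟨q, hq, h1, h2⟩ := (mem_lq' h).1 ht
  rw [Subgroup.mem_bot] at hq
  rw [hq] at h1 h2
  exact Subgroup.mem_bot.2 (h.inj t h1 h2)

theorem Lin.lq_ne [Fact p.Prime] [Finite A] (h : Lin p C δ ψ X) (hV : VH p C V) (hQ : Q ≤ V)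
    (hQp : IsPGroup p Q) (hQ1 : Q ≠ ⊥) : lq C ψ X Q ≠ ⊥ := by
  intro h0
  apply hQ1
  rw [eq_bot_iff]
  have h1 := (h.lq_le_iff hV hQ bot_le hQp (IsPGroup.of_bot (p := p) (G := A))).1 (by
    rw [h0]
    exact bot_le)
  exact h1

theorem lq_le_Ls (hQ : Q ≤ V) : lq C ψ X Q ≤ Ls ψ V := by
  refine (Subgroup.closure_le _).2 ?_
  rintro t ⟨q, hq, h1, -⟩
  exact mem_Ls.2 ⟨q, hQ hq, h1⟩

theorem LinBAux.norm_aux [Fact p.Prime] [Finite A] (h : Lin p C δ ψ X) (hV : VH p C V) (hQ : Q ≤ V)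
    (hQp : IsPGroup p Q) {t : G} {x : A} (ht : ψ t = (x : A ⧸ C)) :
    (∀ s ∈ lq C ψ X Q, t * s * t⁻¹ ∈ lq C ψ X Q) ↔ ∀ q ∈ Q, x * q * x⁻¹ ∈ Q := by
  have hqp : ∀ q ∈ Q, ∃ m : ℕ, q ^ p ^ m = 1 := by
    intro q hq
    obtain ⟨m, hm⟩ := hQp ⟨q, hq⟩
    exact ⟨m, congrArg Subtype.val hm⟩
  constructor
  · intro h1 q hq
    obtain ⟨s, hs, hs'⟩ := h.cen q (hV.vc (hQ hq))
    obtain ⟨r, hr, hr1, -⟩ := (mem_lq' h).1 (h1 s ((mem_lq' h).2 ⟨q, hq, hs, hs'⟩))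
    have h2 := (h.lift_conj ht hs hs').1
    have h3 : ∃ m : ℕ, (x * q * x⁻¹) ^ p ^ m = 1 := by
      obtain ⟨m, hm⟩ := hqp q hq
      refine ⟨m, ?_⟩
      rw [conj_pow, hm, mul_one, mul_inv_cancel]
    rw [h.lift_inj hV (hV.nrm.conj_mem q (hQ hq) x) (hQ hr) h3 (hqp r hr) h2 hr1]
    exact hr
  · intro h1 s hs
    obtain ⟨q, hq, h2, h3⟩ := (mem_lq' h).1 hs
    obtain ⟨h4, h5⟩ := h.lift_conj ht h2 h3
    exact (mem_lq' h).2 ⟨_, h1 q hq, h4, h5⟩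

theorem LinBAux.mem_norm_iff {H : Type*} [Group H] {K : Subgroup H} {g : H} :
    g ∈ Subgroup.normalizer (K : Set H) ↔
      (∀ s ∈ K, g * s * g⁻¹ ∈ K) ∧ ∀ s ∈ K, g⁻¹ * s * g⁻¹⁻¹ ∈ K := by
  rw [Subgroup.mem_normalizer_iff]
  constructor
  · intro h1
    refine ⟨fun s hs => (h1 s).1 hs, fun s hs => ?_⟩
    have h2 := (h1 (g⁻¹ * s * g⁻¹⁻¹)).2 (by
      have e : g * (g⁻¹ * s * g⁻¹⁻¹) * g⁻¹ = s := by group
      rw [e]
      exact hs)
    exact h2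
  · rintro ⟨h1, h2⟩ s
    refine ⟨h1 s, fun h3 => ?_⟩
    have h4 := h2 _ h3
    have e : g⁻¹ * (g * s * g⁻¹) * g⁻¹⁻¹ = s := by group
    rwa [e] at h4

theorem Lin.lq_norm [Fact p.Prime] [Finite A] (h : Lin p C δ ψ X) (hV : VH p C V) (hQ : Q ≤ V)
    (hQp : IsPGroup p Q) {t : G} {x : A} (ht : ψ t = (x : A ⧸ C)) :
    t ∈ Subgroup.normalizer (lq C ψ X Q : Set G) ↔ x ∈ Subgroup.normalizer (Q : Set A) := by
  have ht' : ψ t⁻¹ = ((x⁻¹ : A) : A ⧸ C) := by rw [map_inv, ht]; rfl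
  rw [mem_norm_iff, mem_norm_iff, norm_aux h hV hQ hQp ht, norm_aux h hV hQ hQp ht']

theorem Lin.lq_centr [Fact p.Prime] [Finite A] (h : Lin p C δ ψ X) (hV : VH p C V) (hQ : Q ≤ V)
    (hQp : IsPGroup p Q) {t : G} {x : A} (ht : ψ t = (x : A ⧸ C)) :
    t ∈ Subgroup.centralizer (lq C ψ X Q : Set G) ↔ x ∈ Subgroup.centralizer (Q : Set A) := by
  have hqp : ∀ q ∈ Q, ∃ m : ℕ, q ^ p ^ m = 1 := by
    intro q hq
    obtain ⟨m, hm⟩ := hQp ⟨q, hq⟩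
    exact ⟨m, congrArg Subtype.val hm⟩
  rw [Subgroup.mem_centralizer_iff, Subgroup.mem_centralizer_iff]
  constructor
  · intro h1 q hq
    obtain ⟨s, hs, hs'⟩ := h.cen q (hV.vc (hQ hq))
    have h2 := h1 s ((mem_lq' h).2 ⟨q, hq, hs, hs'⟩)
    have h3 : t * s * t⁻¹ = s := by rw [← h2, mul_inv_cancel_right]
    have h4 := (h.lift_conj ht hs hs').1
    rw [h3] at h4
    have h5 : ∃ m : ℕ, (x * q * x⁻¹) ^ p ^ m = 1 := by
      obtain ⟨m, hm⟩ := hqp q hq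
      refine ⟨m, ?_⟩
      rw [conj_pow, hm, mul_one, mul_inv_cancel]
    have h6 := h.lift_inj hV (hQ hq) (hV.nrm.conj_mem q (hQ hq) x) (hqp q hq) h5 hs h4
    calc q * x = x * q * x⁻¹ * x := by rw [← h6]
      _ = x * q := inv_mul_cancel_right _ _
  · intro h1 s hs
    obtain ⟨q, hq, h2, h3⟩ := (mem_lq' h).1 hs
    obtain ⟨h4, h5⟩ := h.lift_conj ht h2 h3
    have h6 : x * q * x⁻¹ = q := by rw [← h1 q hq, mul_inv_cancel_right]
    rw [h6] at h4 h5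
    have h7 : t * s * t⁻¹ = s := h.ext_of h4 h2 (fun v => by rw [h5, h3])
    calc s * t = t * s * t⁻¹ * t := by rw [h7]
      _ = t * s := inv_mul_cancel_right _ _

/-- every p-subgroup over the image of `V` is a lift -/
theorem Lin.lq_surj [Fact p.Prime] [IsAlgClosed k] [Finite A] [Finite G] (h : Lin p C δ ψ X)
    (hV : VH p C V) {S : Subgroup G} (hS : S ≤ Ls ψ V) (hSp : IsPGroup p S) :
    ∃ Q ≤ V, IsPGroup p Q ∧ lq C ψ X Q = S := by
  classical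
  have hp : p.Prime := Fact.out
  -- every element of `S` is a lift
  have key : ∀ t ∈ S, ∃ v ∈ V, ψ t = (v : A ⧸ C) ∧ ∀ w, X t v w = w := by
    intro t ht
    obtain ⟨v, hv, hv1⟩ := mem_Ls.1 (hS ht)
    obtain ⟨s, hs, hs'⟩ := h.cen v (hV.vc hv)
    obtain ⟨z, hz⟩ : ∃ z, z = t * s⁻¹ := ⟨_, rfl⟩
    have hz1 : ψ z = 1 := by rw [hz, map_mul, map_inv, hv1, hs, mul_inv_cancel]
    have hts : t = z * s := by rw [hz, inv_mul_cancel_right]
    have hzc : Commute z s := (Subgroup.mem_center_iff.1 (h.ker_central hz1) s).symm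
    obtain ⟨a, ha⟩ := hSp ⟨t, ht⟩
    have ha' : t ^ p ^ a = 1 := congrArg Subtype.val ha
    have hzk : z ^ Nat.card ψ.ker = 1 := by
      have h1 := pow_card_eq_one' (x := (⟨z, hz1⟩ : ψ.ker))
      exact congrArg Subtype.val h1
    have hcop : Nat.Coprime (p ^ a) (Nat.card ψ.ker) :=
      Nat.Coprime.pow_left _ ((Nat.Prime.coprime_iff_not_dvd hp).2 h.ker)
    obtain ⟨j, hj1, hj2⟩ := Nat.chineseRemainder hcop 1 0
    have h1 : t ^ j = t := by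
      have h2 : t ^ j = t ^ 1 := by
        rw [pow_eq_pow_iff_modEq]
        exact hj1.of_dvd (orderOf_dvd_of_pow_eq_one ha')
      rw [h2, pow_one]
    have h2 : z ^ j = 1 := by
      obtain ⟨c, hc⟩ := (Nat.modEq_zero_iff_dvd.1 hj2)
      rw [hc, pow_mul, hzk, one_pow]
    have h3 : t = s ^ j := by
      rw [← h1, hts, hzc.mul_pow, h2, one_mul]
    obtain ⟨h4, h5⟩ := lift_pow h hs hs' j
    refine ⟨v ^ j, V.pow_mem hv j, ?_, ?_⟩
    · rw [h3]; exact h4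
    · rw [h3]; exact h5
  -- the preimage
  let Q₁ : Subgroup A :=
    { carrier := {v | v ∈ V ∧ ∃ t ∈ S, ψ t = (v : A ⧸ C) ∧ ∀ w, X t v w = w}
      one_mem' := ⟨V.one_mem, 1, S.one_mem, by rw [map_one]; rfl, fun w => h.one_one w⟩
      mul_mem' := by
        rintro v w ⟨hv, t, ht, h1, h2⟩ ⟨hw, s, hs, h3, h4⟩
        refine ⟨V.mul_mem hv hw, t * s, S.mul_mem ht hs, by rw [map_mul, h1, h3]; rfl,
          fun u => ?_⟩
        rw [h.mul t s v w h1 h3, h4, h2]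
      inv_mem' := by
        rintro v ⟨hv, t, ht, h1, h2⟩
        refine ⟨V.inv_mem hv, t⁻¹, S.inv_mem ht, by rw [map_inv, h1]; rfl, fun u => ?_⟩
        rw [h.inv_apply h1]
        apply (X t v).injective
        rw [LinearEquiv.apply_symm_apply, h2] }
  have hQ₁ : ∀ v : Q₁, ∃ t : S, ψ (t : G) = ((v : A) : A ⧸ C) ∧ ∀ w, X (t : G) (v : A) w = w := by
    rintro ⟨v, hv, t, ht, h1, h2⟩
    exact ⟨⟨t, ht⟩, h1, h2⟩
  choose κ hκ1 hκ2 using hQ₁
  let f : Q₁ →* S := MonoidHom.mk' κ (by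
    intro v w
    apply Subtype.ext
    refine h.ext_of (x := ((v * w : Q₁) : A)) (hκ1 (v * w)) ?_ ?_
    · rw [Subgroup.coe_mul, map_mul, hκ1, hκ1]
      rfl
    · intro u
      rw [hκ2, Subgroup.coe_mul, Subgroup.coe_mul, h.mul _ _ _ _ (hκ1 v) (hκ1 w), hκ2, hκ2])
  have hf : Function.Surjective f := by
    rintro ⟨t, ht⟩
    obtain ⟨v, hv, h1, h2⟩ := key t ht
    refine ⟨⟨v, hv, t, ht, h1, h2⟩, Subtype.ext ?_⟩
    exact h.ext_of (hκ1 _) h1 (fun w => by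
      rw [h2]
      exact hκ2 ⟨v, hv, t, ht, h1, h2⟩ w)
  obtain ⟨P⟩ : Nonempty (Sylow p Q₁) := inferInstance
  have hPf : (P : Subgroup Q₁).map f = ⊤ := by
    have h1 := (P.mapSurjective hf).is_maximal' (Q := ⊤) (by
      intro x
      obtain ⟨m, hm⟩ := hSp x
      exact ⟨m, Subtype.ext hm⟩) le_top
    rw [Sylow.coe_mapSurjective] at h1
    exact h1.symm
  refine ⟨(P : Subgroup Q₁).map Q₁.subtype, ?_, P.isPGroup'.map _, ?_⟩
  · rintro _ ⟨v, -, rfl⟩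
    exact v.2.1
  · apply le_antisymm
    · intro t ht
      obtain ⟨q, ⟨v, hv, rfl⟩, h1, h2⟩ := (mem_lq' h).1 ht
      have h3 : t = (κ v : G) := h.ext_of h1 (hκ1 v) (fun w => by rw [h2]; exact (hκ2 v w).symm)
      rw [h3]
      exact (κ v).2
    · intro t ht
      have h1 : (⟨t, ht⟩ : S) ∈ (P : Subgroup Q₁).map f := by
        rw [hPf]
        exact Subgroup.mem_top _
      obtain ⟨v, hv, hv1⟩ := h1
      have h2 : (κ v : G) = t := congrArg Subtype.val hv1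
      rw [← h2]
      exact (mem_lq' h).2 ⟨v, ⟨v, hv, rfl⟩, hκ1 v, hκ2 v⟩

end Pool.Agent.Lib.P0c8ca5.Ii
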