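import Mathlib
import Pool.Agent.Lib.P0c8ca5I.LinA

/-!
# Module StF: the map `stF` from the group algebra of `A` to the group algebra of `G`

Let `f` be invariant under `C` (conjugation).
PROOF of `opS_mul_right`: `opS f (x c) = δ(c)⁻¹ ∘ opS f x`: in `∑ f(x c d) δ(d)` put `e = c d`.
PROOF of `opS_comm`: `opS f x ∘ δ(g) = δ(x⁻¹ g x) ∘ opS f x`, by the invariance of `f`.
PROOF of `be_spec`: `X t x ∘ opS f x` commutes with all `δ(g)`, so it is a scalar.
PROOF of `opS_zero`: if `opS f x ≠ 0` then it is bijective by Schur and `x ∈ stD C δ`.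
-/

set_option autoImplicit false

namespace Pool.Agent.Lib.P0c8ca5.Ii

open MonoidAlgebra Ps Bq Zz Gg

variable {p : ℕ} {k : Type*} [Field k] {A G : Type*} [Group A] [Group G] {C : Subgroup A}
  [C.Normal] {n : ℕ} {δ : Rp k C n} {ψ : G →* A ⧸ C}
  {X : G → A → ((Fin n → k) ≃ₗ[k] (Fin n → k))}

namespace StFAux

theorem schur' [IsAlgClosed k] (hδ : Irr' δ) (Φ : (Fin n → k) →ₗ[k] (Fin n → k))
    (h : ∀ (g : C) v, Φ (δ g v) = δ g (Φ v)) : ∃ c : k, ∀ v, Φ v = c • v := by
  have := hδ.nontriv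
  obtain ⟨c, hc⟩ := Module.End.exists_eigenvalue (K := k) (V := Fin n → k) Φ
  refine ⟨c, fun v => ?_⟩
  rcases hδ.sub (Module.End.eigenspace Φ c) (fun g w hw => by
    rw [Module.End.mem_eigenspace_iff] at hw ⊢
    rw [h, hw, map_smul]) with h1 | h1
  · exact absurd h1 hc
  · exact Module.End.mem_eigenspace_iff.1 (by rw [h1]; exact Submodule.mem_top)

theorem opS_mul_right [Finite A] (f : MonoidAlgebra k A) (x : A) (c : C) (v : Fin n → k) :
    opS C δ f (x * (c : A)) v = δ c⁻¹ (opS C δ f x v) := by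
  have : Fintype C := Fintype.ofFinite C
  rw [opS_apply, opS_apply, map_sum]
  refine Fintype.sum_equiv (Equiv.mulLeft c) _ _ (fun d => ?_)
  rw [Equiv.coe_mulLeft, map_smul, ← Module.End.mul_apply, ← map_mul, inv_mul_cancel_left,
    Subgroup.coe_mul, mul_assoc]

theorem opS_comm [Finite A] {f : MonoidAlgebra k A} (hf : InvBy C f) (x : A) (g g' : C)
    (hg : (g' : A) = x⁻¹ * g * x) (v : Fin n → k) :
    opS C δ f x (δ g v) = δ g' (opS C δ f x v) := by
  have : Fintype C := Fintype.ofFinite C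
  rw [opS_apply, opS_apply, map_sum]
  refine Fintype.sum_equiv ((Equiv.mulRight g).trans (Equiv.mulLeft g'⁻¹)) _ _ (fun c => ?_)
  rw [Equiv.trans_apply, Equiv.coe_mulRight, Equiv.coe_mulLeft, map_smul,
    ← Module.End.mul_apply, ← Module.End.mul_apply, ← map_mul, ← map_mul, mul_inv_cancel_left]
  congr 1
  have h1 := hf (g : A)⁻¹ (C.inv_mem g.2) (x * (c : A))
  rw [← h1, Subgroup.coe_mul, Subgroup.coe_mul, Subgroup.coe_inv, hg]
  congr 1
  group

theorem exists_s [IsAlgClosed k] [Finite A] (h : Lin p C δ ψ X) {f : MonoidAlgebra k A}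
    (hf : InvBy C f) {t : G} {x : A} (ht : ψ t = (x : A ⧸ C)) :
    ∃ s : k, ∀ v, opS C δ f x v = s • (X t x).symm v := by
  obtain ⟨s, hs⟩ := schur' h.irr ((X t x).toLinearMap ∘ₗ opS C δ f x) (fun g v => by
    have hm : x⁻¹ * g * x ∈ C := by
      have h1 := Subgroup.Normal.conj_mem (H := C) inferInstance (g : A) g.2 x⁻¹
      rwa [inv_inv] at h1
    change X t x (opS C δ f x (δ g v)) = δ g (X t x (opS C δ f x v))
    rw [opS_comm hf x g ⟨x⁻¹ * g * x, hm⟩ rfl]
    refine h.itw t x ht ⟨x⁻¹ * g * x, hm⟩ g ?_ _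
    change (g : A) = x * (x⁻¹ * g * x) * x⁻¹
    group)
  refine ⟨s, fun v => (X t x).injective ?_⟩
  rw [map_smul, LinearEquiv.apply_symm_apply]
  exact hs v

theorem inv_mul {f g : MonoidAlgebra k A} {L : Subgroup A} (hf : InvBy L f) (hg : InvBy L g) :
    InvBy L (f * g) := by
  rw [invBy_iff_cj] at hf hg ⊢
  intro a ha
  rw [cj_mul, hf a ha, hg a ha]

theorem sum_cos [Fintype A] [Fintype (A ⧸ C)] [Fintype C] {M : Type*} [AddCommMonoid M]
    (F : A → M) :
    ∑ y : A, F y = ∑ q : A ⧸ C, ∑ d : C, F (Quotient.out q * (d : A)) := by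
  rw [← Fintype.sum_prod_type' (fun (q : A ⧸ C) (d : C) => F (Quotient.out q * (d : A)))]
  symm
  refine Fintype.sum_bijective (fun z : (A ⧸ C) × C => Quotient.out z.1 * (z.2 : A)) ?_ _ _
    (fun z => rfl)
  constructor
  · rintro ⟨q, d⟩ ⟨q', d'⟩ h
    have h0 : Quotient.out q * (d : A) = Quotient.out q' * (d' : A) := h
    have h1 : q = q' := by
      have h2 := congrArg (fun z : A => (z : A ⧸ C)) h0
      have h3 : ∀ (r : A ⧸ C) (e : C), ((Quotient.out r * (e : A) : A) : A ⧸ C) = r := by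
        intro r e
        rw [QuotientGroup.mk_mul_of_mem _ e.2]
        exact QuotientGroup.out_eq' r
      simp only [h3] at h2
      exact h2
    subst h1
    have h2 : d = d' := Subtype.ext (mul_left_cancel h0)
    rw [h2]
  · intro y
    refine ⟨⟨(y : A ⧸ C), ⟨(Quotient.out (y : A ⧸ C))⁻¹ * y, ?_⟩⟩, ?_⟩
    · rw [← QuotientGroup.eq]
      exact QuotientGroup.out_eq' _
    · change Quotient.out (y : A ⧸ C) * ((Quotient.out (y : A ⧸ C))⁻¹ * y) = y
      rw [mul_inv_cancel_left]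

theorem opS_mul [Fintype A] [Fintype (A ⧸ C)] {f g : MonoidAlgebra k A} (hg : InvBy C g)
    (x : A) (v : Fin n → k) :
    opS C δ (f * g) x v = ∑ q : A ⧸ C,
      opS C δ g ((Quotient.out q)⁻¹ * x) (opS C δ f (Quotient.out q) v) := by
  have : Fintype C := Fintype.ofFinite C
  rw [opS_apply]
  have h1 : ∀ c : C, (f * g).coeff (x * (c : A)) • δ c v = ∑ q : A ⧸ C, ∑ d : C,
      (f.coeff (Quotient.out q * (d : A)) *
        g.coeff ((Quotient.out q * (d : A))⁻¹ * (x * (c : A)))) • δ c v := by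
    intro c
    rw [coeff_mul_fin, sum_cos (C := C), Finset.sum_smul]
    refine Finset.sum_congr rfl fun q _ => ?_
    rw [Finset.sum_smul]
  rw [Finset.sum_congr rfl fun c _ => h1 c, Finset.sum_comm]
  refine Finset.sum_congr rfl fun q _ => ?_
  rw [Finset.sum_comm, opS_apply δ f, map_sum]
  refine Finset.sum_congr rfl fun d _ => ?_
  rw [map_smul, opS_apply, Finset.smul_sum]
  refine Fintype.sum_equiv (Equiv.mulRight d⁻¹) _ _ (fun c => ?_)
  rw [Equiv.coe_mulRight, smul_smul, ← Module.End.mul_apply, ← map_mul, inv_mul_cancel_right]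
  congr 2
  have h2 := hg (d : A)⁻¹ (C.inv_mem d.2) ((Quotient.out q)⁻¹ * x * ((c * d⁻¹ : C) : A))
  rw [← h2, Subgroup.coe_mul, Subgroup.coe_inv]
  congr 1
  group

theorem card_fib [Fintype G] [DecidableEq (A ⧸ C)] (s₀ : G) :
    (Finset.univ.filter (fun s : G => ψ s = ψ s₀)).card = Nat.card ψ.ker := by
  classical
  have : Fintype ψ.ker := Fintype.ofFinite _
  rw [Nat.card_eq_fintype_card, ← Finset.card_univ]
  symm
  refine Finset.card_bij (fun z _ => s₀ * (z : G)) ?_ ?_ ?_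
  · intro z _
    have hz : ψ (z : G) = 1 := z.2
    rw [Finset.mem_filter, map_mul, hz, mul_one]
    exact ⟨Finset.mem_univ _, rfl⟩
  · intro z _ z' _ h
    exact Subtype.ext (mul_left_cancel h)
  · intro s hs
    rw [Finset.mem_filter] at hs
    refine ⟨⟨s₀⁻¹ * s, ?_⟩, Finset.mem_univ _, ?_⟩
    · rw [MonoidHom.mem_ker, map_mul, map_inv, hs.2, inv_mul_cancel]
    · change s₀ * (s₀⁻¹ * s) = s
      rw [mul_inv_cancel_left]

end StFAux

open StFAux

theorem Lin.be_spec [IsAlgClosed k] [Finite A] (h : Lin p C δ ψ X) {f : MonoidAlgebra k A}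
    (hf : InvBy C f) {t : G} {x : A} (ht : ψ t = (x : A ⧸ C)) (v : Fin n → k) :
    opS C δ f x v = be C δ ψ X f t • (X t x).symm v := by
  obtain ⟨x0, hx0⟩ : ∃ x0 : A, x0 = Quotient.out (ψ t) := ⟨_, rfl⟩
  have ht0 : ψ t = (x0 : A ⧸ C) := by
    rw [hx0]
    exact (QuotientGroup.out_eq' _).symm
  have hex := exists_s h hf ht0
  have hbe : ∀ v, opS C δ f x0 v = be C δ ψ X f t • (X t x0).symm v := by
    unfold be
    rw [hx0] at hex
    rw [dif_pos hex, hx0]
    exact hex.choose_spec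
  have hc : x0⁻¹ * x ∈ C := by rw [← QuotientGroup.eq, ← ht0, ht]
  obtain ⟨c, hcx⟩ : ∃ c : C, x = x0 * (c : A) :=
    ⟨⟨_, hc⟩, (mul_inv_cancel_left _ _).symm⟩
  subst hcx
  rw [opS_mul_right, hbe, map_smul]
  congr 1
  apply (X t (x0 * (c : A))).injective
  rw [LinearEquiv.apply_symm_apply, h.mul_res ht0, ← Module.End.mul_apply, ← map_mul,
    mul_inv_cancel, map_one, Module.End.one_apply, LinearEquiv.apply_symm_apply]

/-- the scalar is determined by the formula -/
theorem Lin.be_eq [IsAlgClosed k] [Finite A] (h : Lin p C δ ψ X) {f : MonoidAlgebra k A}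
    (hf : InvBy C f) {t : G} {x : A} (ht : ψ t = (x : A ⧸ C)) {s : k}
    (hs : ∀ v, opS C δ f x v = s • (X t x).symm v) : be C δ ψ X f t = s := by
  refine h.smul_inj (X t x).symm (fun v => ?_)
  rw [← h.be_spec hf ht v, hs v]

theorem opS_zero [IsAlgClosed k] [Finite A] (hδ : Irr' δ) {f : MonoidAlgebra k A}
    (hf : InvBy C f) {x : A} (hx : x ∉ stD C δ) : opS C δ f x = 0 := by
  by_contra h0
  apply hx
  have hm : ∀ g : C, x * g * x⁻¹ ∈ C :=
    fun g => Subgroup.Normal.conj_mem (H := C) inferInstance (g : A) g.2 x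
  have hm' : ∀ g : C, x⁻¹ * g * x ∈ C := fun g => by
    have h1 := Subgroup.Normal.conj_mem (H := C) inferInstance (g : A) g.2 x⁻¹
    rwa [inv_inv] at h1
  have hinj : Function.Injective (opS C δ f x) := hδ.injective _ h0 (fun g v hv => by
    rw [opS_comm hf x g ⟨_, hm' g⟩ rfl, hv, map_zero])
  have hsur : Function.Surjective (opS C δ f x) := hδ.surjective _ h0 (fun g v => by
    refine ⟨δ ⟨_, hm g⟩ v, ?_⟩
    refine opS_comm hf x ⟨_, hm g⟩ g ?_ v
    change (g : A) = x⁻¹ * (x * g * x⁻¹) * x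
    group)
  refine ⟨(LinearEquiv.ofBijective _ ⟨hinj, hsur⟩).symm, fun g g' hg v => ?_⟩
  rw [LinearEquiv.symm_apply_eq]
  change δ g v = opS C δ f x (δ g' ((LinearEquiv.ofBijective _ ⟨hinj, hsur⟩).symm v))
  rw [opS_comm hf x g' g (by rw [hg]; group)]
  congr 1
  exact ((LinearEquiv.ofBijective _ ⟨hinj, hsur⟩).apply_symm_apply v).symm

theorem Lin.be_ker [IsAlgClosed k] [Finite A] (h : Lin p C δ ψ X) {f : MonoidAlgebra k A}
    (hf : InvBy C f) {z : G} (hz : ψ z = 1) (t : G) :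
    be C δ ψ X f (z * t) = ze X z * be C δ ψ X f t := by
  obtain ⟨x, hx⟩ := exists_rep ψ t
  refine h.be_eq hf (t := z * t) (x := x) (by rw [map_mul, hz, one_mul, hx]) (fun v => ?_)
  have h1 : (X t x).symm v = ze X z • (X (z * t) x).symm v := by
    apply (X t x).injective
    rw [LinearEquiv.apply_symm_apply, map_smul, ← h.ker_mul hz hx,
      LinearEquiv.apply_symm_apply]
  rw [h.be_spec hf hx v, h1, smul_smul, mul_comm]

variable [Fintype G]

theorem Lin.stF_ker [IsAlgClosed k] [Finite A] (h : Lin p C δ ψ X) {f : MonoidAlgebra k A}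
    (hf : InvBy C f) {z : G} (hz : ψ z = 1) (t : G) :
    (stF C δ ψ X f).coeff (z * t) = ze X z * (stF C δ ψ X f).coeff t := by
  rw [coeff_stF, coeff_stF, h.be_ker hf hz]
  ring

theorem Lin.stF_mul [CharP k p] [IsAlgClosed k] [Fintype A] (h : Lin p C δ ψ X)
    {f g : MonoidAlgebra k A} (hf : InvBy C f) (hg : InvBy C g) :
    stF C δ ψ X (f * g) = stF C δ ψ X f * stF C δ ψ X g := by
  classical
  have : Fintype (A ⧸ C) := Fintype.ofFinite _
  have hk := h.card_ker_ne
  ext t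
  obtain ⟨x, hx⟩ := exists_rep ψ t
  have hfg := inv_mul hf hg
  have hout : ∀ q : A ⧸ C, ((Quotient.out q : A) : A ⧸ C) = q := fun q => QuotientGroup.out_eq' q
  have key : ∑ s : G, be C δ ψ X f s * be C δ ψ X g (s⁻¹ * t) =
      (Nat.card ψ.ker : k) * be C δ ψ X (f * g) t := by
    refine h.smul_inj (X t x).symm (fun v => ?_)
    rw [mul_smul, ← h.be_spec hfg hx v, opS_mul hg, Finset.smul_sum, Finset.sum_smul,
      ← Finset.sum_fiberwise (Finset.univ : Finset G) (fun s => ψ s)]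
    refine Finset.sum_congr rfl fun q _ => ?_
    have hterm : ∀ s : G, ψ s = q → (be C δ ψ X f s * be C δ ψ X g (s⁻¹ * t)) •
        (X t x).symm v = opS C δ g ((Quotient.out q)⁻¹ * x)
          (opS C δ f (Quotient.out q) v) := by
      intro s hs
      have hs1 : ψ s = ((Quotient.out q : A) : A ⧸ C) := by rw [hout, hs]
      have hs2 : ψ (s⁻¹ * t) = (((Quotient.out q)⁻¹ * x : A) : A ⧸ C) := by
        rw [map_mul, map_inv, hs1, hx]
        rfl
      rw [h.be_spec hf hs1, h.be_spec hg hs2, map_smul, smul_smul,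
        mul_comm (be C δ ψ X g (s⁻¹ * t))]
      congr 1
      apply (X t x).injective
      rw [LinearEquiv.apply_symm_apply]
      have h1 := h.mul s (s⁻¹ * t) (Quotient.out q) ((Quotient.out q)⁻¹ * x) hs1 hs2
      rw [mul_inv_cancel_left, mul_inv_cancel_left] at h1
      rw [h1, LinearEquiv.apply_symm_apply, LinearEquiv.apply_symm_apply]
    by_cases hq : ∃ s₀, ψ s₀ = q
    · obtain ⟨s₀, hs₀⟩ := hq
      rw [Finset.sum_congr rfl fun s hs => hterm s (Finset.mem_filter.1 hs).2,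
        Finset.sum_const, ← hs₀, card_fib, Nat.cast_smul_eq_nsmul]
    · have h1 : Quotient.out q ∉ stD C δ := by
        intro h2
        obtain ⟨s, hs⟩ := h.mem_stD_iff.1 h2
        exact hq ⟨s, by rw [hs, hout]⟩
      have h2 : Finset.univ.filter (fun s : G => ψ s = q) = ∅ := by
        rw [Finset.filter_eq_empty_iff]
        intro s _ hs
        exact hq ⟨s, hs⟩
      rw [h2, Finset.sum_empty, opS_zero h.irr hf h1, LinearMap.zero_apply, map_zero, smul_zero]
  rw [coeff_mul_fin, coeff_stF]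
  have h3 : ∀ s : G, (stF C δ ψ X f).coeff s * (stF C δ ψ X g).coeff (s⁻¹ * t) =
      (Nat.card ψ.ker : k)⁻¹ * ((Nat.card ψ.ker : k)⁻¹ *
        (be C δ ψ X f s * be C δ ψ X g (s⁻¹ * t))) := by
    intro s
    rw [coeff_stF, coeff_stF]
    ring
  rw [Finset.sum_congr rfl fun s _ => h3 s, ← Finset.mul_sum, ← Finset.mul_sum, key,
    inv_mul_cancel_left₀ hk]

theorem Lin.stF_inv [IsAlgClosed k] [Finite A] (h : Lin p C δ ψ X) {L : Subgroup A}
    (hCL : C ≤ L) {f : MonoidAlgebra k A} (hf : InvBy L f) :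
    InvBy (Ls ψ L) (stF C δ ψ X f) := by
  intro g hg t
  obtain ⟨y, hy, hgy⟩ := mem_Ls.1 hg
  obtain ⟨x, hx⟩ := exists_rep ψ t
  have hfC : InvBy C f := hf.mono hCL
  have : Fintype C := Fintype.ofFinite C
  rw [coeff_stF, coeff_stF]
  congr 1
  refine h.be_eq hfC (t := g * t * g⁻¹) (x := y * x * y⁻¹)
    (by rw [map_mul, map_mul, map_inv, hgy, hx]; rfl) (fun v => ?_)
  have h1 : opS C δ f (y * x * y⁻¹) v = X g y (opS C δ f x ((X g y).symm v)) := by
    rw [opS_apply, opS_apply, map_sum]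
    have hm : ∀ c : C, y⁻¹ * c * y ∈ C := fun c => by
      have h1 := Subgroup.Normal.conj_mem (H := C) inferInstance (c : A) c.2 y⁻¹
      rwa [inv_inv] at h1
    have hm' : ∀ c : C, y * c * y⁻¹ ∈ C :=
      fun c => Subgroup.Normal.conj_mem (H := C) inferInstance (c : A) c.2 y
    refine Fintype.sum_bijective (fun c : C => (⟨y⁻¹ * c * y, hm c⟩ : C)) ?_ _ _ (fun c => ?_)
    · constructor
      · intro c c' h2
        have h3 := congrArg Subtype.val h2
        apply Subtype.ext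
        simpa using h3
      · intro c
        refine ⟨⟨y * c * y⁻¹, hm' c⟩, Subtype.ext ?_⟩
        change y⁻¹ * (y * c * y⁻¹) * y = c
        group
    · rw [map_smul, h.itw g y hgy ⟨y⁻¹ * c * y, hm c⟩ c (by
          change (c : A) = y * (y⁻¹ * c * y) * y⁻¹
          group), LinearEquiv.apply_symm_apply]
      congr 1
      have h2 := hf y hy (x * (y⁻¹ * c * y))
      rw [← h2]
      congr 1
      group
  rw [h1, h.be_spec hfC hx, map_smul]
  congr 1
  apply (X (g * t * g⁻¹) (y * x * y⁻¹)).injective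
  rw [LinearEquiv.apply_symm_apply, h.conj hgy hx, LinearEquiv.symm_apply_apply,
    LinearEquiv.apply_symm_apply, LinearEquiv.apply_symm_apply]

theorem Lin.stF_supp [IsAlgClosed k] [Finite A] (h : Lin p C δ ψ X) {L : Subgroup A}
    {f : MonoidAlgebra k A} (hfi : InvBy C f) (hf : SuppIn L f) :
    SuppIn (Ls ψ L) (stF C δ ψ X f) := by
  intro t ht
  by_contra hL
  apply ht
  obtain ⟨x, hx⟩ := exists_rep ψ t
  have : Fintype C := Fintype.ofFinite C
  have h1 : be C δ ψ X f t = 0 := by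
    refine h.be_eq hfi hx (fun v => ?_)
    rw [zero_smul, opS_apply]
    refine Finset.sum_eq_zero fun c _ => ?_
    have h2 : f.coeff (x * (c : A)) = 0 := by
      by_contra h3
      apply hL
      refine mem_Ls.2 ⟨x * (c : A), hf _ h3, ?_⟩
      rw [hx, QuotientGroup.mk_mul_of_mem _ c.2]
    rw [h2, zero_smul]
  rw [coeff_stF, h1, mul_zero]

/-- only the part in the stabilizer counts -/
theorem Lin.stF_res [IsAlgClosed k] [Finite A] (h : Lin p C δ ψ X) {L : Subgroup A}
    {f : MonoidAlgebra k A} (hfi : InvBy C f) (hf : SuppIn L f) (hCL : C ≤ L) :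
    stF C δ ψ X (resS ((stD C δ ⊓ L : Subgroup A) : Set A) f) = stF C δ ψ X f := by
  ext t
  have : Fintype C := Fintype.ofFinite C
  rw [coeff_stF, coeff_stF]
  congr 1
  have hout : ψ t = ((Quotient.out (ψ t) : A) : A ⧸ C) := (QuotientGroup.out_eq' _).symm
  have h1 : opS C δ (resS ((stD C δ ⊓ L : Subgroup A) : Set A) f) (Quotient.out (ψ t)) =
      opS C δ f (Quotient.out (ψ t)) := by
    apply LinearMap.ext
    intro v
    rw [opS_apply, opS_apply]
    refine Finset.sum_congr rfl fun c _ => ?_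
    congr 1
    have h2 : Quotient.out (ψ t) * (c : A) ∈ stD C δ :=
      (stD C δ).mul_mem (h.mem_stD hout) (C_le_stD δ c.2)
    by_cases h3 : Quotient.out (ψ t) * (c : A) ∈ L
    · exact coeff_resS_of_mem _ (Subgroup.mem_inf.2 ⟨h2, h3⟩)
    · rw [coeff_resS_of_notMem _ (fun h4 => h3 (Subgroup.mem_inf.1 h4).2)]
      by_contra h4
      exact h3 (hf _ (Ne.symm h4))
  unfold be
  rw [h1]

end Pool.Agent.Lib.P0c8ca5.Ii
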