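import Mathlib
import Pool.Agent.Lib.P0c8ca5I.LinB
import Pool.Agent.Lib.P0c8ca5I.StF

/-!
# Module Blk: the block `stF c` of `Ls ψ V`

`c` is a block of `V`, `Z = V ⊓ C`; `Z` is central in `V` and in `C` (`V` centralizes `C`).  For `z ∈ Z` the operator `δ z` is a scalar
`lam z` (Schur).  For `v ∈ V` let `κ v` be the lift (`h.cen`, unique by `h.ext_of`); `κ` is multiplicative on `V`.  For `z ∈ Z`:
`ψ (κ z) = 1` and `1 = X (κ z) z = X (κ z) 1 ∘ δ z` (`h.mul_res`), so `ze (κ z) = (lam z)⁻¹`.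
(a) For `f` with `SuppIn V f`, `InvBy V f` (so `InvBy C f`, as `C` centralizes `V`) and `v ∈ V`: `opS f v = ∑ f(v z) δ(z)` over `z ∈ Z`, so
`be f (κ v) = ∑ f(v z) lam z` and `(stF f) (κ v) = |ker ψ|⁻¹ ∑ f(v z) lam z`.
(b) `e := |Z|⁻¹ ∑ lam(z) z⁻¹` is an idempotent of the centre of `kV`; `(e f)(v) = |Z|⁻¹ ∑ lam(z) f(z v)`.  So
`(stF f) (κ v) = |ker ψ|⁻¹ |Z| (e f)(v)`.  `e c = c` or `e c = 0` (`IsBlock.mul_eq`).
(c) If `e c = 0` then `stF c = 0`: every `t ∈ Ls ψ V` is `z (κ v)` with `ψ z = 1` (`h.stF_ker`), and outside `Ls ψ V` by `h.stF_supp`.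
(d) Let `e c = c`.  `stF c ≠ 0` by (b).  It is in `fixAlg k (Ls ψ V) (Ls ψ V)` by `h.stF_supp`, `h.stF_inv` applied to `L = V ⊔ C` (`Ls ψ (V ⊔ C) = Ls ψ V`;
`c` is `V ⊔ C`-invariant), idempotent by `h.stF_mul`.  Primitive: let `g ∈ fixAlg k (Ls ψ V) (Ls ψ V)` be an idempotent with
`g * stF c = g`.  Then `g (z t) = ze z g(t)` for `ψ z = 1` (the same holds for `stF c` by `h.stF_ker`, `z` is central).  Put
`g' (v) := |ker ψ| |Z|⁻¹ g (κ v)` for `v ∈ V`, `0` otherwise.  Then `g' (v z) = |ker ψ| |Z|⁻¹ g(κ v κ z) = (lam z)⁻¹ g' (v)`, so by (a)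
`(stF g')(κ v) = g (κ v)` and `stF g' = g`; `e g' = g'`.  `g' ∈ fixAlg k V V`.  `stF (g' g') = g g = g = stF g'`, and `e (g' g') = g' g'`, so by (b)
`g' g' = g'`; in the same way `g' c = g'`.  So `g' = 0` or `g' = c`, and `g = 0` or `g = stF c`.
PROOF of `stF_hasBr`.  Let `x ∈ C(P)`, `c(x) ≠ 0` (so `x ∈ V`).  `κ x` centralizes `lq P` (`h.lq_centr`), and `(stF c)(κ x) = |ker ψ|⁻¹ |Z| c(x) ≠ 0`, since
`e c = c` (as `stF c ≠ 0`).
-/

set_option autoImplicit false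

namespace Pool.Agent.Lib.P0c8ca5.Ii

open MonoidAlgebra Ps Bq Zz Gg

variable {p : ℕ} {k : Type*} [Field k] {A G : Type*} [Group A] [Group G] {C : Subgroup A}
  [C.Normal] {n : ℕ} {δ : Rp k C n} {ψ : G →* A ⧸ C}
  {X : G → A → ((Fin n → k) ≃ₗ[k] (Fin n → k))} {V : Subgroup A}

namespace BlkAux

section
open Classical in
/-- the lift of `v` -/
noncomputable def kp (C : Subgroup A) [C.Normal] {n : ℕ} (ψ : G →* A ⧸ C)
    (X : G → A → ((Fin n → k) ≃ₗ[k] (Fin n → k))) (v : A) : G :=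
  if h : ∃ t, ψ t = (v : A ⧸ C) ∧ ∀ w, X t v w = w then h.choose else 1

theorem kp_spec (h : Lin p C δ ψ X) {v : A} (hv : v ∈ Subgroup.centralizer (C : Set A)) :
    ψ (kp C ψ X v) = (v : A ⧸ C) ∧ ∀ w, X (kp C ψ X v) v w = w := by
  have h1 := h.cen v hv
  unfold kp
  rw [dif_pos h1]
  exact h1.choose_spec

theorem kp_eq (h : Lin p C δ ψ X) {v : A} (hv : v ∈ Subgroup.centralizer (C : Set A)) {t : G}
    (ht : ψ t = (v : A ⧸ C)) (hw : ∀ w, X t v w = w) : t = kp C ψ X v := by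
  obtain ⟨h1, h2⟩ := kp_spec h hv
  exact h.ext_of ht h1 (fun w => by rw [hw, h2])

theorem kp_mul (h : Lin p C δ ψ X) {v w : A} (hv : v ∈ Subgroup.centralizer (C : Set A))
    (hw : w ∈ Subgroup.centralizer (C : Set A)) :
    kp C ψ X (v * w) = kp C ψ X v * kp C ψ X w := by
  obtain ⟨h1, h2⟩ := kp_spec h hv
  obtain ⟨h3, h4⟩ := kp_spec h hw
  symm
  apply kp_eq h (Subgroup.mul_mem _ hv hw)
  · rw [map_mul, h1, h3]
    rfl
  · intro u
    rw [h.mul _ _ v w h1 h3, h4, h2]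

theorem kp_one (h : Lin p C δ ψ X) : kp C ψ X (1 : A) = 1 := by
  symm
  apply kp_eq h (Subgroup.one_mem _)
  · rw [map_one]
    rfl
  · exact h.one_one

theorem kp_inv (h : Lin p C δ ψ X) {v : A} (hv : v ∈ Subgroup.centralizer (C : Set A)) :
    kp C ψ X v⁻¹ = (kp C ψ X v)⁻¹ := by
  rw [eq_inv_iff_mul_eq_one, ← kp_mul h (Subgroup.inv_mem _ hv) hv, inv_mul_cancel, kp_one h]

/-- the scalar of `z` -/
noncomputable def lm (C : Subgroup A) [C.Normal] {n : ℕ} (ψ : G →* A ⧸ C)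
    (X : G → A → ((Fin n → k) ≃ₗ[k] (Fin n → k))) (z : A) : k := (ze X (kp C ψ X z))⁻¹

theorem psi_kp (h : Lin p C δ ψ X) (hV : VH p C V) {z : A} (hz : z ∈ V ⊓ C) :
    ψ (kp C ψ X z) = 1 := by
  rw [(kp_spec h (hV.vc hz.1)).1, QuotientGroup.eq_one_iff]
  exact hz.2

theorem del_z [IsAlgClosed k] (h : Lin p C δ ψ X) (hV : VH p C V) {z : A} (hz : z ∈ V ⊓ C)
    (v : Fin n → k) : δ ⟨z, hz.2⟩ v = lm C ψ X z • v := by
  obtain ⟨h1, h2⟩ := kp_spec h (hV.vc hz.1)
  have hp := psi_kp h hV hz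
  have h3 := h.mul_res (t := kp C ψ X z) (x := 1) (by rw [hp]; rfl) ⟨z, hz.2⟩ v
  rw [one_mul, h2, h.ze_spec hp] at h3
  unfold lm
  conv_rhs => rw [h3]
  rw [smul_smul, inv_mul_cancel₀ (h.ze_ne_zero hp), one_smul]

theorem lm_mul [IsAlgClosed k] (h : Lin p C δ ψ X) (hV : VH p C V) {z w : A} (hz : z ∈ V ⊓ C)
    (hw : w ∈ V ⊓ C) : lm C ψ X (z * w) = lm C ψ X z * lm C ψ X w := by
  unfold lm
  rw [kp_mul h (hV.vc hz.1) (hV.vc hw.1), h.ze_mul (psi_kp h hV hz) (psi_kp h hV hw), mul_inv]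

theorem lm_one (h : Lin p C δ ψ X) : lm C ψ X (1 : A) = 1 := by
  unfold lm
  rw [kp_one h, h.ze_one, inv_one]

theorem invC (hV : VH p C V) {f : MonoidAlgebra k A} (hf : SuppIn V f) : InvBy C f := by
  intro g hg x
  by_cases hx : x ∈ V
  · have e : g * x * g⁻¹ = x := by
      rw [Subgroup.mem_centralizer_iff.1 (hV.vc hx) g hg, mul_inv_cancel_right]
    rw [e]
  · have h1 : f.coeff x = 0 := by
      by_contra h
      exact hx (hf x h)
    have h2 : f.coeff (g * x * g⁻¹) = 0 := by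
      by_contra h
      apply hx
      have h3 := hV.nrm.conj_mem _ (hf _ h) g⁻¹
      have e : g⁻¹ * (g * x * g⁻¹) * g⁻¹⁻¹ = x := by group
      rwa [e] at h3
    rw [h1, h2]

theorem be_kp [IsAlgClosed k] [Finite A] [Fintype ↥(V ⊓ C)] (h : Lin p C δ ψ X)
    (hV : VH p C V) {f : MonoidAlgebra k A} (hf : SuppIn V f) {v : A} (hv : v ∈ V) :
    be C δ ψ X f (kp C ψ X v) = ∑ z : ↥(V ⊓ C), f.coeff (v * z) * lm C ψ X z := by
  classical
  have : Fintype C := Fintype.ofFinite C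
  obtain ⟨h1, h2⟩ := kp_spec h (hV.vc hv)
  refine h.be_eq (invC hV hf) h1 fun w => ?_
  have e : (X (kp C ψ X v) v).symm w = w := by
    rw [LinearEquiv.symm_apply_eq]
    exact (h2 w).symm
  rw [opS_apply, e, Finset.sum_smul]
  symm
  apply Fintype.sum_of_injective (fun z : ↥(V ⊓ C) => (⟨z, z.2.2⟩ : C))
  · intro z z' hzz
    exact Subtype.ext (congrArg (fun c : C => (c : A)) hzz)
  · intro c hc
    have h0 : f.coeff (v * c) = 0 := by
      by_contra h0
      apply hc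
      have h3 : (c : A) ∈ V := by
        have h4 := V.mul_mem (V.inv_mem hv) (hf _ h0)
        rwa [inv_mul_cancel_left] at h4
      exact ⟨⟨c, h3, c.2⟩, rfl⟩
    rw [h0, zero_smul]
  · intro z
    rw [del_z h hV z.2, smul_smul]

open Classical in
/-- the idempotent of the linear character of `V ⊓ C` -/
noncomputable def ee [Finite A] (V C : Subgroup A) [C.Normal] {n : ℕ} (ψ : G →* A ⧸ C)
    (X : G → A → ((Fin n → k) ≃ₗ[k] (Fin n → k))) : MonoidAlgebra k A :=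
  MonoidAlgebra.ofCoeff (Finsupp.equivFunOnFinite.symm fun x =>
    if x ∈ V ⊓ C then (Nat.card ↥(V ⊓ C) : k)⁻¹ * lm C ψ X x⁻¹ else 0)

open Classical in
theorem coeff_ee [Finite A] (x : A) : (ee V C ψ X).coeff x =
    if x ∈ V ⊓ C then (Nat.card ↥(V ⊓ C) : k)⁻¹ * lm C ψ X x⁻¹ else 0 := by
  simp only [ee, Finsupp.equivFunOnFinite_symm_apply_apply]

theorem ee_mul [Fintype A] [Fintype ↥(V ⊓ C)] (f : MonoidAlgebra k A) (x : A) :
    (ee V C ψ X * f).coeff x =
      (Nat.card ↥(V ⊓ C) : k)⁻¹ * ∑ z : ↥(V ⊓ C), lm C ψ X (z : A) * f.coeff (z * x) := by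
  classical
  rw [coeff_mul_fin, Finset.mul_sum]
  symm
  apply Fintype.sum_of_injective (fun z : ↥(V ⊓ C) => (z : A)⁻¹)
  · intro z z' hzz
    exact Subtype.ext (inv_injective hzz)
  · intro y hy
    rw [coeff_ee, if_neg, zero_mul]
    intro h3
    exact hy ⟨⟨y⁻¹, Subgroup.inv_mem _ h3⟩, inv_inv y⟩
  · intro z
    rw [coeff_ee, if_pos (Subgroup.inv_mem _ z.2), inv_inv, mul_assoc]

theorem card_ne [Fact p.Prime] [CharP k p] (hV : VH p C V) : (Nat.card ↥(V ⊓ C) : k) ≠ 0 :=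
  fun h0 => hV.prime ((CharP.cast_eq_zero_iff k p _).1 h0)

theorem ee_supp [Finite A] : SuppIn V (ee V C ψ X) := by
  intro x hx
  by_contra h
  apply hx
  rw [coeff_ee, if_neg]
  exact fun h1 => h h1.1

theorem ee_inv [Finite A] (hV : VH p C V) : InvBy V (ee V C ψ X) := by
  intro g hg x
  by_cases hx : x ∈ V ⊓ C
  · have e : g * x * g⁻¹ = x := by
      rw [← Subgroup.mem_centralizer_iff.1 (hV.vc hg) x hx.2, mul_inv_cancel_right]
    rw [e]
  · have hx' : g * x * g⁻¹ ∉ V ⊓ C := by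
      intro h
      apply hx
      have e : g⁻¹ * (g * x * g⁻¹) * g⁻¹⁻¹ = x := by group
      refine ⟨?_, ?_⟩
      · have h3 := hV.nrm.conj_mem _ h.1 g⁻¹
        rwa [e] at h3
      · have h3 := (inferInstance : C.Normal).conj_mem _ h.2 g⁻¹
        rwa [e] at h3
    rw [coeff_ee, coeff_ee, if_neg hx, if_neg hx']

theorem ee_idem [Fact p.Prime] [CharP k p] [IsAlgClosed k] [Fintype A] (h : Lin p C δ ψ X)
    (hV : VH p C V) : ee V C ψ X * ee V C ψ X = ee V C ψ X := by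
  classical
  have : Fintype ↥(V ⊓ C) := Fintype.ofFinite _
  ext x
  rw [ee_mul]
  by_cases hx : x ∈ V ⊓ C
  · have h1 : ∀ z : ↥(V ⊓ C), lm C ψ X (z : A) * (ee V C ψ X).coeff (z * x) =
        (ee V C ψ X).coeff x := by
      intro z
      rw [coeff_ee, coeff_ee, if_pos hx, if_pos (Subgroup.mul_mem _ z.2 hx), mul_inv_rev,
        lm_mul h hV (Subgroup.inv_mem _ hx) (Subgroup.inv_mem _ z.2)]
      have h2 : lm C ψ X (z : A) * lm C ψ X (z : A)⁻¹ = 1 := by
        rw [← lm_mul h hV z.2 (Subgroup.inv_mem _ z.2), mul_inv_cancel, lm_one h]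
      linear_combination ((Nat.card ↥(V ⊓ C) : k)⁻¹ * lm C ψ X x⁻¹) * h2
    rw [Finset.sum_congr rfl fun z _ => h1 z, Finset.sum_const, Finset.card_univ,
      ← Nat.card_eq_fintype_card, ← Nat.cast_smul_eq_nsmul k, smul_eq_mul,
      inv_mul_cancel_left₀ (card_ne hV)]
  · have h1 : ∀ z : ↥(V ⊓ C), lm C ψ X (z : A) * (ee V C ψ X).coeff (z * x) = 0 := by
      intro z
      rw [coeff_ee, if_neg, mul_zero]
      intro h2
      apply hx
      have h3 := Subgroup.mul_mem _ (Subgroup.inv_mem _ z.2) h2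
      rwa [inv_mul_cancel_left] at h3
    rw [Finset.sum_congr rfl fun z _ => h1 z, Finset.sum_const_zero, mul_zero, coeff_ee,
      if_neg hx]

variable [Fintype G]

theorem stF_kp [Fact p.Prime] [CharP k p] [IsAlgClosed k] [Fintype A] (h : Lin p C δ ψ X)
    (hV : VH p C V) {f : MonoidAlgebra k A} (hf : SuppIn V f) {v : A} (hv : v ∈ V) :
    (stF C δ ψ X f).coeff (kp C ψ X v) =
      (Nat.card ψ.ker : k)⁻¹ * (Nat.card ↥(V ⊓ C) : k) * (ee V C ψ X * f).coeff v := by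
  classical
  have : Fintype ↥(V ⊓ C) := Fintype.ofFinite _
  rw [coeff_stF, be_kp h hV hf hv, ee_mul, mul_assoc, mul_inv_cancel_left₀ (card_ne hV)]
  congr 1
  refine Finset.sum_congr rfl fun z _ => ?_
  have e : v * (z : A) = z * v := (Subgroup.mem_centralizer_iff.1 (hV.vc hv) z z.2.2).symm
  rw [e, mul_comm]

theorem ext_G (h : Lin p C δ ψ X) (hV : VH p C V) {u w : MonoidAlgebra k G}
    (hu : SuppIn (Ls ψ V) u) (hw : SuppIn (Ls ψ V) w)
    (hu1 : ∀ z, ψ z = 1 → ∀ t, u.coeff (z * t) = ze X z * u.coeff t)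
    (hw1 : ∀ z, ψ z = 1 → ∀ t, w.coeff (z * t) = ze X z * w.coeff t)
    (huw : ∀ v ∈ V, u.coeff (kp C ψ X v) = w.coeff (kp C ψ X v)) : u = w := by
  ext t
  by_cases ht : t ∈ Ls ψ V
  · obtain ⟨v, hv, h1⟩ := mem_Ls.1 ht
    have e : t = (t * (kp C ψ X v)⁻¹) * kp C ψ X v := by group
    have hz : ψ (t * (kp C ψ X v)⁻¹) = 1 := by
      rw [map_mul, map_inv, h1, (kp_spec h (hV.vc hv)).1, mul_inv_cancel]
    rw [e, hu1 _ hz, hw1 _ hz, huw v hv]
  · have h1 : u.coeff t = 0 := by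
      by_contra h0
      exact ht (hu t h0)
    have h2 : w.coeff t = 0 := by
      by_contra h0
      exact ht (hw t h0)
    rw [h1, h2]

theorem kp_mem (h : Lin p C δ ψ X) (hV : VH p C V) {v : A} (hv : v ∈ V) :
    kp C ψ X v ∈ Ls ψ V := mem_Ls.2 ⟨v, hv, (kp_spec h (hV.vc hv)).1⟩

open Classical in
/-- the preimage of `g` -/
noncomputable def prG [Finite A] (V C : Subgroup A) [C.Normal] {n : ℕ} (ψ : G →* A ⧸ C)
    (X : G → A → ((Fin n → k) ≃ₗ[k] (Fin n → k))) (g : MonoidAlgebra k G) :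
    MonoidAlgebra k A :=
  MonoidAlgebra.ofCoeff (Finsupp.equivFunOnFinite.symm fun v =>
    if v ∈ V then (Nat.card ψ.ker : k) * (Nat.card ↥(V ⊓ C) : k)⁻¹ * g.coeff (kp C ψ X v)
    else 0)

open Classical in
theorem coeff_pre [Finite A] (g : MonoidAlgebra k G) (v : A) : (prG V C ψ X g).coeff v =
    if v ∈ V then (Nat.card ψ.ker : k) * (Nat.card ↥(V ⊓ C) : k)⁻¹ * g.coeff (kp C ψ X v)
    else 0 := by
  simp only [prG, Finsupp.equivFunOnFinite_symm_apply_apply]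

theorem pre_supp [Finite A] (g : MonoidAlgebra k G) : SuppIn V (prG V C ψ X g) := by
  intro x hx
  by_contra h
  apply hx
  rw [coeff_pre, if_neg h]

theorem pre_inv [Finite A] (h : Lin p C δ ψ X) (hV : VH p C V) {g : MonoidAlgebra k G}
    (hg : InvBy (Ls ψ V) g) : InvBy V (prG V C ψ X g) := by
  intro w hw v
  by_cases hv : v ∈ V
  · have hv' : w * v * w⁻¹ ∈ V := V.mul_mem (V.mul_mem hw hv) (V.inv_mem hw)
    rw [coeff_pre, coeff_pre, if_pos hv, if_pos hv',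
      kp_mul h (hV.vc (V.mul_mem hw hv)) (hV.vc (V.inv_mem hw)), kp_mul h (hV.vc hw) (hV.vc hv),
      kp_inv h (hV.vc hw), hg _ (kp_mem h hV hw)]
  · have hv' : w * v * w⁻¹ ∉ V := by
      intro h1
      apply hv
      have h2 := V.mul_mem (V.mul_mem (V.inv_mem hw) h1) hw
      have e : w⁻¹ * (w * v * w⁻¹) * w = v := by group
      rwa [e] at h2
    rw [coeff_pre, coeff_pre, if_neg hv, if_neg hv']

theorem ee_pre [Fact p.Prime] [CharP k p] [IsAlgClosed k] [Fintype A] (h : Lin p C δ ψ X)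
    (hV : VH p C V) {g : MonoidAlgebra k G}
    (hg1 : ∀ z, ψ z = 1 → ∀ t, g.coeff (z * t) = ze X z * g.coeff t) :
    ee V C ψ X * prG V C ψ X g = prG V C ψ X g := by
  classical
  have : Fintype ↥(V ⊓ C) := Fintype.ofFinite _
  ext v
  rw [ee_mul]
  by_cases hv : v ∈ V
  · have h1 : ∀ z : ↥(V ⊓ C), lm C ψ X (z : A) * (prG V C ψ X g).coeff (z * v) =
        (prG V C ψ X g).coeff v := by
      intro z
      have hz := psi_kp h hV z.2
      rw [coeff_pre, coeff_pre, if_pos hv, if_pos (V.mul_mem z.2.1 hv),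
        kp_mul h (hV.vc z.2.1) (hV.vc hv), hg1 _ hz]
      unfold lm
      have h2 : (ze X (kp C ψ X (z : A)))⁻¹ * ze X (kp C ψ X (z : A)) = 1 :=
        inv_mul_cancel₀ (h.ze_ne_zero hz)
      linear_combination ((Nat.card ψ.ker : k) * (Nat.card ↥(V ⊓ C) : k)⁻¹ *
        g.coeff (kp C ψ X v)) * h2
    rw [Finset.sum_congr rfl fun z _ => h1 z, Finset.sum_const, Finset.card_univ,
      ← Nat.card_eq_fintype_card, ← Nat.cast_smul_eq_nsmul k, smul_eq_mul,
      inv_mul_cancel_left₀ (card_ne hV)]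
  · have h1 : ∀ z : ↥(V ⊓ C), lm C ψ X (z : A) * (prG V C ψ X g).coeff (z * v) = 0 := by
      intro z
      rw [coeff_pre, if_neg, mul_zero]
      intro h2
      apply hv
      have h3 := V.mul_mem (V.inv_mem z.2.1) h2
      rwa [inv_mul_cancel_left] at h3
    rw [Finset.sum_congr rfl fun z _ => h1 z, Finset.sum_const_zero, mul_zero, coeff_pre,
      if_neg hv]

/-- injectivity -/
theorem stF_inj [Fact p.Prime] [CharP k p] [IsAlgClosed k] [Fintype A] (h : Lin p C δ ψ X)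
    (hV : VH p C V) {f g : MonoidAlgebra k A} (hf : SuppIn V f) (hg : SuppIn V g)
    (hef : ee V C ψ X * f = f) (heg : ee V C ψ X * g = g)
    (hfg : stF C δ ψ X f = stF C δ ψ X g) : f = g := by
  ext v
  by_cases hv : v ∈ V
  · have h1 := stF_kp h hV hf hv
    have h2 := stF_kp h hV hg hv
    rw [hef] at h1
    rw [heg, ← hfg, h1] at h2
    exact mul_left_cancel₀ (mul_ne_zero (inv_ne_zero h.card_ker_ne) (card_ne hV)) h2
  · have h1 : f.coeff v = 0 := by
      by_contra h0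
      exact hv (hf v h0)
    have h2 : g.coeff v = 0 := by
      by_contra h0
      exact hv (hg v h0)
    rw [h1, h2]

/-- the elements fixing `a` under conjugation -/
def stB {B : Type*} [Group B] (a : MonoidAlgebra k B) : Subgroup B where
  carrier := {h | ∀ w, a.coeff (h * w * h⁻¹) = a.coeff w}
  mul_mem' := by
    intro g h hg hh w
    have e : g * h * w * (g * h)⁻¹ = g * (h * w * h⁻¹) * g⁻¹ := by group
    rw [e, hg, hh]
  one_mem' := by
    intro w
    rw [one_mul, inv_one, mul_one]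
  inv_mem' := by
    intro h hh w
    have h1 := hh (h⁻¹ * w * h⁻¹⁻¹)
    rw [← h1]
    congr 1
    group

/-- the case of a block that is not annihilated -/
theorem ee_of_ne [Fact p.Prime] [CharP k p] [IsAlgClosed k] [Fintype A] (h : Lin p C δ ψ X)
    (hV : VH p C V) {c : MonoidAlgebra k A} (hc : IsBlock V c)
    (h0 : stF C δ ψ X c ≠ 0) : ee V C ψ X * c = c := by
  obtain ⟨hcs, hci⟩ := mem_fixAlg.1 hc.mem
  rcases hc.mul_eq (mem_fixAlg.2 ⟨ee_supp, ee_inv hV⟩ : ee V C ψ X ∈ fixAlg k V V)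
    (ee_idem h hV) with h1 | h1
  · exfalso
    apply h0
    refine ext_G h hV (h.stF_supp (invC hV hcs) hcs) (fun t ht => absurd rfl ht)
      (fun z hz t => h.stF_ker (invC hV hcs) hz t) (fun z _ t => ?_) fun v hv => ?_
    · rw [coeff_zero, Finsupp.zero_apply, Finsupp.zero_apply, mul_zero]
    · rw [stF_kp h hV hcs hv, h1, coeff_zero, coeff_zero, Finsupp.zero_apply,
        Finsupp.zero_apply, mul_zero]
  · exact h1

end

end BlkAux

open BlkAux

/-- the image of a block of `V` is zero or a block -/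
theorem Lin.stF_blk [Fact p.Prime] [CharP k p] [IsAlgClosed k] [Fintype A] [Fintype G]
    (h : Lin p C δ ψ X) (hV : VH p C V) {c : MonoidAlgebra k A} (hc : IsBlock V c) :
    stF C δ ψ X c = 0 ∨ IsBlock (Ls ψ V) (stF C δ ψ X c) := by
  classical
  by_cases h0 : stF C δ ψ X c = 0
  · exact Or.inl h0
  right
  have hec := ee_of_ne h hV hc h0
  obtain ⟨hcs, hci⟩ := mem_fixAlg.1 hc.mem
  have hcC := invC hV hcs
  have hsupp := h.stF_supp hcC hcs
  have hinv : InvBy (Ls ψ V) (stF C δ ψ X c) := by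
    have hle : V ⊔ C ≤ stB c := sup_le (fun g hg => hci g hg) (fun g hg => hcC g hg)
    have h1 : InvBy (V ⊔ C) c := fun g hg => hle hg
    refine InvBy.mono ?_ (h.stF_inv le_sup_right h1)
    intro t ht
    obtain ⟨x, hx, h2⟩ := mem_Ls.1 ht
    exact mem_Ls.2 ⟨x, (le_sup_left : V ≤ V ⊔ C) hx, h2⟩
  have hker := fun z (hz : ψ z = 1) t => h.stF_ker hcC hz t
  refine ⟨mem_fixAlg.2 ⟨hsupp, hinv⟩, ?_, h0, ?_⟩
  · rw [← h.stF_mul hcC hcC, hc.idem]
  · intro g hg hgg hgc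
    obtain ⟨hgs, hgi⟩ := mem_fixAlg.1 hg
    have hg1 : ∀ z, ψ z = 1 → ∀ t, g.coeff (z * t) = ze X z * g.coeff t := by
      intro z hz t
      rw [← hgc, coeff_mul_fin, coeff_mul_fin, Finset.mul_sum]
      refine Finset.sum_congr rfl fun y _ => ?_
      have hzc := Subgroup.mem_center_iff.1 (h.ker_central hz) y⁻¹
      have e : y⁻¹ * (z * t) = z * (y⁻¹ * t) := by
        rw [← mul_assoc, hzc, mul_assoc]
      rw [e, hker z hz]
      ring
    have hps := pre_supp (V := V) (C := C) (ψ := ψ) (X := X) g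
    have hpi := pre_inv h hV hgi
    have hep := ee_pre h hV hg1
    have hpC := invC hV hps
    have hst : stF C δ ψ X (prG V C ψ X g) = g := by
      refine ext_G h hV (h.stF_supp hpC hps) hgs (fun z hz t => h.stF_ker hpC hz t) hg1
        fun v hv => ?_
      rw [stF_kp h hV hps hv, hep, coeff_pre, if_pos hv]
      have h1 := h.card_ker_ne
      have h2 : (Nat.card ↥(V ⊓ C) : k) ≠ 0 := card_ne hV
      field_simp
    have hpp : prG V C ψ X g * prG V C ψ X g = prG V C ψ X g := by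
      refine stF_inj h hV (hps.mul hps) hps ?_ hep ?_
      · rw [← mul_assoc, hep]
      · rw [h.stF_mul hpC hpC, hst, hgg]
    have hpc : prG V C ψ X g * c = prG V C ψ X g := by
      refine stF_inj h hV (hps.mul hcs) hps ?_ hep ?_
      · rw [← mul_assoc, hep]
      · rw [h.stF_mul hpC hcC, hst, hgc]
    rcases hc.prim _ (mem_fixAlg.2 ⟨hps, hpi⟩) hpp hpc with h1 | h1
    · left
      refine ext_G h hV hgs (fun t ht => absurd rfl ht) hg1 (fun z _ t => ?_) fun v hv => ?_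
      · rw [coeff_zero, Finsupp.zero_apply, Finsupp.zero_apply, mul_zero]
      · rw [← hst, stF_kp h hV hps hv, hep, h1, coeff_zero, coeff_zero, Finsupp.zero_apply,
          Finsupp.zero_apply, mul_zero]
    · right
      rw [← hst, h1]

theorem Lin.stF_hasBr [Fact p.Prime] [CharP k p] [IsAlgClosed k] [Fintype A] [Fintype G]
    (h : Lin p C δ ψ X) (hV : VH p C V) {c : MonoidAlgebra k A} (hc : IsBlock V c)
    (h0 : stF C δ ψ X c ≠ 0) {P : Subgroup A} (hP : P ≤ V) (hPp : IsPGroup p P)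
    (hbr : HasBr P c) : HasBr (lq C ψ X P) (stF C δ ψ X c) := by
  obtain ⟨x, hx, hcx⟩ := hbr
  obtain ⟨hcs, hci⟩ := mem_fixAlg.1 hc.mem
  have hxV := hcs x hcx
  refine ⟨kp C ψ X x, (h.lq_centr hV hP hPp (kp_spec h (hV.vc hxV)).1).2 hx, ?_⟩
  rw [stF_kp h hV hcs hxV, ee_of_ne h hV hc h0]
  exact mul_ne_zero (mul_ne_zero (inv_ne_zero h.card_ker_ne) (card_ne hV)) hcx

end Pool.Agent.Lib.P0c8ca5.Ii
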