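import Mathlib
import Pool.Agent.Lib.P0c8ca5I.LinB
import Pool.Agent.Lib.P0c8ca5I.StF
import Pool.Agent.Lib.P0c8ca5G.FamAll

/-!
# Module Chn: the chains of `Ls ψ V`

PROOF of `chain_sum`.  `σ ↦ σ.image (lq C ψ X)` is a bijection from `Ch (famAll p V)` to `Ch (famAll p (Ls ψ V))` (`mem_famAll`,
`InvAux.mem_Ch`; `lq_le_iff`: the map `lq` is injective on the p-subgroups of `V` and preserves and reflects `≤`;
`lq_surj`, `lq_ne`, `lq_bot`, `lq_pgroup`, `lq_le_Ls`).  `Finset.sum_bij`.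
PROOF of `card_image`.  Injectivity on `σ` (`Finset.card_image_of_injOn`).
PROOF of `sup_image`.  For `σ = ∅` by `lq_bot`; otherwise `σ.sup id` is the largest member of the chain `σ` (`Un8.sup_mem_chain` in P0c8ca5U.CmH, or a
largest member exists in a finite nonempty chain), and both sides are its `lq` (`lq_mono`).
PROOF of `stab_image`.  `stab ⊤ σ = ⊤ ⊓ ⨅ Q ∈ σ, normalizer Q`.  For `t ∈ G` with `ψ t = x C`: `t` normalizes all `lq Q` iff `x` normalizes all
`Q` (`lq_norm`); `C ≤ stab ⊤ σ` as `V` centralizes `C`; `mem_Ls_of`.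
PROOF of `stF_cS`.  Coefficients: for `t` with `ψ t = x C`: `t ∈ C(lq Q) ↔ x ∈ C(Q)` (`lq_centr`).  If `x ∈ C(Q)` then `x c ∈ C(Q)` for all
`c ∈ C` and `opS (cS Q f) x = opS f x`, if not then `x c ∉ C(Q)` and `opS (cS Q f) x = 0`; `be_eq`, `be_spec`; `cS Q f` is `C`-invariant as
`C` centralizes `Q`.
-/

set_option autoImplicit false

namespace Pool.Agent.Lib.P0c8ca5.Ii

open MonoidAlgebra Ps Bq Zz Gg

variable {p : ℕ} {k : Type*} [Field k] {A G : Type*} [Group A] [Group G] {C : Subgroup A}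
  [C.Normal] {n : ℕ} {δ : Rp k C n} {ψ : G →* A ⧸ C}
  {X : G → A → ((Fin n → k) ≃ₗ[k] (Fin n → k))} {V : Subgroup A}

namespace ChnAux

omit [C.Normal] in
theorem memCh {D σ : Finset (Subgroup A)} :
    σ ∈ Ch D ↔ σ ⊆ D ∧ IsChain (· ≤ ·) (σ : Set (Subgroup A)) := InvAux.mem_Ch

theorem memSt {σ : Finset (Subgroup A)} {x : A} :
    x ∈ stab ⊤ σ ↔ ∀ Q ∈ σ, x ∈ Subgroup.normalizer (Q : Set A) := by
  simp [stab, Subgroup.mem_iInf]

theorem supChain {σ : Finset (Subgroup A)} (hne : σ.Nonempty)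
    (hσ : IsChain (· ≤ ·) (σ : Set (Subgroup A))) : σ.sup id ∈ σ := by
  obtain ⟨Q, hQ⟩ := σ.exists_maximal hne
  have : σ.sup id = Q := by
    apply le_antisymm
    · apply Finset.sup_le
      intro R hR
      rcases eq_or_ne R Q with h | h
      · exact h.le
      · rcases hσ hR hQ.prop h with h1 | h1
        · exact h1
        · exact (hQ.eq_of_le hR h1).symm.le
    · exact Finset.le_sup (f := id) hQ.prop
  rw [this]; exact hQ.prop

theorem lqInj [Fact p.Prime] [Fintype A] (h : Lin p C δ ψ X) (hV : VH p C V) {P Q : Subgroup A}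
    (hP : P ∈ famAll p V) (hQ : Q ∈ famAll p V) (he : lq C ψ X P = lq C ψ X Q) : P = Q := by
  obtain ⟨hP1, hP2, -⟩ := mem_famAll.1 hP
  obtain ⟨hQ1, hQ2, -⟩ := mem_famAll.1 hQ
  exact le_antisymm ((h.lq_le_iff hV hP1 hQ1 hP2 hQ2).1 he.le)
    ((h.lq_le_iff hV hQ1 hP1 hQ2 hP2).1 he.ge)

theorem lq_mem [Fact p.Prime] [Fintype A] [Fintype G] (h : Lin p C δ ψ X) (hV : VH p C V)
    {P : Subgroup A} (hP : P ∈ famAll p V) : lq C ψ X P ∈ famAll p (Ls ψ V) := by
  obtain ⟨hP1, hP2, hP3⟩ := mem_famAll.1 hP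
  exact mem_famAll.2 ⟨lq_le_Ls hP1, h.lq_pgroup (hP1.trans hV.vc) hP2, h.lq_ne hV hP1 hP2 hP3⟩

end ChnAux

open ChnAux

open Classical in
theorem Lin.chain_sum [Fact p.Prime] [IsAlgClosed k] [Fintype A] [Fintype G]
    (h : Lin p C δ ψ X) (hV : VH p C V) (F : Finset (Subgroup G) → ℤ) :
    ∑ τ ∈ Ch (famAll p (Ls ψ V)), F τ
      = ∑ σ ∈ Ch (famAll p V), F (σ.image (lq C ψ X)) := by
  symm
  refine Finset.sum_bij (fun σ _ => σ.image (lq C ψ X)) ?_ ?_ ?_ ?_
  · intro σ hσ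
    obtain ⟨h1, h2⟩ := memCh.1 hσ
    refine memCh.2 ⟨?_, ?_⟩
    · intro R hR
      obtain ⟨P, hP, rfl⟩ := Finset.mem_image.1 hR
      exact lq_mem h hV (h1 hP)
    · intro R hR S hS _
      obtain ⟨P, hP, rfl⟩ := Finset.mem_image.1 (Finset.mem_coe.1 hR)
      obtain ⟨Q, hQ, rfl⟩ := Finset.mem_image.1 (Finset.mem_coe.1 hS)
      rcases InvAux.chain_le h2 hP hQ with h3 | h3
      · left
        exact lq_mono h3
      · right
        exact lq_mono h3
  · intro σ₁ hσ₁ σ₂ hσ₂ he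
    obtain ⟨h1, -⟩ := memCh.1 hσ₁
    obtain ⟨h2, -⟩ := memCh.1 hσ₂
    ext P
    constructor
    · intro hP
      have h3 : lq C ψ X P ∈ σ₂.image (lq C ψ X) := by
        rw [← he]
        exact Finset.mem_image_of_mem _ hP
      obtain ⟨Q, hQ, h4⟩ := Finset.mem_image.1 h3
      rw [← lqInj h hV (h2 hQ) (h1 hP) h4]
      exact hQ
    · intro hP
      have h3 : lq C ψ X P ∈ σ₁.image (lq C ψ X) := by
        rw [he]
        exact Finset.mem_image_of_mem _ hP
      obtain ⟨Q, hQ, h4⟩ := Finset.mem_image.1 h3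
      rw [← lqInj h hV (h1 hQ) (h2 hP) h4]
      exact hQ
  · intro τ hτ
    obtain ⟨h1, h2⟩ := memCh.1 hτ
    refine ⟨(famAll p V).filter (fun Q => lq C ψ X Q ∈ τ), ?_, ?_⟩
    · refine memCh.2 ⟨Finset.filter_subset _ _, ?_⟩
      intro P hP Q hQ _
      obtain ⟨hP1, hP2⟩ := Finset.mem_filter.1 (Finset.mem_coe.1 hP)
      obtain ⟨hQ1, hQ2⟩ := Finset.mem_filter.1 (Finset.mem_coe.1 hQ)
      obtain ⟨a1, a2, -⟩ := mem_famAll.1 hP1
      obtain ⟨b1, b2, -⟩ := mem_famAll.1 hQ1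
      rcases InvAux.chain_le h2 hP2 hQ2 with h3 | h3
      · left
        exact (h.lq_le_iff hV a1 b1 a2 b2).1 h3
      · right
        exact (h.lq_le_iff hV b1 a1 b2 a2).1 h3
    · ext S
      rw [Finset.mem_image]
      constructor
      · rintro ⟨Q, hQ, rfl⟩
        exact (Finset.mem_filter.1 hQ).2
      · intro hS
        obtain ⟨c1, c2, c3⟩ := mem_famAll.1 (h1 hS)
        obtain ⟨Q, hQ1, hQ2, rfl⟩ := h.lq_surj hV c1 c2
        refine ⟨Q, Finset.mem_filter.2 ⟨mem_famAll.2 ⟨hQ1, hQ2, ?_⟩, hS⟩, rfl⟩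
        rintro rfl
        exact c3 h.lq_bot
  · intro σ _
    rfl

open Classical in
theorem Lin.card_image [Fact p.Prime] [Fintype A] (h : Lin p C δ ψ X) (hV : VH p C V)
    {σ : Finset (Subgroup A)} (hσ : σ ∈ Ch (famAll p V)) :
    (σ.image (lq C ψ X)).card = σ.card := by
  obtain ⟨h1, -⟩ := memCh.1 hσ
  refine Finset.card_image_of_injOn ?_
  intro P hP Q hQ he
  exact lqInj h hV (h1 hP) (h1 hQ) he

open Classical in
theorem Lin.sup_image [Fact p.Prime] [Fintype A] (h : Lin p C δ ψ X) (hV : VH p C V)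
    {σ : Finset (Subgroup A)} (hσ : σ ∈ Ch (famAll p V)) :
    (σ.image (lq C ψ X)).sup id = lq C ψ X (σ.sup id) := by
  obtain ⟨-, h2⟩ := memCh.1 hσ
  rcases σ.eq_empty_or_nonempty with rfl | hne
  · rw [Finset.image_empty, Finset.sup_empty, Finset.sup_empty, h.lq_bot]
  · have h3 := supChain hne h2
    apply le_antisymm
    · apply Finset.sup_le
      intro R hR
      obtain ⟨Q, hQ, rfl⟩ := Finset.mem_image.1 hR
      exact lq_mono (Finset.le_sup (f := id) hQ)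
    · exact Finset.le_sup (f := id) (Finset.mem_image_of_mem _ h3)

theorem Lin.C_le_stab [Fintype A] (hV : VH p C V) {σ : Finset (Subgroup A)}
    (hσ : σ ∈ Ch (famAll p V)) : C ≤ stab ⊤ σ := by
  obtain ⟨h1, -⟩ := memCh.1 hσ
  intro c hc
  rw [memSt]
  intro Q hQ
  obtain ⟨hQ1, -, -⟩ := mem_famAll.1 (h1 hQ)
  apply Subgroup.centralizer_le_normalizer
  rw [Subgroup.mem_centralizer_iff]
  intro q hq
  exact (Subgroup.mem_centralizer_iff.1 (hV.vc (hQ1 hq)) c hc).symm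

open Classical in
theorem Lin.stab_image [Fact p.Prime] [Fintype A] (h : Lin p C δ ψ X) (hV : VH p C V)
    {σ : Finset (Subgroup A)} (hσ : σ ∈ Ch (famAll p V)) :
    stab ⊤ (σ.image (lq C ψ X)) = Ls ψ (stab ⊤ σ) := by
  obtain ⟨h1, -⟩ := memCh.1 hσ
  ext t
  obtain ⟨x, hx⟩ := exists_rep ψ t
  rw [mem_Ls_of (Lin.C_le_stab hV hσ) hx, memSt, memSt]
  constructor
  · intro h2 Q hQ
    obtain ⟨a1, a2, -⟩ := mem_famAll.1 (h1 hQ)
    exact (h.lq_norm hV a1 a2 hx).1 (h2 _ (Finset.mem_image_of_mem _ hQ))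
  · intro h2 R hR
    obtain ⟨Q, hQ, rfl⟩ := Finset.mem_image.1 hR
    obtain ⟨a1, a2, -⟩ := mem_famAll.1 (h1 hQ)
    exact (h.lq_norm hV a1 a2 hx).2 (h2 Q hQ)

theorem Lin.stF_cS [Fact p.Prime] [IsAlgClosed k] [Fintype A] [Fintype G] (h : Lin p C δ ψ X)
    (hV : VH p C V) {Q : Subgroup A} (hQ : Q ≤ V) (hQp : IsPGroup p Q) {f : MonoidAlgebra k A}
    (hf : InvBy C f) :
    stF C δ ψ X (cS Q f) = cS (lq C ψ X Q) (stF C δ ψ X f) := by
  classical
  have hCQ : C ≤ Subgroup.centralizer (Q : Set A) := by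
    intro c hc
    rw [Subgroup.mem_centralizer_iff]
    intro q hq
    exact (Subgroup.mem_centralizer_iff.1 (hV.vc (hQ hq)) c hc).symm
  have hf' : InvBy C (cS Q f) := by
    intro g hg x
    have hg' := hCQ hg
    by_cases hx : x ∈ Subgroup.centralizer (Q : Set A)
    · have h1 : g * x * g⁻¹ ∈ Subgroup.centralizer (Q : Set A) :=
        mul_mem (mul_mem hg' hx) (inv_mem hg')
      rw [cS, coeff_resS_of_mem _ h1, coeff_resS_of_mem _ hx]
      exact hf g hg x
    · have h1 : g * x * g⁻¹ ∉ Subgroup.centralizer (Q : Set A) := by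
        intro h2
        apply hx
        have h3 := mul_mem (mul_mem (inv_mem hg') h2) hg'
        have h4 : g⁻¹ * (g * x * g⁻¹) * g = x := by group
        rwa [h4] at h3
      rw [cS, coeff_resS_of_notMem _ h1, coeff_resS_of_notMem _ hx]
  ext t
  obtain ⟨x, hx⟩ := exists_rep ψ t
  by_cases hxc : x ∈ Subgroup.centralizer (Q : Set A)
  · have htc := (h.lq_centr hV hQ hQp hx).2 hxc
    rw [show cS (lq C ψ X Q) (stF C δ ψ X f) = resS
      (Subgroup.centralizer (lq C ψ X Q : Set G) : Set G) (stF C δ ψ X f) from rfl,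
      coeff_resS_of_mem _ htc, coeff_stF, coeff_stF]
    congr 1
    refine h.be_eq hf' hx ?_
    intro v
    rw [← h.be_spec hf hx v, opS_apply, opS_apply]
    refine Finset.sum_congr rfl fun c _ => ?_
    rw [cS, coeff_resS_of_mem _ (mul_mem hxc (hCQ c.2) : x * (c : A) ∈ _)]
  · have htc : t ∉ Subgroup.centralizer (lq C ψ X Q : Set G) :=
      fun h1 => hxc ((h.lq_centr hV hQ hQp hx).1 h1)
    rw [show cS (lq C ψ X Q) (stF C δ ψ X f) = resS
      (Subgroup.centralizer (lq C ψ X Q : Set G) : Set G) (stF C δ ψ X f) from rfl,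
      coeff_resS_of_notMem _ htc, coeff_stF]
    have h1 : be C δ ψ X (cS Q f) t = 0 := by
      refine h.be_eq hf' hx ?_
      intro v
      rw [zero_smul, opS_apply]
      refine Finset.sum_eq_zero fun c _ => ?_
      have h2 : x * (c : A) ∉ Subgroup.centralizer (Q : Set A) := by
        intro h3
        apply hxc
        have h4 := mul_mem h3 (inv_mem (hCQ c.2))
        rwa [mul_inv_cancel_right] at h4
      rw [cS, coeff_resS_of_notMem _ h2, zero_smul]
    rw [h1, mul_zero]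

end Pool.Agent.Lib.P0c8ca5.Ii
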