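import Mathlib
import Pool.Agent.Lib.P0c8ca5I.Blk
import Pool.Agent.Lib.P0c8ca5I.Chn
import Pool.Agent.Lib.P0c8ca5G.KrC
import Pool.Agent.Lib.P0c8ca5G.FamAll

/-!
# Module A3: the group `G` of the intertwiners is smaller

All subgroups of `G` are central extensions by p'-groups of sections of `A / Z(A)`, and their central quotients are smaller.
-/

set_option autoImplicit false

namespace Pool.Agent.Lib.P0c8ca5.Ii

open MonoidAlgebra Ps Bq Zz Gg

universe u v

variable {p : ℕ} {k : Type v} [Field k] {A G : Type u} [Group A] [Group G] {C : Subgroup A}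
  [C.Normal] {n : ℕ} {δ : Rp k C n} {ψ : G →* A ⧸ C}
  {X : G → A → ((Fin n → k) ≃ₗ[k] (Fin n → k))} {V : Subgroup A}

theorem Lin.csec [IsAlgClosed k] (h : Lin p C δ ψ X) (hZ : Subgroup.center A ≤ C) :
    Fg.CSec p G (A ⧸ Subgroup.center A) := by
  refine ⟨G ⧸ ψ.ker, inferInstance, QuotientGroup.mk' ψ.ker, QuotientGroup.mk'_surjective _,
    ?_, ?_, ?_⟩
  · rw [QuotientGroup.ker_mk']
    exact h.ker_central
  · rw [QuotientGroup.ker_mk']
    exact h.ker
  · have h1 : IsSection (G ⧸ ψ.ker) ψ.range :=
      IsSection.of_surjective (QuotientGroup.quotientKerEquivRange ψ).symm.toMonoidHom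
        (QuotientGroup.quotientKerEquivRange ψ).symm.surjective
    have h2 : IsSection ψ.range (A ⧸ C) := IsSection.of_subgroup _
    have h3 : IsSection (A ⧸ C) (A ⧸ Subgroup.center A) := by
      refine IsSection.of_surjective
        (QuotientGroup.lift (Subgroup.center A) (QuotientGroup.mk' C) ?_) ?_
      · intro x hx
        exact (QuotientGroup.eq_one_iff x).2 (hZ hx)
      · intro y
        obtain ⟨x, rfl⟩ := QuotientGroup.mk'_surjective C y
        exact ⟨(x : A ⧸ Subgroup.center A), rfl⟩
    exact (h1.trans h2).trans h3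

theorem Lin.index_lt [IsAlgClosed k] [Finite A] [Finite G] (h : Lin p C δ ψ X)
    (hZ : Subgroup.center A ≤ C) (hZC : C ≠ Subgroup.center A) (Y : Subgroup G) :
    (Subgroup.center ↥Y).index < (Subgroup.center A).index := by
  have h1 : (Subgroup.center ↥Y).index ≤ ψ.ker.relIndex Y := by
    apply Nat.le_of_dvd
    · exact Nat.pos_of_ne_zero (Subgroup.index_ne_zero_of_finite (H := ψ.ker.subgroupOf Y))
    · apply Subgroup.index_dvd_of_le
      intro z hz
      rw [Subgroup.mem_subgroupOf] at hz
      exact Fg.CsAux.subgroupOf_center_le Y (Subgroup.mem_subgroupOf.2 (h.ker_central hz))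
  have h2 : ψ.ker.relIndex Y ≤ ψ.ker.index := by
    rw [← Subgroup.relIndex_top_right ψ.ker]
    exact Subgroup.relIndex_le_of_le_right le_top (by
      rw [Subgroup.relIndex_top_right]
      exact Subgroup.index_ne_zero_of_finite)
  have h3 : ψ.ker.index ≤ C.index := by
    rw [Subgroup.index_ker]
    exact Nat.card_le_card_of_injective (fun x : ψ.range => (x : A ⧸ C)) Subtype.val_injective
  have h4 : C.index < (Subgroup.center A).index := by
    rw [← Subgroup.relIndex_mul_index hZ]
    have h5 : (Subgroup.center A).relIndex C ≠ 1 := by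
      intro h6
      exact hZC (le_antisymm (Subgroup.relIndex_eq_one.1 h6) hZ)
    have h6 : (Subgroup.center A).relIndex C ≠ 0 :=
      Subgroup.index_ne_zero_of_finite (H := (Subgroup.center A).subgroupOf C)
    have h7 : C.index ≠ 0 := Subgroup.index_ne_zero_of_finite
    have h8 : 2 ≤ (Subgroup.center A).relIndex C := by omega
    have h9 : 0 < C.index := Nat.pos_of_ne_zero h7
    nlinarith
  omega

theorem card_irX_zero {H : Type*} [Group H] [Finite H] (L : Subgroup H) :
    Nat.card (IrX L (0 : MonoidAlgebra k H)) = 0 := by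
  have : Fintype L := Fintype.ofFinite _
  rw [Nat.card_eq_zero]
  left
  constructor
  intro c
  induction c using Quotient.inductionOn with
  | _ γ =>
  have h1 := act_iff.2 γ.blk
  have := (irr_iff.1 γ.irr).nontriv
  obtain ⟨v, hv⟩ := exists_ne (0 : Fin γ.n → k)
  apply hv
  have h2 := LinearMap.congr_fun h1 v
  rw [act_apply] at h2
  simp only [coeff_zero, Finsupp.coe_zero, Pi.zero_apply, zero_smul,
    Finset.sum_const_zero] at h2
  exact h2.symm

theorem bl_of_zero {H : Type*} [Group H] [Fintype H] (L : Subgroup H)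
    (D : Finset (Subgroup H)) : Bl L D (0 : MonoidAlgebra k H) = 0 := by
  unfold Bl
  refine Finset.sum_eq_zero (fun σ _ => ?_)
  have h1 : cS (σ.sup id) (0 : MonoidAlgebra k H) = 0 := resS_zero _
  rw [h1, card_irX_zero, mul_zero, Nat.cast_zero, mul_zero]

end Pool.Agent.Lib.P0c8ca5.Ii
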