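import Mathlib
import Pool.Agent.Lib.P0c8ca5I.A3
import Pool.Agent.Lib.P0c8ca5G.BelowP

/-!
# Module A3P: the alternating sum in the group `G` of the intertwiners vanishes, with control of the defect groups
-/

set_option autoImplicit false

namespace Pool.Agent.Lib.P0c8ca5.Ii

open MonoidAlgebra Ps Bq Zz Gg

universe u v

variable {p : ℕ} {k : Type v} [Field k] {A G : Type u} [Group A] [Group G] {C : Subgroup A}
  [C.Normal] {n : ℕ} {δ : Rp k C n} {ψ : G →* A ⧸ C}
  {X : G → A → ((Fin n → k) ≃ₗ[k] (Fin n → k))} {V : Subgroup A}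

/-- the subgroups of `G` are central extensions of sections of `A / Z(A)`, with control of the p-subgroups -/
theorem Lin.ov [IsAlgClosed k] (h : Lin p C δ ψ X) (hZ : Subgroup.center A ≤ C)
    {Y : Subgroup G} {P' : Subgroup ↥Y} {P : Subgroup A}
    (hP : (P'.map Y.subtype).map ψ ≤ P.map (QuotientGroup.mk' C)) : Ov p P P' := by
  let π : ↥Y →* ↥(Y.map ψ) := ψ.subgroupMap Y
  have hk : ∀ x : ↥Y, x ∈ π.ker ↔ ψ (x : G) = 1 := by
    intro x
    rw [MonoidHom.mem_ker]
    constructor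
    · intro h
      exact congrArg Subtype.val h
    · intro h
      exact Subtype.ext h
  let q : A ⧸ Subgroup.center A →* A ⧸ C :=
    QuotientGroup.lift (Subgroup.center A) (QuotientGroup.mk' C) (by
      intro x hx
      exact (QuotientGroup.eq_one_iff x).2 (hZ hx))
  let K : Subgroup (A ⧸ Subgroup.center A) := (Y.map ψ).comap q
  let f : K →* ↥(Y.map ψ) := (q.comp K.subtype).codRestrict (Y.map ψ) (fun x => x.2)
  refine ⟨_, inferInstance, π, MonoidHom.subgroupMap_surjective _ Y, ?_, ?_, K, f, ?_, ?_⟩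
  · intro x hx
    rw [hk] at hx
    rw [Subgroup.mem_center_iff]
    intro y
    exact Subtype.ext (Subgroup.mem_center_iff.1 (h.ker_central hx) y)
  · intro hd
    apply h.ker
    refine hd.trans ?_
    have h1 : (π.ker).map Y.subtype ≤ ψ.ker := by
      rintro _ ⟨x, hx, rfl⟩
      exact (hk x).1 hx
    have h2 : Nat.card ↥((π.ker).map Y.subtype) = Nat.card π.ker :=
      (Nat.card_congr ((π.ker).equivMapOfInjective _ Y.subtype_injective).toEquiv).symm
    rw [← h2]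
    exact Subgroup.card_dvd_of_le h1
  · rintro ⟨_, t, ht, rfl⟩
    obtain ⟨x, hx⟩ := exists_rep ψ t
    have h1 : q (x : A ⧸ Subgroup.center A) = ψ t := by
      rw [hx]
      rfl
    refine ⟨⟨(x : A ⧸ Subgroup.center A), ?_⟩, Subtype.ext h1⟩
    change q (x : A ⧸ Subgroup.center A) ∈ Y.map ψ
    rw [h1]
    exact ⟨t, ht, rfl⟩
  · rintro _ ⟨t, ht, rfl⟩
    obtain ⟨x, hx, hx1⟩ := hP ⟨(t : G), ⟨t, ht, rfl⟩, rfl⟩
    have h1 : q (x : A ⧸ Subgroup.center A) = ψ (t : G) := by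
      rw [← hx1]
      rfl
    have h2 : (x : A ⧸ Subgroup.center A) ∈ K := by
      change q (x : A ⧸ Subgroup.center A) ∈ Y.map ψ
      rw [h1]
      exact ⟨(t : G), t.2, rfl⟩
    refine ⟨⟨(x : A ⧸ Subgroup.center A), h2⟩, ?_, Subtype.ext h1⟩
    rw [SetLike.mem_coe, Subgroup.mem_subgroupOf]
    exact ⟨x, hx, rfl⟩

/-- the weight equality for the subgroups of `G` and the idempotents under `stF b` -/
theorem Lin.weqP [Fact p.Prime] [CharP k p] [IsAlgClosed k] [Finite A] [Fintype G]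
    (h : Lin p C δ ψ X) (hZ : Subgroup.center A ≤ C) (hZC : C ≠ Subgroup.center A)
    {b : MonoidAlgebra k A} (below : BelowP p k A b)
    (lift : ∀ P' : Subgroup G, IsPGroup p P' → HasBr P' (stF C δ ψ X b) →
      ∃ P : Subgroup A, IsPGroup p P ∧ HasBr P b ∧ P'.map ψ ≤ P.map (QuotientGroup.mk' C))
    {Y : Subgroup G} {f : MonoidAlgebra k G} (hf : f ∈ fixAlg k Y Y) (hff : f * f = f)
    (hbr : ∀ P : Subgroup G, P ≤ Y → IsPGroup p P → HasBr P f → HasBr P (stF C δ ψ X b)) :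
    Cy.WEq p Y f := by
  obtain ⟨hs, hi⟩ := mem_fixAlg.1 hf
  refine Cy.weq_of_blocks hs hi hff (fun e he hef => ?_)
  apply navarro_transport he
  refine below ↥Y (h.index_lt hZ hZC Y) _ (dn_isBlock he) ?_
  intro P' hP' hbr'
  have hPY : P'.map Y.subtype ≤ Y := by
    rintro _ ⟨y, _, rfl⟩
    exact y.2
  have hcomm : f * e = e * f := commute_of hs he.invBy
  have hmul : e * f = e := by
    rcases he.mul_eq hf hff with h1 | h1
    · rw [hcomm] at h1; exact absurd h1 hef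
    · rw [← hcomm]; exact h1
  obtain ⟨P, hP, hPb, hPle⟩ := lift _ (hP'.map _) (hbr _ hPY (hP'.map _)
    (hasBr_of_mul (hP'.map _) (he.invBy.mono hPY) (hi.mono hPY) hmul (RedAux.hasBr_up' hbr')))
  exact ⟨P, hP, hPb, h.ov hZ hPle⟩

theorem Lin.bl_zeroP [Fact p.Prime] [CharP k p] [IsAlgClosed k] [Fintype A] [Fintype G]
    (h : Lin p C δ ψ X) (hV : VH p C V) {c b : MonoidAlgebra k A} (blk : IsBlock ⊤ b)
    (cblk : IsBlock V c) (cinv : InvBy ⊤ c) (cb : c * b = b)
    (br : ∃ P : Subgroup A, P ≤ V ∧ IsPGroup p P ∧ P ≠ ⊥ ∧ HasBr P c)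
    (below : BelowP p k A b) (hZ : Subgroup.center A ≤ C) (hZC : C ≠ Subgroup.center A)
    (lift : ∀ P' : Subgroup G, IsPGroup p P' → HasBr P' (stF C δ ψ X b) →
      ∃ P : Subgroup A, IsPGroup p P ∧ HasBr P b ∧ P'.map ψ ≤ P.map (QuotientGroup.mk' C)) :
    Bl ⊤ (famAll p (Ls ψ V)) (stF C δ ψ X b) = 0 := by
  classical
  have hbi : InvBy ⊤ b := (mem_fixAlg.1 blk.mem).2
  have hbC : InvBy C b := hbi.mono le_top
  have hcC : InvBy C c := cinv.mono le_top
  have hmul : stF C δ ψ X c * stF C δ ψ X b = stF C δ ψ X b := by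
    rw [← h.stF_mul hcC hbC, cb]
  by_cases h0 : stF C δ ψ X c = 0
  · rw [h0, zero_mul] at hmul
    rw [← hmul]
    exact bl_of_zero _ _
  have htop : Ls ψ (⊤ : Subgroup A) = ⊤ := by
    rw [eq_top_iff]
    intro t _
    obtain ⟨x, hx⟩ := exists_rep ψ t
    exact mem_Ls.2 ⟨x, Subgroup.mem_top x, hx⟩
  have hbi' : InvBy ⊤ (stF C δ ψ X b) := by
    have h1 := h.stF_inv (L := ⊤) le_top hbi
    rwa [htop] at h1
  have hci' : InvBy ⊤ (stF C δ ψ X c) := by
    have h1 := h.stF_inv (L := ⊤) le_top cinv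
    rwa [htop] at h1
  have hbf : stF C δ ψ X b ∈ fixAlg k (⊤ : Subgroup G) ⊤ :=
    mem_fixAlg.2 ⟨fun x _ => Subgroup.mem_top x, hbi'⟩
  have hbb : stF C δ ψ X b * stF C δ ψ X b = stF C δ ψ X b := by
    rw [← h.stF_mul hbC hbC, blk.idem]
  have hcb := (h.stF_blk hV cblk).resolve_left h0
  obtain ⟨P, hPV, hPp, hP1, hbr⟩ := br
  have hn : (⊤ : Subgroup G) ≤ Subgroup.normalizer (Ls ψ V : Set G) := by
    have h1 : (Ls ψ V).Normal := by
      have h2 : (V.map (QuotientGroup.mk' C)).Normal :=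
        hV.nrm.map _ (QuotientGroup.mk'_surjective C)
      exact h2.comap ψ
    intro t _
    exact mem_norm_of_normal _ t
  have hD : Fam p ⊤ (Ls ψ V) (famAll p (Ls ψ V)) := famAll_fam hn
  have hmain := hD.bl_eq le_top hn hcb hci' (lq_le_Ls (ψ := ψ) (X := X) hPV)
    (h.lq_pgroup (hPV.trans hV.vc) hPp) (h.lq_ne hV hPV hPp hP1)
    (h.stF_hasBr hV cblk h0 hPV hPp hbr) hbf hmul ?_
  · rw [← hmain]
    have h1 := h.weqP hZ hZC below lift hbf hbb (fun P _ _ h2 => h2)
    unfold Cy.WEq at h1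
    rw [h1, sub_self]
  · intro σ hσ hne
    obtain ⟨hσD, hch⟩ := InvAux.mem_Ch.1 hσ
    have hSσ : σ.sup id ∈ σ := sup_mem_chain hne hch
    have hctx : Ctx p ⊤ (stab ⊤ σ) (σ.sup id) (stF C δ ψ X b) :=
      { hHX := le_top
        hS := hD.pgrp _ (hσD hSσ)
        hHS := fun x hx => (mem_stab.1 hx).2 _ hSσ
        hCS := by
          intro x hx
          rw [mem_stab]
          refine ⟨hx.1, fun R hR => ?_⟩
          have hRS : R ≤ σ.sup id := Finset.le_sup (f := id) hR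
          exact Subgroup.centralizer_le_normalizer _ (Subgroup.centralizer_le hRS hx.2)
        supp := fun x _ => Subgroup.mem_top x
        inv := hbi' }
    exact h.weqP hZ hZC below lift (mem_fixAlg.2 ⟨hctx.cS_supp, hctx.cS_inv⟩)
      (hctx.cS_idem le_top hbb) (fun P _ _ h2 => hasBr_cS h2)

end Pool.Agent.Lib.P0c8ca5.Ii
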