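import Mathlib
import Pool.Agent.Lib.P0c8ca5I.Defs
import Pool.Agent.Lib.P0c8ca5C.CorrC

/-!
# Module Clf: the Clifford correspondence for a central element `f` of the group algebra of `H`

This is `Cy.clifford` (P0c8ca5C.CorrC) with `f ∈ Z(kH)` in place of `f ∈ kN`; the proof is the same (`card_of_rel`, `exists_sub`,
`exists_sup`, `SubT.iso`, `sup_iso`, `congr_left`, `congr_right`), except for the two places where `over_blk` is used there.

PROOF of `act_f_iff`.  Let `Cliff N T H δ ε` and `SubT hTH ε γ τ θ`, `γ`, `τ` irreducible.  `act γ f` commutes with all `γ x` (`act_comm`, `f`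
is `H`-invariant), so it is a scalar `s` (Schur: `Gg.OmAAux.schur_end`, P0c8ca5G.OmA); in the same way `act τ (resS T f) = s'`.
For `w` in the space of `τ`: `θ w` lies in the range of `act γ ε`, so `act γ ε (θ w) = θ w`, and by `CorrAAux.zero_T`, `comm_T`
`s θ w = act γ ε (act γ f (θ w)) = ∑ f(x) act γ ε (γ x (θ w))`, sum over `x ∈ H`, `= ∑ f(x) γ x (θ w)`, sum over `x ∈ T`,
`= θ (act τ (resS T f) w) = s' θ w`.  So `s = s'` and `act γ f = 1 ↔ act τ (resS T f) = 1`.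
-/

set_option autoImplicit false

namespace Pool.Agent.Lib.P0c8ca5.Ii

open MonoidAlgebra Ps Bq Zz Gg Cy

variable {p : ℕ} {k : Type*} [Field k] {A : Type*} [Group A]

namespace ClfAux

theorem invBy_resS {T H : Subgroup A} (hTH : T ≤ H) {f : MonoidAlgebra k A} (hfi : InvBy H f) :
    InvBy T (resS (T : Set A) f) := by
  intro g hg x
  by_cases hx : x ∈ (T : Set A)
  · have h1 : g * x * g⁻¹ ∈ (T : Set A) := T.mul_mem (T.mul_mem hg hx) (T.inv_mem hg)
    rw [coeff_resS_of_mem _ hx, coeff_resS_of_mem _ h1]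
    exact hfi g (hTH hg) x
  · have h1 : g * x * g⁻¹ ∉ (T : Set A) := by
      intro h2
      apply hx
      have h3 : g⁻¹ * (g * x * g⁻¹) * g ∈ T := T.mul_mem (T.mul_mem (T.inv_mem hg) h2) hg
      have h4 : g⁻¹ * (g * x * g⁻¹) * g = x := by group
      rw [h4] at h3
      exact h3
    rw [coeff_resS_of_notMem _ hx, coeff_resS_of_notMem _ h1]

theorem scal_iff {G : Type*} [Group G] {V : Type*} [AddCommGroup V] [Module k V]
    [Nontrivial V] {Φ : V →ₗ[k] V} {s : k} (hs : ∀ v, Φ v = s • v) : Φ = 1 ↔ s = 1 := by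
  constructor
  · intro h
    obtain ⟨v, hv⟩ := exists_ne (0 : V)
    have h1 := hs v
    rw [h, Module.End.one_apply] at h1
    have h2 : (1 : k) • v = s • v := by rw [one_smul]; exact h1
    exact (smul_left_injective k hv h2).symm
  · rintro rfl
    apply LinearMap.ext
    intro v
    rw [hs, one_smul]
    rfl

theorem act_f_iff [IsAlgClosed k] [Finite A] {N T H : Subgroup A} {n m l : ℕ} {δ : Rp k N n}
    {ε f : MonoidAlgebra k A} (h : Cliff N T H δ ε) (hfi : InvBy H f) {γ : Rp k H m}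
    (hγ : Irr' γ) {τ : Rp k T l} (hτ : Irr' τ) {θ : (Fin l → k) →ₗ[k] (Fin m → k)}
    (hS : SubT h.hTH ε γ τ θ) : act γ f = 1 ↔ act τ (resS (T : Set A) f) = 1 := by
  classical
  have : Fintype H := Fintype.ofFinite H
  have : Fintype T := Fintype.ofFinite T
  obtain ⟨s, hs⟩ := OmAAux.schur_end hγ (act γ f) (act_comm γ hfi)
  obtain ⟨s', hs'⟩ := OmAAux.schur_end hτ (act τ (resS (T : Set A) f))
    (act_comm τ (invBy_resS h.hTH hfi))
  have hn1 := hγ.nontriv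
  have hn2 := hτ.nontriv
  have key : ∀ w, s • θ w = s' • θ w := by
    intro w
    have hw : θ w ∈ LinearMap.range (act γ ε) := by
      rw [← hS.range]
      exact LinearMap.mem_range_self θ w
    have hfix : act γ ε (θ w) = θ w := CorrAAux.fix_range h hγ hw
    have h1 : act γ ε (act γ f (θ w)) = s • θ w := by
      rw [hs, map_smul, hfix]
    have h2 : act γ ε (act γ f (θ w)) = ∑ t : T, f.coeff (t : A) •
        γ (Subgroup.inclusion h.hTH t) (θ w) := by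
      rw [act_apply γ f, map_sum]
      symm
      apply Fintype.sum_of_injective (fun t : T => Subgroup.inclusion h.hTH t)
        (Subgroup.inclusion_injective h.hTH)
      · intro x hx
        have hxT : (x : A) ∉ T := fun hx1 => hx ⟨⟨x, hx1⟩, rfl⟩
        rw [map_smul, ← hfix, CorrAAux.zero_T h hγ x hxT, smul_zero]
      · intro t
        rw [map_smul, CorrAAux.comm_T h hγ _ t.2, hfix]
        rfl
    have h3 : θ (act τ (resS (T : Set A) f) w) = ∑ t : T, f.coeff (t : A) •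
        γ (Subgroup.inclusion h.hTH t) (θ w) := by
      rw [act_apply τ, map_sum]
      refine Finset.sum_congr rfl (fun t _ => ?_)
      rw [map_smul, hS.eqv, coeff_resS_of_mem _ t.2]
    rw [hs' w, map_smul] at h3
    rw [← h1, h2, ← h3]
  have hss : s = s' := by
    obtain ⟨w, hw⟩ := exists_ne (0 : Fin l → k)
    have hw2 : θ w ≠ 0 := by
      intro h0
      exact hw (hS.inj (h0.trans (map_zero θ).symm))
    exact smul_left_injective k hw2 (key w)
  rw [scal_iff (G := H) hs, scal_iff (G := T) hs', hss]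

end ClfAux

/-- the Clifford correspondence -/
theorem clifford_f [IsAlgClosed k] [Finite A] {N T H : Subgroup A} (hNT : N ≤ T) (hTH : T ≤ H)
    (hn : H ≤ Subgroup.normalizer (N : Set A)) {f : MonoidAlgebra k A} (hf : SuppIn H f)
    (hfi : InvBy H f) {n : ℕ} {δ : Rp k N n} (hδ : Irr' δ)
    (hT : ∀ (h : A) (hh : h ∈ H), h ∈ T ↔ Iso (tw (hn hh) δ) δ) :
    Nat.card ↥(OvSet (hNT.trans hTH) f δ)
      = Nat.card ↥(OvSet hNT (resS (T : Set A) f) δ) := by
  obtain ⟨ε, hε⟩ := exists_eps hδ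
  have h : Cliff N T H δ ε := ⟨hNT, hTH, hn, hT, hδ, hε⟩
  refine Fr.FrEAux.card_of_rel (fun x y => ∃ (γ : IrrInv H ⊥ f)
    (τ : IrrInv T ⊥ (resS (T : Set A) f))
    (θ : (Fin τ.n → k) →ₗ[k] (Fin γ.n → k)), (⟦γ⟧ : IrX H f) = x.1 ∧
      (⟦τ⟧ : IrX T (resS (T : Set A) f)) = y.1 ∧ SubT hTH ε γ.ρ τ.ρ θ) ?_ ?_ ?_ ?_
  · rintro ⟨x, γ, hγ, ho⟩
    obtain ⟨l, τ, θ, h1, h2, h3⟩ := h.exists_sub (irr_iff.1 γ.irr) ho
    have h4 : act τ (resS (T : Set A) f) = 1 :=
      (ClfAux.act_f_iff h hfi (irr_iff.1 γ.irr) h1 h3).1 (act_iff.2 γ.blk)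
    exact ⟨⟨(⟦mkIrr τ h1 h4⟧ : IrX T (resS (T : Set A) f)), mkIrr τ h1 h4, rfl, h2⟩, γ,
      mkIrr τ h1 h4, θ, hγ, rfl, h3⟩
  · rintro ⟨y, τ, hτ, ho⟩
    obtain ⟨m, γ, θ, h1, h2, h3⟩ := h.exists_sup (irr_iff.1 τ.irr) ho
    have h4 : act γ f = 1 :=
      (ClfAux.act_f_iff h hfi h1 (irr_iff.1 τ.irr) h3).2 (act_iff.2 τ.blk)
    exact ⟨⟨(⟦mkIrr γ h1 h4⟧ : IrX H f), mkIrr γ h1 h4, rfl, h2⟩, mkIrr γ h1 h4, τ, θ, rfl, hτ, h3⟩
  · rintro x y y' ⟨γ, τ, θ, h1, h2, h3⟩ ⟨γ', τ', θ', h1', h2', h3'⟩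
    obtain ⟨θ₁, h4⟩ := CorrCAux.congr_left (mk_eq_mk.1 (h1'.trans h1.symm)) h3'
    apply Subtype.ext
    rw [← h2, ← h2']
    exact mk_eq_mk.2 (h3.iso h4)
  · rintro x x' y ⟨γ, τ, θ, h1, h2, h3⟩ ⟨γ', τ', θ', h1', h2', h3'⟩
    obtain ⟨θ₁, h4⟩ := CorrCAux.congr_right (mk_eq_mk.1 (h2'.trans h2.symm)) h3'
    apply Subtype.ext
    rw [← h1, ← h1']
    exact mk_eq_mk.2 (h.sup_iso (irr_iff.1 τ.irr) (irr_iff.1 γ.irr) (irr_iff.1 γ'.irr) h3 h4)

end Pool.Agent.Lib.P0c8ca5.Ii
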