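import Mathlib
import Pool.Agent.Lib.P0c8ca5I.Defs

/-!
# Module Ex: the group of the intertwiners exists

PROOF of `exists_lin`.  `n ≥ 1` as `δ` is irreducible; `N := Nat.card A`.
(1) `T̂` is the subgroup of `A × ((Fin n → k) ≃ₗ[k] (Fin n → k))` (product of groups; the multiplication of linear
equivalences is composition, `LinearEquiv.automorphismGroup`) of the pairs `(x, Y)` with `Itw C δ x Y` and `det Y ^ N = 1`
(`LinearEquiv.det` or `LinearMap.det (Y : _ →ₗ[k] _) ^ N = 1`); closed under multiplication and inverse by `Itw.mul`,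
`Itw.inv` (P0c8ca5G.OmA; `mem_norm_of_normal C x`).
(2) `T̂` is finite: the fibres of `T̂ → A` are finite, since two elements `(x, Y)`, `(x, Y')` satisfy `Y' = s Y` (`Itw.unique`)
with `s ^ (n * N) = 1` (`LinearMap.det_smul`), and the polynomial `X ^ (n * N) - 1` has finitely many roots.
(3) `C₁ := {(c, δ c) | c ∈ C}` is contained in `T̂` (`δ c` is invertible with `(δ c) ^ N = 1`, so `det (δ c) ^ N = 1`;
`itw_of_mem`) and it is a normal subgroup of `T̂`: `(x, Y) (c, δ c) (x, Y)⁻¹ = (x c x⁻¹, Y δ(c) Y⁻¹)`, and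
`Y δ(c) Y⁻¹ = δ(x c x⁻¹)` by `Itw`.
(4) `G := Shrink.{u} (T̂ ⧸ C₁)` (finite, so small; the group structure by `Shrink.instGroup` or transport along `equivShrink`,
`Equiv.group`), `ψ` the class of `(x, Y)` to `x C`; `X t x :=` the `Y` with `(x, Y) ∈ T̂` in the class `t` if there is one, the
identity otherwise.  This `Y` is unique: `(x, Y)⁻¹ (x, Y') = (1, Y⁻¹ Y') ∈ C₁` gives `Y⁻¹ Y' = δ 1 = 1`.  If `ψ t = x C` and
`t` is the class of `(x', Y')` then `x = x' c` with `c ∈ C`, and `(x, Y' δ(c))` is in the class `t`, so it exists.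
(5) The fields: `itw`, `mul`, `res` (`1` is the class of `(c, δ c)`) directly; `onto`: for `Itw C δ x Y` there is `s ≠ 0` with
`s ^ (n * N) * det Y ^ N = 1` (`IsAlgClosed.exists_pow_nat_eq`), and `(x, s Y) ∈ T̂` (`Itw.smul`); `inj`: if `ψ t = 1` and
`X t 1 = 1` then `t` is the class of `(1, 1)`; `cen`: for `v` in the centralizer of `C` `(v, 1) ∈ T̂`.
`ker`: if `p` divides `card ψ.ker` then there is `t ∈ ψ.ker` of order `p` (`exists_prime_orderOf_dvd_card'`); `X t 1` is a scalar `s`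
(`Itw.unique` with `itw_one`), `X (t ^ p) 1 = s ^ p` and `t ^ p = 1`, so `s ^ p = 1`, so `s = 1` in characteristic `p`
(`(s - 1) ^ p = 0`), so `t = 1`.
-/

set_option autoImplicit false

namespace Pool.Agent.Lib.P0c8ca5.Ii

open MonoidAlgebra Ps Bq Zz Gg

universe u v

namespace ExAux

variable {p : ℕ} {k : Type v} [Field k] {A : Type u} [Group A]

/-- the group of the pairs `(x, Y)` -/
def Th (C : Subgroup A) [C.Normal] {n : ℕ} (δ : Rp k C n) (N : ℕ) :
    Subgroup (A × ((Fin n → k) ≃ₗ[k] (Fin n → k))) where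
  carrier := {q | Itw C δ q.1 q.2 ∧ LinearEquiv.det q.2 ^ N = 1}
  one_mem' := by
    refine ⟨itw_one, ?_⟩
    show LinearEquiv.det (1 : (Fin n → k) ≃ₗ[k] (Fin n → k)) ^ N = 1
    rw [map_one, one_pow]
  mul_mem' := by
    rintro ⟨x, X⟩ ⟨y, Y⟩ ⟨h1, h2⟩ ⟨h3, h4⟩
    refine ⟨h1.mul (mem_norm_of_normal C x) (mem_norm_of_normal C y) h3, ?_⟩
    show LinearEquiv.det (X * Y) ^ N = 1
    rw [map_mul, mul_pow, h2, h4, one_mul]
  inv_mem' := by
    rintro ⟨x, X⟩ ⟨h1, h2⟩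
    refine ⟨h1.inv (mem_norm_of_normal C x), ?_⟩
    show LinearEquiv.det (X⁻¹) ^ N = 1
    rw [map_inv, inv_pow, h2, inv_one]

variable {C : Subgroup A} [C.Normal] {n : ℕ} {δ : Rp k C n} {N : ℕ}

theorem mem_Th {x : A} {Y : (Fin n → k) ≃ₗ[k] (Fin n → k)} :
    (x, Y) ∈ Th C δ N ↔ Itw C δ x Y ∧ LinearEquiv.det Y ^ N = 1 := Iff.rfl

/-- the subgroup of the pairs `(c, δ c)` -/
def Cs (C : Subgroup A) [C.Normal] {n : ℕ} (δ : Rp k C n) (N : ℕ) : Subgroup (Th C δ N) where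
  carrier := {q | ∃ h : q.1.1 ∈ C, ∀ v, q.1.2 v = δ ⟨q.1.1, h⟩ v}
  one_mem' := by
    refine ⟨C.one_mem, fun v => ?_⟩
    have h1 : (⟨(1 : A), C.one_mem⟩ : C) = 1 := rfl
    show v = δ ⟨(1 : A), C.one_mem⟩ v
    rw [h1, map_one, Module.End.one_apply]
  mul_mem' := by
    rintro ⟨⟨x, X⟩, hX⟩ ⟨⟨y, Y⟩, hY⟩ ⟨h1, h2⟩ ⟨h3, h4⟩
    refine ⟨C.mul_mem h1 h3, fun v => ?_⟩
    have h5 : (⟨x * y, C.mul_mem h1 h3⟩ : C) = ⟨x, h1⟩ * ⟨y, h3⟩ := rfl
    show X (Y v) = δ ⟨x * y, C.mul_mem h1 h3⟩ v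
    rw [h5, map_mul, Module.End.mul_apply, ← h4 v]
    exact h2 (Y v)
  inv_mem' := by
    rintro ⟨⟨x, X⟩, hX⟩ ⟨h1, h2⟩
    refine ⟨C.inv_mem h1, fun v => ?_⟩
    have h5 : (⟨x⁻¹, C.inv_mem h1⟩ : C) = (⟨x, h1⟩ : C)⁻¹ := rfl
    show X.symm v = δ ⟨x⁻¹, C.inv_mem h1⟩ v
    apply X.injective
    rw [LinearEquiv.apply_symm_apply, h5]
    have h6 := h2 (δ (⟨x, h1⟩ : C)⁻¹ v)
    have h7 : X (δ (⟨x, h1⟩ : C)⁻¹ v) = δ ⟨x, h1⟩ (δ (⟨x, h1⟩ : C)⁻¹ v) := h6
    rw [h7, ← Module.End.mul_apply, ← map_mul, mul_inv_cancel, map_one, Module.End.one_apply]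

theorem mem_Cs {q : Th C δ N} :
    q ∈ Cs C δ N ↔ ∃ h : q.1.1 ∈ C, ∀ v, q.1.2 v = δ ⟨q.1.1, h⟩ v := Iff.rfl

instance : (Cs C δ N).Normal := by
  constructor
  rintro ⟨⟨c, Z⟩, hZ⟩ ⟨h1, h2⟩ ⟨⟨x, X⟩, hX⟩
  have hxc : x * c * x⁻¹ ∈ C := (inferInstance : C.Normal).conj_mem c h1 x
  refine ⟨hxc, fun v => ?_⟩
  show X (Z (X.symm v)) = δ ⟨x * c * x⁻¹, hxc⟩ v
  have h3 : Z (X.symm v) = δ ⟨c, h1⟩ (X.symm v) := h2 _
  rw [h3, (mem_Th.1 hX).1 ⟨c, h1⟩ ⟨x * c * x⁻¹, hxc⟩ rfl, LinearEquiv.apply_symm_apply]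

/-- the map to `A / C` -/
def ps (C : Subgroup A) [C.Normal] {n : ℕ} (δ : Rp k C n) (N : ℕ) :
    (Th C δ N ⧸ Cs C δ N) →* A ⧸ C :=
  QuotientGroup.lift (Cs C δ N)
    ((QuotientGroup.mk' C).comp ((MonoidHom.fst _ _).comp (Th C δ N).subtype)) (by
      rintro ⟨⟨x, X⟩, hX⟩ ⟨h1, h2⟩
      exact (QuotientGroup.eq_one_iff _).2 h1)

theorem ps_mk (q : Th C δ N) :
    ps C δ N (q : Th C δ N ⧸ Cs C δ N) = (q.1.1 : A ⧸ C) := rfl

open Classical in
/-- the intertwiner of `x` in the class `t` -/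
noncomputable def Xx (C : Subgroup A) [C.Normal] {n : ℕ} (δ : Rp k C n) (N : ℕ)
    (t : Th C δ N ⧸ Cs C δ N) (x : A) : (Fin n → k) ≃ₗ[k] (Fin n → k) :=
  if h : ∃ q : Th C δ N, q.1.1 = x ∧ (q : Th C δ N ⧸ Cs C δ N) = t then h.choose.1.2
  else LinearEquiv.refl k _

theorem Xx_mk (q : Th C δ N) : Xx C δ N (q : Th C δ N ⧸ Cs C δ N) q.1.1 = q.1.2 := by
  have h : ∃ r : Th C δ N, r.1.1 = q.1.1 ∧
      (r : Th C δ N ⧸ Cs C δ N) = (q : Th C δ N ⧸ Cs C δ N) := ⟨q, rfl, rfl⟩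
  rw [Xx, dif_pos h]
  obtain ⟨h1, h2⟩ := h.choose_spec
  generalize h.choose = r at h1 h2 ⊢
  obtain ⟨⟨x, X⟩, hX⟩ := q
  obtain ⟨⟨y, Y⟩, hY⟩ := r
  have h1' : y = x := h1
  subst h1'
  rw [QuotientGroup.eq] at h2
  obtain ⟨h3, h4⟩ := h2
  show Y = X
  apply LinearEquiv.ext
  intro v
  have h5 : Y.symm (X v) = δ ⟨y⁻¹ * y, h3⟩ v := h4 v
  have h6 : (⟨y⁻¹ * y, h3⟩ : C) = 1 := Subtype.ext (inv_mul_cancel y)
  rw [h6, map_one, Module.End.one_apply] at h5
  rw [← h5, LinearEquiv.apply_symm_apply, h5]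

theorem mem_Th_of_mem [Finite A] {c : A} (hc : c ∈ C) :
    ∃ q : Th C δ (Nat.card A), q.1.1 = c ∧ (∀ v, q.1.2 v = δ ⟨c, hc⟩ v) ∧ q ∈ Cs C δ _ := by
  obtain ⟨X, hX, hv⟩ := itw_of_mem (ρ := δ) hc
  have h1 : X ^ Nat.card A = 1 := by
    have h2 : ∀ m : ℕ, ∀ v, (X ^ m) v = δ (⟨c, hc⟩ ^ m) v := by
      intro m
      induction m with
      | zero =>
        intro v
        rw [pow_zero, pow_zero, map_one]
        rfl
      | succ m ih =>
        intro v
        rw [pow_succ, pow_succ, map_mul, Module.End.mul_apply, ← hv v, ← ih]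
        rfl
    apply LinearEquiv.ext
    intro v
    rw [h2]
    have h3 : (⟨c, hc⟩ : C) ^ Nat.card A = 1 := Subtype.ext (by
      show c ^ Nat.card A = 1
      exact pow_card_eq_one')
    rw [h3, map_one]
    rfl
  refine ⟨⟨(c, X), mem_Th.2 ⟨hX, ?_⟩⟩, rfl, hv, hc, hv⟩
  rw [← map_pow, h1, map_one]

/-- every `x` over `ψ t` has an element over it -/
theorem exists_q [Finite A] (t : Th C δ (Nat.card A) ⧸ Cs C δ (Nat.card A)) (x : A)
    (h : ps C δ (Nat.card A) t = (x : A ⧸ C)) :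
    ∃ q : Th C δ (Nat.card A), (q : Th C δ (Nat.card A) ⧸ Cs C δ (Nat.card A)) = t ∧
      q.1.1 = x := by
  obtain ⟨r, rfl⟩ := QuotientGroup.mk_surjective t
  rw [ps_mk, QuotientGroup.eq] at h
  obtain ⟨q, hq1, hq2, hq3⟩ := mem_Th_of_mem (δ := δ) h
  refine ⟨r * q, ?_, ?_⟩
  · rw [QuotientGroup.eq]
    have : (r * q)⁻¹ * r = q⁻¹ := by group
    rw [this]
    exact inv_mem hq3
  · show r.1.1 * q.1.1 = x
    rw [hq1]
    group

omit [C.Normal] in
theorem npos (hδ : Irr' δ) : n ≠ 0 := by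
  rintro rfl
  have := hδ.nontriv
  exact not_subsingleton (Fin 0 → k) inferInstance

theorem det_scalar (c : k) (X X' : (Fin n → k) ≃ₗ[k] (Fin n → k)) (h : ∀ v, X' v = c • X v) :
    (LinearEquiv.det X' : k) = c ^ n * (LinearEquiv.det X : k) := by
  rw [LinearEquiv.coe_det, LinearEquiv.coe_det]
  have h1 : (X' : (Fin n → k) →ₗ[k] (Fin n → k)) = c • (X : (Fin n → k) →ₗ[k] (Fin n → k)) :=
    LinearMap.ext h
  rw [h1, LinearMap.det_smul, Module.finrank_fin_fun]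

theorem finite_Th [IsAlgClosed k] [Finite A] (hδ : Irr' δ) (hN : N ≠ 0) :
    Finite (Th C δ N) := by
  classical
  set f : Th C δ N →* A := (MonoidHom.fst _ _).comp (Th C δ N).subtype with hf
  have h1 : Finite (Th C δ N ⧸ f.ker) :=
    Finite.of_equiv _ (QuotientGroup.quotientKerEquivRange f).toEquiv.symm
  have h2 : Finite f.ker := by
    have hsc : ∀ q : f.ker, ∃ c : k, c ≠ 0 ∧ ∀ v, q.1.1.2 v = c • v := by
      intro q
      have h3 : q.1.1.1 = 1 := q.2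
      have h4 : Itw C δ (1 : A) q.1.1.2 := by
        rw [← h3]
        exact q.1.2.1
      exact Itw.unique hδ (mem_norm_of_normal C 1) itw_one h4
    have hroot : ∀ q : f.ker, (hsc q).choose ∈
        (Polynomial.nthRoots (n * N) (1 : k)).toFinset := by
      intro q
      obtain ⟨h5, h6⟩ := (hsc q).choose_spec
      generalize (hsc q).choose = c at h5 h6 ⊢
      have h7 := q.1.2.2
      rw [Multiset.mem_toFinset, Polynomial.mem_nthRoots
        (Nat.pos_of_ne_zero (mul_ne_zero (npos hδ) hN))]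
      have h8 := congrArg (Units.val) h7
      rw [Units.val_pow_eq_pow_val, Units.val_one,
        det_scalar c (LinearEquiv.refl k _) _ h6, LinearEquiv.det_refl, Units.val_one, mul_one,
        ← pow_mul] at h8
      exact h8
    refine Finite.of_injective
      (fun q : f.ker => (⟨_, hroot q⟩ : {x // x ∈ (Polynomial.nthRoots (n * N) (1 : k)).toFinset}))
      ?_
    intro q r hqr
    have h9 : (hsc q).choose = (hsc r).choose := congrArg Subtype.val hqr
    obtain ⟨h5, h6⟩ := (hsc q).choose_spec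
    obtain ⟨h7, h8⟩ := (hsc r).choose_spec
    apply Subtype.ext
    apply Subtype.ext
    apply Prod.ext
    · have ha : q.1.1.1 = 1 := q.2
      have hb : r.1.1.1 = 1 := r.2
      rw [ha, hb]
    · apply LinearEquiv.ext
      intro v
      rw [h6, h8, h9]
  exact Finite.of_subgroup_quotient f.ker

theorem lin_Th {p : ℕ} [Fact p.Prime] [CharP k p] [IsAlgClosed k] [Finite A] (hδ : Irr' δ) :
    Lin p C δ (ps C δ (Nat.card A)) (Xx C δ (Nat.card A)) := by
  have hN : Nat.card A ≠ 0 := Nat.card_pos.ne'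
  refine ⟨hδ, ?_, ?_, ?_, ?_, ?_, ?_, ?_⟩
  · intro t x h
    obtain ⟨q, rfl, rfl⟩ := exists_q t x h
    rw [Xx_mk]
    exact q.2.1
  · intro t s x y h h' v
    obtain ⟨q, rfl, rfl⟩ := exists_q t x h
    obtain ⟨r, rfl, rfl⟩ := exists_q s y h'
    rw [Xx_mk, Xx_mk]
    have h1 := Xx_mk (q * r)
    have h2 : Xx C δ (Nat.card A) (((q * r : Th C δ (Nat.card A)) :
        Th C δ (Nat.card A) ⧸ Cs C δ (Nat.card A))) (q.1.1 * r.1.1) = q.1.2 * r.1.2 := h1
    rw [QuotientGroup.mk_mul] at h2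
    rw [h2]
    rfl
  · intro c v
    obtain ⟨q, hq1, hq2, hq3⟩ := mem_Th_of_mem (δ := δ) c.2
    have h1 : (q : Th C δ (Nat.card A) ⧸ Cs C δ (Nat.card A)) = 1 :=
      (QuotientGroup.eq_one_iff _).2 hq3
    rw [← h1, ← hq1, Xx_mk]
    exact hq2 v
  · intro x Y hY
    obtain ⟨s, hs⟩ := IsAlgClosed.exists_pow_nat_eq
      (((LinearEquiv.det Y : k) ^ Nat.card A)⁻¹)
      (Nat.pos_of_ne_zero (mul_ne_zero (npos hδ) hN))
    have hd : (LinearEquiv.det Y : k) ^ Nat.card A ≠ 0 := pow_ne_zero _ (Units.ne_zero _)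
    have hs0 : s ≠ 0 := by
      rintro rfl
      rw [zero_pow (mul_ne_zero (npos hδ) hN)] at hs
      exact inv_ne_zero hd hs.symm
    set Y' := Y.trans (LinearEquiv.smulOfNeZero k (Fin n → k) s hs0) with hY'
    have h1 : ∀ v, Y' v = s • Y v := fun v => rfl
    have h2 : (x, Y') ∈ Th C δ (Nat.card A) := by
      refine mem_Th.2 ⟨hY.smul hs0 h1, ?_⟩
      apply Units.ext
      rw [Units.val_pow_eq_pow_val, det_scalar s Y Y' h1, mul_pow, ← pow_mul, hs, Units.val_one,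
        inv_mul_cancel₀ hd]
    exact ⟨((⟨(x, Y'), h2⟩ : Th C δ (Nat.card A)) : Th C δ (Nat.card A) ⧸ Cs C δ (Nat.card A)),
      rfl⟩
  · intro t h h'
    obtain ⟨q, rfl, hq⟩ := exists_q t 1 h
    have h1 := Xx_mk q
    rw [hq] at h1
    rw [h1] at h'
    rw [QuotientGroup.eq_one_iff, mem_Cs]
    refine ⟨by rw [hq]; exact C.one_mem, fun v => ?_⟩
    have h2 : ∀ h, (⟨q.1.1, h⟩ : C) = 1 := fun h => Subtype.ext hq
    rw [h2, map_one, h' v]
    rfl
  · intro hp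
    have : Finite (Th C δ (Nat.card A)) := finite_Th hδ hN
    obtain ⟨⟨t, ht⟩, hord⟩ := exists_prime_orderOf_dvd_card' p hp
    have hpow : t ^ p = 1 := by
      have h1 : (⟨t, ht⟩ : (ps C δ (Nat.card A)).ker) ^ p = 1 := by
        rw [← hord]
        exact pow_orderOf_eq_one _
      exact congrArg Subtype.val h1
    obtain ⟨q, rfl, hq⟩ := exists_q t 1 ht
    have h4 : Itw C δ (1 : A) q.1.2 := by
      rw [← hq]
      exact q.2.1
    obtain ⟨c, hc, h5⟩ := Itw.unique hδ (mem_norm_of_normal C 1) itw_one h4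
    have h5' : ∀ v, q.1.2 v = c • v := h5
    have hpw : ∀ m : ℕ, ∀ v, (q.1.2 ^ m) v = c ^ m • v := by
      intro m
      induction m with
      | zero =>
        intro v
        rw [pow_zero, pow_zero, one_smul]
        rfl
      | succ m ih =>
        intro v
        rw [pow_succ, pow_succ, mul_smul, ← h5' v, ← ih]
        rfl
    have h6 : q ^ p ∈ Cs C δ (Nat.card A) := by
      rw [← QuotientGroup.eq_one_iff]
      exact hpow
    obtain ⟨h7, h8⟩ := mem_Cs.1 h6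
    have h9 : (⟨(q ^ p).1.1, h7⟩ : C) = 1 := by
      apply Subtype.ext
      show q.1.1 ^ p = 1
      rw [hq, one_pow]
    have hc1 : c ^ p = 1 := by
      have := hδ.nontriv
      obtain ⟨v, hv⟩ := exists_ne (0 : Fin n → k)
      have h10 := h8 v
      rw [h9, map_one, Module.End.one_apply] at h10
      have h11 : (q.1.2 ^ p) v = v := h10
      rw [hpw p v] at h11
      have h12 : (c ^ p - 1) • v = 0 := by rw [sub_smul, h11, one_smul, sub_self]
      rcases smul_eq_zero.1 h12 with h13 | h13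
      · exact sub_eq_zero.1 h13
      · exact absurd h13 hv
    have hc2 : c = 1 := by
      have h14 : (c - 1) ^ p = 0 := by rw [sub_pow_char, hc1, one_pow, sub_self]
      exact sub_eq_zero.1 (pow_eq_zero_iff (Fact.out : p.Prime).ne_zero |>.1 h14)
    have h15 : (q : Th C δ (Nat.card A) ⧸ Cs C δ (Nat.card A)) = 1 := by
      rw [QuotientGroup.eq_one_iff, mem_Cs]
      refine ⟨by rw [hq]; exact C.one_mem, fun v => ?_⟩
      have h2 : ∀ h, (⟨q.1.1, h⟩ : C) = 1 := fun h => Subtype.ext hq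
      rw [h2, map_one, h5' v, hc2, one_smul]
      rfl
    have h16 : (⟨(q : Th C δ (Nat.card A) ⧸ Cs C δ (Nat.card A)), ht⟩ :
        (ps C δ (Nat.card A)).ker) = 1 := Subtype.ext h15
    rw [h16, orderOf_one] at hord
    exact (Fact.out : p.Prime).one_lt.ne hord
  · intro v hv
    have h1 : (v, LinearEquiv.refl k (Fin n → k)) ∈ Th C δ (Nat.card A) := by
      refine mem_Th.2 ⟨?_, by rw [LinearEquiv.det_refl, one_pow]⟩
      intro g g' hg w
      have h2 : g' = g := by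
        apply Subtype.ext
        rw [hg, (Subgroup.mem_centralizer_iff.1 hv g g.2).symm]
        group
      rw [h2]
      rfl
    refine ⟨((⟨_, h1⟩ : Th C δ (Nat.card A)) : Th C δ (Nat.card A) ⧸ Cs C δ (Nat.card A)), rfl, ?_⟩
    intro w
    rw [Xx_mk ⟨_, h1⟩]
    rfl

theorem transfer {p : ℕ} {G : Type*} [Group G] {G' : Type*} [Group G'] (e : G' ≃* G)
    {ψ : G →* A ⧸ C} {X : G → A → ((Fin n → k) ≃ₗ[k] (Fin n → k))} (h : Lin p C δ ψ X) :
    Lin p C δ (ψ.comp e.toMonoidHom) (fun t => X (e t)) := by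
  refine ⟨h.irr, fun t x ht => h.itw _ x ht, ?_, ?_, ?_, ?_, ?_, ?_⟩
  · intro t s x y ht hs v
    have h1 := h.mul (e t) (e s) x y ht hs v
    rw [← map_mul] at h1
    exact h1
  · intro c v
    have h1 := h.res c v
    rw [← map_one e] at h1
    exact h1
  · intro x Y hY
    obtain ⟨t, ht⟩ := h.onto x Y hY
    exact ⟨e.symm t, by
      show ψ (e (e.symm t)) = _
      rw [MulEquiv.apply_symm_apply, ht]⟩
  · intro t ht hv
    have h1 := h.inj (e t) ht hv
    exact (MulEquiv.map_eq_one_iff e).1 h1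
  · intro hp
    apply h.ker
    have h1 : Nat.card (ψ.comp e.toMonoidHom).ker = Nat.card ψ.ker := by
      refine Nat.card_congr ⟨fun t => ⟨e t.1, t.2⟩, fun t => ⟨e.symm t.1, ?_⟩, ?_, ?_⟩
      · show ψ (e (e.symm t.1)) = 1
        rw [MulEquiv.apply_symm_apply]
        exact t.2
      · intro t
        exact Subtype.ext (e.symm_apply_apply t.1)
      · intro t
        exact Subtype.ext (e.apply_symm_apply t.1)
    rwa [h1] at hp
  · intro v hv
    obtain ⟨t, ht, hw⟩ := h.cen v hv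
    refine ⟨e.symm t, ?_, ?_⟩
    · show ψ (e (e.symm t)) = _
      rw [MulEquiv.apply_symm_apply, ht]
    · intro w
      show X (e (e.symm t)) v w = w
      rw [MulEquiv.apply_symm_apply, hw]

end ExAux

/-- the group of the intertwiners of `δ` modulo `C` exists -/
theorem exists_lin {p : ℕ} [Fact p.Prime] {k : Type v} [Field k] [CharP k p] [IsAlgClosed k]
    {A : Type u} [Group A] [Finite A] (C : Subgroup A) [C.Normal] {n : ℕ} {δ : Rp k C n}
    (hδ : Irr' δ) :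
    ∃ (G : Type u) (_ : Group G) (_ : Fintype G) (ψ : G →* A ⧸ C)
      (X : G → A → ((Fin n → k) ≃ₗ[k] (Fin n → k))), Lin p C δ ψ X := by
  have hfin : Finite (ExAux.Th C δ (Nat.card A)) := ExAux.finite_Th hδ Nat.card_pos.ne'
  exact ⟨Shrink.{u} (ExAux.Th C δ (Nat.card A) ⧸ ExAux.Cs C δ (Nat.card A)), inferInstance,
    Fintype.ofFinite _, _, _, ExAux.transfer Shrink.mulEquiv (ExAux.lin_Th (p := p) hδ)⟩

end Pool.Agent.Lib.P0c8ca5.Ii
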