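import Pool.Agent.Lib.P0c8ca5W.StBr

/-!
# The Brauer subgroups of `stF C δ ψ X b` for a block `b`
-/

set_option autoImplicit false

namespace Pool.Agent.Lib.P0c8ca5.Ii

open MonoidAlgebra Ps Bq Zz Gg

variable {p : ℕ} {k : Type*} [Field k] {A G : Type*} [Group A] [Group G]
  {C : Subgroup A} [C.Normal] {n : ℕ} {δ : Rp k C n} {ψ : G →* A ⧸ C}
  {X : G → A → ((Fin n → k) ≃ₗ[k] (Fin n → k))}

theorem Lin.hasBr_lift [Fact p.Prime] [CharP k p] [IsAlgClosed k] [Fintype A] [Finite G]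
    (h : Lin p C δ ψ X) {b : MonoidAlgebra k A} (hb : IsBlock ⊤ b) {P' : Subgroup G}
    (hP' : IsPGroup p P') (hbr : HasBr P' (stF C δ ψ X b)) :
    ∃ P : Subgroup A, IsPGroup p P ∧ HasBr P b ∧
      P'.map ψ ≤ P.map (QuotientGroup.mk' C) := by
  obtain ⟨P, h1, h2, h3⟩ := h.hasBr_over hb.invBy hP' hbr
  exact ⟨P, h1, h2, h3.ge⟩

end Pool.Agent.Lib.P0c8ca5.Ii
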