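import Mathlib
import Pool.Agent.Lib.P0c8ca5I.Defs
import Pool.Agent.Lib.P0c8ca5C.HOne

/-!
# Module Sum: the irreducible representations of `L` by the representations of `C` under them

PROOF of `card_irX_sum`.  As `Cy.card_irX_psi` and `Cy.double_count` in P0c8ca5C.HOne: let `Rl x c` for `x : IrX C 1`, `c : IrX L f` mean that
`c` lies over `x` (it does not depend on the representatives: `Over.congr_left`, `Over.congr_right`, `mk_eq_mk`).  For fixed `c` the `x`
with `Rl x c` form one orbit of `L` (not empty by `exists_under`; `under_conj`; `Over.tw`, `iso_tw_of_mem`), so the sum of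
`|L ⊓ stabilizer x|` over these `x` is `|L|` (`sum_orbit`, with the action `actX` for `e = 1`, `InvBy ⊤ 1`; all irreducible
representations lie in `e = 1`: `act σ 1 = 1`).  The stabilizer of `⟦σ⟧` in this action is `stD C σ` (`itw_iff` in P0c8ca5G.OmA).
For fixed `x` the number of the `c` with `Rl x c` is `card (OvSet _ f x.out.ρ)`.
-/

set_option autoImplicit false

namespace Pool.Agent.Lib.P0c8ca5.Ii

open MonoidAlgebra Ps Bq Zz Gg Cy

variable {p : ℕ} {k : Type*} [Field k] {A : Type*} [Group A]

namespace SumAux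

theorem double_count {X : Type*} [MulAction A X] [Finite A] [Fintype X] (H : Subgroup A)
    {C : Type*} [Finite C] (Rl : X → C → Prop)
    (ha : ∀ c, ∃ x, Rl x c) (hb : ∀ x y c, Rl x c → (Rl y c ↔ ∃ h ∈ H, y = h • x)) :
    Nat.card H * Nat.card C = ∑ x : X, Nat.card ↥(H ⊓ MulAction.stabilizer A x) *
      Nat.card {c // Rl x c} := by
  classical
  have : Fintype C := Fintype.ofFinite C
  have h1 : ∀ x : X, Nat.card ↥(H ⊓ MulAction.stabilizer A x) * Nat.card {c // Rl x c}
      = ∑ c : C, if Rl x c then Nat.card ↥(H ⊓ MulAction.stabilizer A x) else 0 := by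
    intro x
    rw [← Finset.sum_filter, Finset.sum_const, smul_eq_mul, mul_comm,
      Nat.card_eq_fintype_card (α := {c // Rl x c}), Fintype.card_subtype]
  rw [Finset.sum_congr rfl (fun x _ => h1 x), Finset.sum_comm]
  have h2 : ∀ c : C, (∑ x : X, if Rl x c then Nat.card ↥(H ⊓ MulAction.stabilizer A x) else 0)
      = Nat.card H := by
    intro c
    obtain ⟨x₀, hx₀⟩ := ha c
    rw [← Finset.sum_filter]
    apply sum_orbit H x₀
    intro y
    rw [Finset.mem_filter]
    constructor
    · rintro ⟨_, hy⟩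
      exact (hb x₀ y c hx₀).1 hy
    · intro h
      exact ⟨Finset.mem_univ _, (hb x₀ y c hx₀).2 h⟩
  rw [Finset.sum_congr rfl (fun c _ => h2 c), Finset.sum_const, Finset.card_univ,
    smul_eq_mul, mul_comm, Nat.card_eq_fintype_card (α := C)]

theorem act_one [Finite A] {N : Subgroup A} {m : ℕ} (σ : Rp k N m) :
    act σ (1 : MonoidAlgebra k A) = 1 := by
  classical
  have : Fintype N := Fintype.ofFinite N
  apply LinearMap.ext
  intro v
  rw [act_apply, Finset.sum_eq_single (1 : N)]
  · rw [MonoidAlgebra.one_def, coeff_single, Subgroup.coe_one, Finsupp.single_eq_same, one_smul,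
      map_one]
  · intro x _ hx
    rw [MonoidAlgebra.one_def, coeff_single, Finsupp.single_eq_of_ne, zero_smul]
    intro h
    exact hx (Subtype.ext h)
  · intro h
    exact absurd (Finset.mem_univ _) h

theorem invBy_one : InvBy (⊤ : Subgroup A) (1 : MonoidAlgebra k A) :=
  invBy_iff_commute.2 fun g _ => Commute.one_right _

end SumAux

open SumAux in
/-- the number of the irreducible representations of `L` in `f` as a sum over those of `C` -/
theorem card_irX_sum [Fact p.Prime] [CharP k p] [IsAlgClosed k] [Finite A] {C L : Subgroup A}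
    [C.Normal] (hCL : C ≤ L) (f : MonoidAlgebra k A)
    [Fintype (IrX C (1 : MonoidAlgebra k A))] :
    Nat.card L * Nat.card (IrX L f) = ∑ c : IrX C (1 : MonoidAlgebra k A),
      Nat.card ↥(stD C (Quotient.out c).ρ ⊓ L)
        * Nat.card ↥(OvSet hCL f (Quotient.out c).ρ) := by
  let _ := actX (G := C) (invBy_one (k := k) (A := A))
  have hsm : ∀ (a : A) (σ : IrrInv C ⊥ (1 : MonoidAlgebra k A))
      (σ' : IrrInv C ⊥ (1 : MonoidAlgebra k A)),
      (⟦σ'⟧ : IrX C (1 : MonoidAlgebra k A)) = a • (⟦σ⟧ : IrX C (1 : MonoidAlgebra k A)) ↔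
        Iso (tw (mem_norm_of_normal C a) σ.ρ) σ'.ρ := by
    intro a σ σ'
    constructor
    · intro h; exact mk_eq_mk.1 h.symm
    · intro h; exact (mk_eq_mk.2 h).symm
  have hnG : L ≤ Subgroup.normalizer (C : Set A) := fun x _ => mem_norm_of_normal C x
  let Rl : IrX C (1 : MonoidAlgebra k A) → IrX L f → Prop := fun x c =>
    ∃ (σ : IrrInv C ⊥ (1 : MonoidAlgebra k A)) (ρ : IrrInv L ⊥ f), ⟦σ⟧ = x ∧ ⟦ρ⟧ = c ∧
      Over hCL ρ.ρ σ.ρ
  have hRl : ∀ (σ : IrrInv C ⊥ (1 : MonoidAlgebra k A)) (ρ : IrrInv L ⊥ f),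
      Rl ⟦σ⟧ ⟦ρ⟧ ↔ Over hCL ρ.ρ σ.ρ := by
    intro σ ρ
    constructor
    · rintro ⟨σ', ρ', h1, h2, h3⟩
      exact (h3.congr_right (mk_eq_mk.1 h1)).congr_left (mk_eq_mk.1 h2)
    · intro h; exact ⟨σ, ρ, rfl, rfl, h⟩
  have hRb : ∀ x y c, Rl x c → (Rl y c ↔ ∃ n ∈ L, y = n • x) := by
    intro x y c
    induction x using Quotient.inductionOn with
    | _ σ =>
    induction y using Quotient.inductionOn with
    | _ σ' =>
    induction c using Quotient.inductionOn with
    | _ ρ =>
    intro h
    rw [hRl] at h ⊢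
    constructor
    · intro h'
      obtain ⟨n, hnN, hiso⟩ := under_conj hCL hnG (irr_iff.1 ρ.irr) (irr_iff.1 σ.irr)
        (irr_iff.1 σ'.irr) h h'
      exact ⟨n, hnN, (hsm _ _ _).2 hiso⟩
    · rintro ⟨n, hnN, hy⟩
      rw [hsm] at hy
      have h1 := h.tw (Subgroup.le_normalizer hnN) (mem_norm_of_normal C n)
      exact (h1.congr_right hy).congr_left (iso_tw_of_mem _ hnN _)
  have hmain := double_count (A := A) L Rl ?_ hRb
  · rw [hmain]
    refine Finset.sum_congr rfl fun x _ => ?_
    congr 1
    · -- the stabilizer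
      have hst : MulAction.stabilizer A x = stD C (Quotient.out x).ρ := by
        ext a
        rw [MulAction.mem_stabilizer_iff, mem_stD, ← itw_iff (mem_norm_of_normal C a),
          ← hsm a (Quotient.out x) (Quotient.out x), Quotient.out_eq]
        exact eq_comm
      rw [hst, inf_comm]
    · have hset : {c : IrX L f | Rl x c} = OvSet hCL f (Quotient.out x).ρ := by
        ext c
        constructor
        · intro hc
          induction c using Quotient.inductionOn with
          | _ ρ =>
          refine ⟨ρ, rfl, (hRl (Quotient.out x) ρ).1 ?_⟩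
          rw [Quotient.out_eq]
          exact hc
        · rintro ⟨γ, rfl, hγ⟩
          have h1 := (hRl (Quotient.out x) γ).2 hγ
          rw [Quotient.out_eq] at h1
          exact h1
      rw [← hset]
      rfl
  · intro c
    induction c using Quotient.inductionOn with
    | _ ρ =>
    obtain ⟨m, σ, h1, h2⟩ := exists_under hCL (irr_iff.1 ρ.irr)
    exact ⟨⟦mkIrr σ h1 (act_one σ)⟧, (hRl _ _).2 h2⟩

end Pool.Agent.Lib.P0c8ca5.Ii
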