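import Mathlib
import Pool.Agent.Lib.P0c8ca5I.StF
import Pool.Agent.Lib.P0c8ca5U.Kr
import Pool.Agent.Lib.P0c8ca5C.CorrC

/-!
# Definition of `TR`: the representation `τ` of `T` is the product of the intertwiners `X` and the representation `S` of `Ls ψ T`

The tensor product `k ^ n ⊗ W` is `Fin n → W`, and the operator `a ⊗ B` is `Un8.kr a B` (P0c8ca5U.Kr).
-/

set_option autoImplicit false

namespace Pool.Agent.Lib.P0c8ca5.Ii

open MonoidAlgebra Ps Bq Zz Gg Cy

variable {p : ℕ} {k : Type*} [Field k] {A G : Type*} [Group A] [Group G] {C : Subgroup A}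
  [C.Normal] {n : ℕ}

/-- `τ` is the product of `X` and `S`, by the isomorphism `P` -/
def TR (ψ : G →* A ⧸ C) (X : G → A → ((Fin n → k) ≃ₗ[k] (Fin n → k))) (T : Subgroup A)
    {U W : Type*} [AddCommGroup U] [Module k U] [AddCommGroup W] [Module k W]
    (τ : Representation k T U) (S : Representation k (Ls ψ T) W)
    (P : (Fin n → W) ≃ₗ[k] U) : Prop :=
  ∀ (t : Ls ψ T) (x : T), ψ (t : G) = ((x : A) : A ⧸ C) → ∀ f,
    P (Un8.kr (X (t : G) (x : A)).toLinearMap (S t) f) = τ x (P f)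

end Pool.Agent.Lib.P0c8ca5.Ii
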