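import Mathlib
import Pool.Agent.Lib.P0c8ca5I.TnsD

/-!
# Module TnsA: from `S` to `τ`

`C ≤ T ≤ stD C δ`.  `Un8.kr a B` is the operator `a ⊗ B` on `Fin n → W`: P0c8ca5U.Kr has `kr_apply`, `kr_comp`, `kr_one`, `kr_smul_left`,
`kr_smul_right`, `kr_single`, `kr_right_inj`, `kr_cent`, `kr_sub`, `exists_act` (density), `act_hom`.

PROOF of `exists_tau`.  On `Fin n → (Fin m → k)` let `τ₀ x := kr (X t x) (S t)` for any `t` with `ψ t = x C` (it exists by `h.onto`, as
`x ∈ stD C δ`, and lies in `Ls ψ T`; it is independent of `t`: another one is `z t` with `ψ z = 1`, `h.ker_mul` gives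
`X (z t) x = ze z • X t x`, and `S (z t) = (ze z)⁻¹ • S t`).  `h.mul`, `kr_comp`, `h.one_one`, `kr_one`: `τ₀` is a
representation of `T`.  Transport it to `Fin l → k` (`trRep` in the library, or conjugation by `Module.finBasis`).
Irreducible: a stable subspace `U₀` is stable under `τ₀ c = kr (δ c) 1` (`t = 1`, `h.res`), so under all `kr a 1` (`exists_act h.irr`,
`act_hom`-like: `act τ₀ u = kr (act δ u) 1` for `u` supported in `C`; or linearity of `kr` in the first entry), so it is `Fin n → W₀`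
(`kr_sub`).  `W₀` is stable under all `S t`: for `w ∈ W₀`, `ψ t = x C`, `x ∈ T`: the function `g = kr (X t x).symm 1 (Pi.single i w)` lies
in `U₀` (all entries are multiples of `w`), and `τ₀ x g = kr (X t x) (S t) g = kr 1 (S t) (Pi.single i w) = Pi.single i (S t w)`.  So `W₀ = ⊥` or `⊤`,
and `U₀ = ⊥` or `⊤`.  Over: `m ≥ 1`, a nonzero linear form `l` on `Fin m → k` (a coordinate) gives the nonzero `C`-map
`g ↦ (fun i => l (g i))` to `δ`.
-/

set_option autoImplicit false

namespace Pool.Agent.Lib.P0c8ca5.Ii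

open MonoidAlgebra Ps Bq Zz Gg Cy

variable {p : ℕ} {k : Type*} [Field k] {A G : Type*} [Group A] [Group G] {C : Subgroup A}
  [C.Normal] {n : ℕ} {δ : Rp k C n} {ψ : G →* A ⧸ C}
  {X : G → A → ((Fin n → k) ≃ₗ[k] (Fin n → k))}

namespace TnsAAux

theorem indep [IsAlgClosed k] (h : Lin p C δ ψ X) {T : Subgroup A} {m : ℕ}
    {S : Rp k (Ls ψ T) m}
    (hz : ∀ z : Ls ψ T, ψ (z : G) = 1 → ∀ w, S z w = (ze X (z : G))⁻¹ • w)
    (t t' : Ls ψ T) (x : A) (ht : ψ (t : G) = (x : A ⧸ C)) (ht' : ψ (t' : G) = (x : A ⧸ C)) :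
    Un8.kr (X (t' : G) x).toLinearMap (S t') = Un8.kr (X (t : G) x).toLinearMap (S t) := by
  have hz1 : ψ ((t' * t⁻¹ : Ls ψ T) : G) = 1 := by
    change ψ ((t' : G) * (t : G)⁻¹) = 1
    rw [map_mul, map_inv, ht, ht', mul_inv_cancel]
  have hne := h.ze_ne_zero hz1
  have e1 : (X (t' : G) x).toLinearMap
      = ze X ((t' * t⁻¹ : Ls ψ T) : G) • (X (t : G) x).toLinearMap := by
    ext1 v
    have h1 := h.ker_mul hz1 ht
    refine LinearMap.ext fun c => ?_
    have h2 := h1 (LinearMap.single k (fun _ : Fin n => k) v c)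
    have h3 : ((t' * t⁻¹ : Ls ψ T) : G) * (t : G) = (t' : G) := by
      change (t' : G) * (t : G)⁻¹ * (t : G) = _
      rw [inv_mul_cancel_right]
    rw [h3] at h2
    exact h2
  have e2 : S t' = (ze X ((t' * t⁻¹ : Ls ψ T) : G))⁻¹ • S t := by
    refine LinearMap.ext fun w => ?_
    have h1 : S t' w = S (t' * t⁻¹) (S t w) := by
      rw [← Module.End.mul_apply, ← map_mul, inv_mul_cancel_right]
    rw [h1, hz _ hz1]
    rfl
  rw [e1, e2, Un8.kr_smul_left, Un8.kr_smul_right, smul_smul, mul_inv_cancel₀ hne, one_smul]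

theorem exists_ch (h : Lin p C δ ψ X) {T : Subgroup A} (hCT : C ≤ T) (hT : T ≤ stD C δ)
    (x : T) : ∃ t : Ls ψ T, ψ (t : G) = ((x : A) : A ⧸ C) := by
  obtain ⟨t, ht⟩ := h.mem_stD_iff.1 (hT x.2)
  exact ⟨⟨t, (mem_Ls_of hCT ht).2 x.2⟩, ht⟩

/-- the representation -/
noncomputable def tau0 [IsAlgClosed k] (h : Lin p C δ ψ X) {T : Subgroup A} (hCT : C ≤ T)
    (hT : T ≤ stD C δ) {m : ℕ} (S : Rp k (Ls ψ T) m)
    (hz : ∀ z : Ls ψ T, ψ (z : G) = 1 → ∀ w, S z w = (ze X (z : G))⁻¹ • w) :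
    Representation k T (Fin n → (Fin m → k)) where
  toFun x := Un8.kr (X ((exists_ch h hCT hT x).choose : G) (x : A)).toLinearMap
    (S (exists_ch h hCT hT x).choose)
  map_one' := by
    rw [indep h hz 1 _ ((1 : T) : A) (by rw [OneMemClass.coe_one, map_one]; rfl)
      (exists_ch h hCT hT 1).choose_spec, map_one]
    have e1 : (X ((1 : Ls ψ T) : G) ((1 : T) : A)).toLinearMap = 1 := by
      refine LinearMap.ext fun v => ?_
      exact h.one_one v
    rw [e1]
    exact LinearMap.ext fun f => Un8.kr_one f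
  map_mul' x y := by
    have hx := (exists_ch h hCT hT x).choose_spec
    have hy := (exists_ch h hCT hT y).choose_spec
    rw [indep h hz ((exists_ch h hCT hT x).choose * (exists_ch h hCT hT y).choose) _
      ((x * y : T) : A) (by
        change ψ (((exists_ch h hCT hT x).choose : G) * ((exists_ch h hCT hT y).choose : G)) = _
        rw [map_mul, hx, hy]; rfl)
      (exists_ch h hCT hT (x * y)).choose_spec, map_mul]
    refine LinearMap.ext fun f => ?_
    rw [Module.End.mul_apply, Un8.kr_comp]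
    have e1 : (X (((exists_ch h hCT hT x).choose * (exists_ch h hCT hT y).choose : Ls ψ T) : G)
        ((x * y : T) : A)).toLinearMap
        = (X ((exists_ch h hCT hT x).choose : G) (x : A)).toLinearMap ∘ₗ
          (X ((exists_ch h hCT hT y).choose : G) (y : A)).toLinearMap := by
      refine LinearMap.ext fun v => ?_
      exact h.mul _ _ (x : A) (y : A) hx hy v
    rw [e1]
    rfl

variable [IsAlgClosed k] {T : Subgroup A} {m : ℕ} {S : Rp k (Ls ψ T) m}

theorem tau0_apply (h : Lin p C δ ψ X) (hCT : C ≤ T) (hT : T ≤ stD C δ)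
    (hz : ∀ z : Ls ψ T, ψ (z : G) = 1 → ∀ w, S z w = (ze X (z : G))⁻¹ • w)
    (t : Ls ψ T) (x : T) (ht : ψ (t : G) = ((x : A) : A ⧸ C)) :
    tau0 h hCT hT S hz x = Un8.kr (X (t : G) (x : A)).toLinearMap (S t) :=
  indep h hz t _ (x : A) ht (exists_ch h hCT hT x).choose_spec

theorem tau0_C (h : Lin p C δ ψ X) (hCT : C ≤ T) (hT : T ≤ stD C δ)
    (hz : ∀ z : Ls ψ T, ψ (z : G) = 1 → ∀ w, S z w = (ze X (z : G))⁻¹ • w)
    (c : C) : tau0 h hCT hT S hz (Subgroup.inclusion hCT c)
      = Un8.kr (δ c) (1 : Module.End k (Fin m → k)) := by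
  rw [tau0_apply h hCT hT hz 1 _ (mk_one_of_mem c.2), map_one]
  have e1 : (X ((1 : Ls ψ T) : G) ((Subgroup.inclusion hCT c : T) : A)).toLinearMap = δ c := by
    refine LinearMap.ext fun v => ?_
    exact h.res c v
  rw [e1]

theorem kr_act [Finite A] (u : MonoidAlgebra k A) (f : Fin n → (Fin m → k)) :
    Un8.kr (act δ u) (1 : Module.End k (Fin m → k)) f
      = ∑ᶠ c : C, u.coeff (c : A) • Un8.kr (δ c) (1 : Module.End k (Fin m → k)) f := by
  have : Fintype C := Fintype.ofFinite C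
  rw [finsum_eq_sum_of_fintype]
  funext i
  rw [Finset.sum_apply, Un8.kr_apply]
  have h1 : ∀ j, act δ u (Pi.single j 1) i = ∑ c : C, u.coeff (c : A) * δ c (Pi.single j 1) i := by
    intro j
    rw [act_apply, Finset.sum_apply]
    rfl
  rw [Finset.sum_congr rfl (fun j _ => by rw [h1 j, Finset.sum_smul]), Finset.sum_comm]
  refine Finset.sum_congr rfl fun c _ => ?_
  rw [Pi.smul_apply, Un8.kr_apply, Finset.smul_sum]
  exact Finset.sum_congr rfl fun j _ => mul_smul _ _ _

theorem tau0_irr [Finite A] (h : Lin p C δ ψ X) (hCT : C ≤ T) (hT : T ≤ stD C δ)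
    (hS : Irr' S) (hz : ∀ z : Ls ψ T, ψ (z : G) = 1 → ∀ w, S z w = (ze X (z : G))⁻¹ • w) :
    Irr' (tau0 h hCT hT S hz) where
  nontriv := by
    obtain ⟨v, hv⟩ := h.exists_ne
    obtain ⟨i, hi⟩ := Function.ne_iff.1 hv
    have h1 := hS.nontriv
    obtain ⟨w, hw⟩ := _root_.exists_ne (0 : Fin m → k)
    refine ⟨⟨Pi.single i w, 0, fun h0 => hw ?_⟩⟩
    have h2 := congrFun h0 i
    rwa [Pi.single_eq_same] at h2
  sub := fun U hU => by
    have h1 : ∀ (a : Module.End k (Fin n → k)), ∀ f ∈ U,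
        Un8.kr a (1 : Module.End k (Fin m → k)) f ∈ U := by
      intro a f hf
      obtain ⟨u, -, rfl⟩ := Un8.exists_act (A := A) h.irr a
      have : Fintype C := Fintype.ofFinite C
      rw [kr_act, finsum_eq_sum_of_fintype]
      refine U.sum_mem fun c _ => U.smul_mem _ ?_
      rw [← tau0_C h hCT hT hz c]
      exact hU _ f hf
    obtain ⟨W, hW⟩ := Un8.kr_sub U h1
    obtain ⟨v, hv⟩ := h.exists_ne
    obtain ⟨i, hi⟩ := Function.ne_iff.1 hv
    have h2 : ∀ (t : Ls ψ T), ∀ w ∈ W, S t w ∈ W := by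
      intro t w hw
      obtain ⟨x, hx, ht⟩ := mem_Ls.1 t.2
      have h3 : Un8.kr (X (t : G) x).symm.toLinearMap (1 : Module.End k (Fin m → k))
          (Pi.single i w) ∈ U := by
        rw [hW]
        intro j
        rw [Un8.kr_single]
        exact W.smul_mem _ hw
      have h4 := hU ⟨x, hx⟩ _ h3
      rw [tau0_apply h hCT hT hz t ⟨x, hx⟩ ht, Un8.kr_comp] at h4
      have h5 := (hW _).1 h4 i
      have e1 : (X (t : G) x).toLinearMap ∘ₗ (X (t : G) x).symm.toLinearMap
          = (1 : Module.End k (Fin n → k)) := by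
        refine LinearMap.ext fun v => ?_
        exact LinearEquiv.apply_symm_apply _ _
      rw [e1, Un8.kr_single] at h5
      rw [Module.End.one_apply, Pi.single_eq_same, one_smul] at h5
      exact h5
    rcases hS.sub W h2 with h3 | h3
    · left
      rw [eq_bot_iff]
      intro f hf
      rw [Submodule.mem_bot]
      funext j
      have h4 := (hW f).1 hf j
      rw [h3, Submodule.mem_bot] at h4
      exact h4
    · right
      rw [eq_top_iff]
      intro f _
      rw [hW]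
      intro j
      rw [h3]
      exact Submodule.mem_top

end TnsAAux

theorem Lin.exists_tau [IsAlgClosed k] [Finite A] (h : Lin p C δ ψ X) {T : Subgroup A}
    (hCT : C ≤ T) (hT : T ≤ stD C δ) {m : ℕ} {S : Rp k (Ls ψ T) m} (hS : Irr' S)
    (hz : ∀ z : Ls ψ T, ψ (z : G) = 1 → ∀ w, S z w = (ze X (z : G))⁻¹ • w) :
    ∃ (l : ℕ) (τ : Rp k T l) (P : (Fin n → (Fin m → k)) ≃ₗ[k] (Fin l → k)),
      Irr' τ ∧ Over hCT τ δ ∧ TR ψ X T τ S P := by
  obtain ⟨w, hw⟩ : ∃ w : Fin m → k, w ≠ 0 := by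
    have := hS.nontriv
    exact _root_.exists_ne 0
  obtain ⟨v, hv⟩ := h.exists_ne
  obtain ⟨i, hi⟩ := Function.ne_iff.1 hv
  obtain ⟨j, hj⟩ := Function.ne_iff.1 hw
  let E := (Module.finBasis k (Fin n → (Fin m → k))).equivFun
  refine ⟨_, trRep (TnsAAux.tau0 h hCT hT S hz) E, E,
    (TnsAAux.tau0_irr h hCT hT hS hz).trRep E, ?_, ?_⟩
  · refine ⟨(LinearMap.pi fun l => LinearMap.proj j ∘ₗ LinearMap.proj l) ∘ₗ E.symm.toLinearMap,
      ?_, ?_⟩
    · intro h0
      have h1 := LinearMap.congr_fun h0 (E (Pi.single i w))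
      have h2 := congrFun h1 i
      change (E.symm (E (Pi.single i w))) i j = 0 at h2
      rw [LinearEquiv.symm_apply_apply, Pi.single_eq_same] at h2
      exact hj h2
    · intro c y
      obtain ⟨f, rfl⟩ := E.surjective y
      rw [trRep_apply, TnsAAux.tau0_C]
      funext l
      change (E.symm (E (Un8.kr (δ c) (1 : Module.End k (Fin m → k)) f))) l j
        = δ c (fun l => (E.symm (E f)) l j) l
      rw [LinearEquiv.symm_apply_apply, LinearEquiv.symm_apply_apply, Un8.lin_expand,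
        Un8.kr_apply, Finset.sum_apply]
      exact Finset.sum_congr rfl fun q _ => mul_comm _ _
  · intro t x ht f
    rw [trRep_apply, TnsAAux.tau0_apply h hCT hT hz t x ht]

end Pool.Agent.Lib.P0c8ca5.Ii
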