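import Mathlib
import Pool.Agent.Lib.P0c8ca5I.TnsD

/-!
# Module TnsB: from `τ` to `S`

`C ≤ T ≤ stD C δ`.  `Un8.kr a B` is the operator `a ⊗ B` on `Fin n → W`: P0c8ca5U.Kr has `kr_apply`, `kr_comp`, `kr_one`, `kr_smul_left`,
`kr_smul_right`, `kr_single`, `kr_right_inj`, `kr_cent`, `kr_sub`, `exists_act` (density), `act_hom`.
-/

set_option autoImplicit false

namespace Pool.Agent.Lib.P0c8ca5.Ii

open MonoidAlgebra Ps Bq Zz Gg Cy

variable {p : ℕ} {k : Type*} [Field k] {A G : Type*} [Group A] [Group G] {C : Subgroup A}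
  [C.Normal] {n : ℕ} {δ : Rp k C n} {ψ : G →* A ⧸ C}
  {X : G → A → ((Fin n → k) ≃ₗ[k] (Fin n → k))}

theorem exists_emb [IsAlgClosed k] [Finite A] {T : Subgroup A}
    (hCT : C ≤ T) (hT : T ≤ stD C δ) (hδ : Irr' δ) {l : ℕ} {τ : Rp k T l} (hτ : Irr' τ)
    (ho : Over hCT τ δ) :
    ∃ j : (Fin n → k) →ₗ[k] (Fin l → k), Function.Injective j ∧
      ∀ (c : C) v, j (δ c v) = τ (Subgroup.inclusion hCT c) (j v) := by
  obtain ⟨π, hπ0, hπ⟩ := ho
  have := hτ.nontriv
  obtain ⟨U, hU, n', σ, E, hUirr, hσ, hE⟩ :=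
    exists_irr_sub_fin (τ.comp (Subgroup.inclusion hCT))
  obtain ⟨j₀, hj₀⟩ : ∃ j : (Fin n' → k) →ₗ[k] (Fin l → k), j = U.subtype ∘ₗ E.symm.toLinearMap :=
    ⟨_, rfl⟩
  have hinj : Function.Injective j₀ := by
    rw [hj₀]
    exact U.injective_subtype.comp E.symm.injective
  have heq : ∀ (g : C) s, j₀ (σ g s) = τ (Subgroup.inclusion hCT g) (j₀ s) := by
    intro g s
    obtain ⟨u, rfl⟩ := E.surjective s
    rw [hE, hj₀]
    change ((E.symm (E (subRep _ U hU g u)) : U) : Fin l → k)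
      = τ (Subgroup.inclusion hCT g) ((E.symm (E u) : U) : Fin l → k)
    rw [LinearEquiv.symm_apply_apply, LinearEquiv.symm_apply_apply]
    rfl
  obtain ⟨x, hx⟩ := exists_twist_iso hCT (fun t _ => mem_norm_of_normal C t) hτ hδ π hπ0 hπ hσ
    j₀ hinj heq
  obtain ⟨B, hB⟩ : ∃ B : (Fin n' → k) ≃ₗ[k] (Fin n → k), ∀ v, B v = π (τ x (j₀ v)) :=
    ⟨LinearEquiv.ofBijective _ hx, fun v => rfl⟩
  obtain ⟨Y, hY⟩ := (stD C δ).inv_mem (hT x.2)
  have hmem : ∀ c : C, (x : A) * c * (x : A)⁻¹ ∈ C := fun c =>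
    Subgroup.Normal.conj_mem inferInstance _ c.2 _
  have hB' : ∀ (c : C) v, B (σ c v) = δ ⟨_, hmem c⟩ (B v) := by
    intro c v
    rw [hB, heq, hB, ← hπ, ← Module.End.mul_apply (τ x), ← map_mul,
      ← Module.End.mul_apply (τ _) (τ x), ← map_mul]
    congr 3
    apply Subtype.ext
    change (x : A) * c = (x : A) * c * (x : A)⁻¹ * x
    group
  have hY' : ∀ (c : C) v, Y (δ ⟨_, hmem c⟩ v) = δ c (Y v) := by
    intro c v
    refine hY _ _ ?_ v
    change (c : A) = (x : A)⁻¹ * ((x : A) * c * (x : A)⁻¹) * ((x : A)⁻¹)⁻¹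
    group
  refine ⟨j₀ ∘ₗ B.symm.toLinearMap ∘ₗ Y.symm.toLinearMap, ?_, ?_⟩
  · exact hinj.comp (B.symm.injective.comp Y.symm.injective)
  · intro c v
    change j₀ (B.symm (Y.symm (δ c v))) = τ (Subgroup.inclusion hCT c) (j₀ (B.symm (Y.symm v)))
    have e1 : Y.symm (δ c v) = δ ⟨_, hmem c⟩ (Y.symm v) := by
      apply Y.injective
      rw [LinearEquiv.apply_symm_apply, hY', LinearEquiv.apply_symm_apply]
    have e2 : B.symm (δ ⟨_, hmem c⟩ (Y.symm v)) = σ c (B.symm (Y.symm v)) := by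
      apply B.injective
      rw [LinearEquiv.apply_symm_apply, hB', LinearEquiv.apply_symm_apply]
    rw [e1, e2, heq]

namespace TnsBAux

variable {T : Subgroup A} {U : Type*} [AddCommGroup U] [Module k U]

/-- the `C`-maps from `δ` to `τ` -/
def hom (hCT : C ≤ T) (δ : Rp k C n) (τ : Representation k T U) :
    Submodule k ((Fin n → k) →ₗ[k] U) where
  carrier := {f | ∀ (c : C) v, f (δ c v) = τ (Subgroup.inclusion hCT c) (f v)}
  add_mem' := by
    intro f f' hf hf' g s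
    rw [LinearMap.add_apply, LinearMap.add_apply, hf, hf', map_add]
  zero_mem' := by
    intro g s
    rw [LinearMap.zero_apply, LinearMap.zero_apply, map_zero]
  smul_mem' := by
    intro t f hf g s
    rw [LinearMap.smul_apply, LinearMap.smul_apply, hf, map_smul]

/-- the operator of `t`, in terms of an element `x` over `t` -/
def base (X : G → A → ((Fin n → k) ≃ₗ[k] (Fin n → k))) (τ : Representation k T U) (t : G) (x : T)
    (φ : (Fin n → k) →ₗ[k] U) : (Fin n → k) →ₗ[k] U :=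
  τ x ∘ₗ φ ∘ₗ (X t (x : A)).symm.toLinearMap

theorem base_apply (τ : Representation k T U) (t : G) (x : T) (φ : (Fin n → k) →ₗ[k] U)
    (v : Fin n → k) : base X τ t x φ v = τ x (φ ((X t (x : A)).symm v)) := rfl

theorem base_mem (h : Lin p C δ ψ X) {hCT : C ≤ T} {τ : Representation k T U} {t : G} {x : T}
    (ht : ψ t = ((x : A) : A ⧸ C)) {φ : (Fin n → k) →ₗ[k] U}
    (hφ : φ ∈ hom hCT δ τ) : base X τ t x φ ∈ hom hCT δ τ := by
  intro c v
  have hmem : (x : A)⁻¹ * c * x ∈ C := by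
    have := Subgroup.Normal.conj_mem (inferInstance : C.Normal) _ c.2 (x : A)⁻¹
    rwa [inv_inv] at this
  have e1 : (X t (x : A)).symm (δ c v) = δ ⟨_, hmem⟩ ((X t (x : A)).symm v) := by
    apply (X t (x : A)).injective
    rw [LinearEquiv.apply_symm_apply, h.itw t x ht ⟨_, hmem⟩ c ?_, LinearEquiv.apply_symm_apply]
    change (c : A) = (x : A) * ((x : A)⁻¹ * c * x) * (x : A)⁻¹
    group
  have e2 : x * Subgroup.inclusion hCT ⟨_, hmem⟩ = Subgroup.inclusion hCT c * x := by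
    apply Subtype.ext
    change (x : A) * ((x : A)⁻¹ * c * x) = c * x
    group
  rw [base_apply, base_apply, e1, hφ, ← Module.End.mul_apply (τ x), ← map_mul,
    ← Module.End.mul_apply (τ _) (τ x), ← map_mul, e2]

theorem base_indep (h : Lin p C δ ψ X) {hCT : C ≤ T} {τ : Representation k T U} {t : G} {x y : T}
    (hx : ψ t = ((x : A) : A ⧸ C)) (hy : ψ t = ((y : A) : A ⧸ C))
    {φ : (Fin n → k) →ₗ[k] U}
    (hφ : φ ∈ hom hCT δ τ) : base X τ t x φ = base X τ t y φ := by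
  refine LinearMap.ext fun v => ?_
  have hc : (x : A)⁻¹ * y ∈ C := QuotientGroup.eq.1 (hx.symm.trans hy)
  have hy' : (y : A) = (x : A) * ((⟨_, hc⟩ : C) : A) := by
    change (y : A) = (x : A) * ((x : A)⁻¹ * y)
    group
  obtain ⟨w, rfl⟩ := (X t (y : A)).surjective v
  rw [base_apply, base_apply, LinearEquiv.symm_apply_apply]
  have e1 : X t (y : A) w = X t (x : A) (δ ⟨_, hc⟩ w) := by
    conv_lhs => rw [hy']
    exact h.mul_res hx ⟨_, hc⟩ w
  have e2 : x * Subgroup.inclusion hCT ⟨_, hc⟩ = y := by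
    apply Subtype.ext
    change (x : A) * ((x : A)⁻¹ * y) = y
    group
  rw [e1, LinearEquiv.symm_apply_apply, hφ, ← Module.End.mul_apply (τ x), ← map_mul, e2]

theorem base_one (h : Lin p C δ ψ X) {τ : Representation k T U} (φ : (Fin n → k) →ₗ[k] U) :
    base X τ 1 1 φ = φ := by
  refine LinearMap.ext fun v => ?_
  rw [base_apply, map_one, Module.End.one_apply]
  congr 1
  apply (X 1 ((1 : T) : A)).injective
  rw [LinearEquiv.apply_symm_apply]
  exact (h.one_one v).symm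

theorem base_mul (h : Lin p C δ ψ X) {τ : Representation k T U} {t s : G} {x y : T}
    (hx : ψ t = ((x : A) : A ⧸ C)) (hy : ψ s = ((y : A) : A ⧸ C))
    (φ : (Fin n → k) →ₗ[k] U) :
    base X τ (t * s) (x * y) φ = base X τ t x (base X τ s y φ) := by
  refine LinearMap.ext fun v => ?_
  rw [base_apply, base_apply, base_apply, map_mul, Module.End.mul_apply]
  congr 3
  apply (X (t * s) ((x * y : T) : A)).injective
  rw [LinearEquiv.apply_symm_apply]
  have h1 := h.mul t s (x : A) (y : A) hx hy ((X s (y : A)).symm ((X t (x : A)).symm v))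
  rw [LinearEquiv.apply_symm_apply, LinearEquiv.apply_symm_apply] at h1
  exact h1.symm

/-- an element over `t` -/
noncomputable def xt (t : Ls ψ T) : T :=
  ⟨(mem_Ls.1 t.2).choose, (mem_Ls.1 t.2).choose_spec.1⟩

theorem xt_spec (t : Ls ψ T) : ψ (t : G) = ((xt t : A) : A ⧸ C) :=
  (mem_Ls.1 t.2).choose_spec.2

/-- the action of `Ls ψ T` on the `C`-maps -/
noncomputable def S₀ (h : Lin p C δ ψ X) (hCT : C ≤ T) (τ : Representation k T U) :
    Representation k (Ls ψ T) (hom hCT δ τ) where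
  toFun t :=
    { toFun := fun φ => ⟨base X τ t (xt t) φ, base_mem h (xt_spec t) φ.2⟩
      map_add' := fun a b => Subtype.ext (LinearMap.ext fun v => map_add (τ (xt t)) _ _)
      map_smul' := fun c a => Subtype.ext (LinearMap.ext fun v => map_smul (τ (xt t)) _ _) }
  map_one' := by
    refine LinearMap.ext fun φ => Subtype.ext ?_
    change base X τ ((1 : Ls ψ T) : G) (xt (1 : Ls ψ T)) φ = φ
    rw [base_indep h (xt_spec (1 : Ls ψ T)) (y := 1) (by rw [Subgroup.coe_one, map_one]; rfl) φ.2]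
    exact base_one h _
  map_mul' := fun t s => by
    refine LinearMap.ext fun φ => Subtype.ext ?_
    change base X τ ((t * s : Ls ψ T) : G) (xt (t * s)) φ
      = base X τ t (xt t) (base X τ s (xt s) φ)
    rw [base_indep h (xt_spec (t * s)) (y := xt t * xt s) ?_ φ.2]
    · exact base_mul h (xt_spec t) (xt_spec s) _
    · rw [Subgroup.coe_mul, map_mul, xt_spec t, xt_spec s]
      rfl

theorem S₀_apply (h : Lin p C δ ψ X) (hCT : C ≤ T) (τ : Representation k T U) (t : Ls ψ T) (x : T)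
    (hx : ψ (t : G) = ((x : A) : A ⧸ C)) (φ : hom hCT δ τ) (v : Fin n → k) :
    ((S₀ h hCT τ t φ : hom hCT δ τ) : (Fin n → k) →ₗ[k] U) v
      = τ x ((φ : (Fin n → k) →ₗ[k] U) ((X (t : G) (x : A)).symm v)) := by
  change base X τ t (xt t) φ v = _
  rw [base_indep h (xt_spec t) hx φ.2]
  rfl

/-- the evaluation -/
noncomputable def ev (hCT : C ≤ T) (δ : Rp k C n) (τ : Representation k T U) :
    (Fin n → hom hCT δ τ) →ₗ[k] U where
  toFun f := ∑ i, (f i : (Fin n → k) →ₗ[k] U) (Pi.single i 1)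
  map_add' f f' := by
    simp only [Pi.add_apply, Submodule.coe_add, LinearMap.add_apply, Finset.sum_add_distrib]
  map_smul' t f := by
    simp only [Pi.smul_apply, Submodule.coe_smul, LinearMap.smul_apply, RingHom.id_apply,
      Finset.smul_sum]

theorem ev_apply {hCT : C ≤ T} {τ : Representation k T U} (f : Fin n → hom hCT δ τ) :
    ev hCT δ τ f = ∑ i, (f i : (Fin n → k) →ₗ[k] U) (Pi.single i 1) := rfl

theorem ev_kr {hCT : C ≤ T} {τ : Representation k T U} (a : Module.End k (Fin n → k))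
    (B : Module.End k (hom hCT δ τ)) (f : Fin n → hom hCT δ τ) :
    ev hCT δ τ (Un8.kr a B f)
      = ∑ j, ((B (f j) : hom hCT δ τ) : (Fin n → k) →ₗ[k] U) (a (Pi.single j 1)) := by
  rw [ev_apply]
  simp only [Un8.kr_apply, Submodule.coe_sum, Submodule.coe_smul,
    LinearMap.sum_apply, LinearMap.smul_apply]
  rw [Finset.sum_comm]
  refine Finset.sum_congr rfl fun j _ => ?_
  have h1 : a (Pi.single j 1) = ∑ i, a (Pi.single j 1) i • (Pi.single i 1 : Fin n → k) := by
    conv_lhs => rw [← Finset.univ_sum_single (a (Pi.single j 1))]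
    refine Finset.sum_congr rfl fun i _ => ?_
    rw [← Pi.single_smul, smul_eq_mul, mul_one]
  conv_rhs => rw [h1, map_sum]
  refine Finset.sum_congr rfl fun i _ => ?_
  rw [map_smul]

theorem ev_single {hCT : C ≤ T} {τ : Representation k T U} (i : Fin n) (φ : hom hCT δ τ) :
    ev hCT δ τ (Pi.single i φ) = (φ : (Fin n → k) →ₗ[k] U) (Pi.single i 1) := by
  rw [ev_apply, Finset.sum_eq_single i]
  · rw [Pi.single_eq_same]
  · intro l _ hl
    rw [Pi.single_eq_of_ne hl]
    rfl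
  · intro h2; exact absurd (Finset.mem_univ _) h2

theorem ext_single {hCT : C ≤ T} {τ : Representation k T U} {φ : hom hCT δ τ}
    (h0 : ∀ i, (φ : (Fin n → k) →ₗ[k] U) (Pi.single i 1) = 0) : φ = 0 := by
  apply Subtype.ext
  refine LinearMap.pi_ext' fun i => LinearMap.ext_ring ?_
  exact h0 i

theorem ev_act (h : Lin p C δ ψ X) {hCT : C ≤ T} {τ : Representation k T U} (t : Ls ψ T) (x : T)
    (hx : ψ (t : G) = ((x : A) : A ⧸ C)) (f : Fin n → hom hCT δ τ) :
    ev hCT δ τ (Un8.kr (X (t : G) (x : A)).toLinearMap (S₀ h hCT τ t) f)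
      = τ x (ev hCT δ τ f) := by
  rw [ev_kr, ev_apply, map_sum]
  refine Finset.sum_congr rfl fun j _ => ?_
  rw [S₀_apply h hCT τ t x hx]
  congr 2
  exact (X (t : G) (x : A)).symm_apply_apply _

theorem exists_t (h : Lin p C δ ψ X) (hT : T ≤ stD C δ) (x : T) :
    ∃ t : Ls ψ T, ψ (t : G) = ((x : A) : A ⧸ C) := by
  obtain ⟨Y, hY⟩ := hT x.2
  obtain ⟨t, ht⟩ := h.onto x Y hY
  exact ⟨⟨t, mem_Ls.2 ⟨x, x.2, ht⟩⟩, ht⟩

theorem ev_surj (h : Lin p C δ ψ X) {hCT : C ≤ T}
    (hT : T ≤ stD C δ) {τ : Representation k T U} (hτ : Irr' τ)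
    (ho : ∃ j : (Fin n → k) →ₗ[k] U, Function.Injective j ∧
      ∀ (c : C) v, j (δ c v) = τ (Subgroup.inclusion hCT c) (j v)) :
    Function.Surjective (ev hCT δ τ) := by
  rw [← LinearMap.range_eq_top]
  have hst : ∀ g, ∀ w ∈ LinearMap.range (ev hCT δ τ), τ g w ∈ LinearMap.range (ev hCT δ τ) := by
    rintro g _ ⟨f, rfl⟩
    obtain ⟨t, ht⟩ := exists_t h hT g
    exact ⟨_, ev_act h t g ht f⟩
  rcases hτ.sub _ hst with h1 | h1
  · exfalso
    obtain ⟨j, hj, hj'⟩ := ho
    have hjm : j ∈ hom hCT δ τ := hj'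
    have h2 : (⟨j, hjm⟩ : hom hCT δ τ) = 0 := by
      apply ext_single
      intro i
      have h3 : ev hCT δ τ (Pi.single i ⟨j, hjm⟩) ∈ LinearMap.range (ev hCT δ τ) := ⟨_, rfl⟩
      rw [h1, Submodule.mem_bot, ev_single] at h3
      exact h3
    obtain ⟨v, hv⟩ := h.exists_ne
    apply hv
    apply hj
    have h4 : j = 0 := congrArg Subtype.val h2
    rw [h4]
    rfl
  · exact h1

theorem hom_act [Finite A] {hCT : C ≤ T} {τ : Representation k T U} (φ : hom hCT δ τ)
    (u : MonoidAlgebra k A) (hu : SuppIn C u) (v : Fin n → k) :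
    (φ : (Fin n → k) →ₗ[k] U) (act δ u v)
      = act τ u ((φ : (Fin n → k) →ₗ[k] U) v) := by
  have : Fintype C := Fintype.ofFinite _
  have : Fintype T := Fintype.ofFinite _
  rw [act_apply, act_apply, map_sum]
  apply Fintype.sum_of_injective (fun g : C => Subgroup.inclusion hCT g)
    (Subgroup.inclusion_injective hCT)
  · intro x hx
    have h2 : u.coeff (x : A) = 0 := by
      by_contra h3
      exact hx ⟨⟨x, hu x h3⟩, rfl⟩
    rw [h2, zero_smul]
  · intro g
    rw [map_smul, φ.2]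
    rfl

theorem ev_inj [IsAlgClosed k] [Finite A] (hδ : Irr' δ) {hCT : C ≤ T} {τ : Representation k T U} :
    Function.Injective (ev hCT δ τ) := by
  rw [← LinearMap.ker_eq_bot]
  obtain ⟨W₀, hW₀⟩ := Un8.kr_sub (LinearMap.ker (ev hCT δ τ)) (by
    intro a f hf
    obtain ⟨u, hu, rfl⟩ := Un8.exists_act hδ a
    rw [LinearMap.mem_ker] at hf ⊢
    rw [ev_kr]
    have e1 : ∑ j, ((((1 : Module.End k (hom hCT δ τ)) (f j)) : hom hCT δ τ) :
        (Fin n → k) →ₗ[k] U) (act δ u (Pi.single j 1)) = act τ u (ev hCT δ τ f) := by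
      rw [ev_apply, map_sum]
      refine Finset.sum_congr rfl fun j _ => ?_
      exact hom_act (f j) u hu _
    rw [e1, hf, map_zero])
  rw [eq_bot_iff]
  intro f hf
  rw [Submodule.mem_bot]
  funext i
  have h1 := (hW₀ f).1 hf i
  have h2 : f i = 0 := by
    apply ext_single
    intro j
    have h3 : (Pi.single j (f i) : Fin n → hom hCT δ τ) ∈ LinearMap.ker (ev hCT δ τ) := by
      rw [hW₀]
      intro m
      by_cases hm : m = j
      · subst hm
        rw [Pi.single_eq_same]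
        exact h1
      · rw [Pi.single_eq_of_ne hm]
        exact W₀.zero_mem
    rw [LinearMap.mem_ker, ev_single] at h3
    exact h3
  rw [h2]
  rfl

theorem S₀_irr [IsAlgClosed k] [Finite A] (h : Lin p C δ ψ X) {hCT : C ≤ T}
    (hT : T ≤ stD C δ) {τ : Representation k T U} (hτ : Irr' τ)
    (ho : ∃ j : (Fin n → k) →ₗ[k] U, Function.Injective j ∧
      ∀ (c : C) v, j (δ c v) = τ (Subgroup.inclusion hCT c) (j v)) :
    Irr' (S₀ h hCT τ) := by
  refine ⟨?_, ?_⟩
  · obtain ⟨j, hj, hj'⟩ := ho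
    have hjm : j ∈ hom hCT δ τ := hj'
    refine ⟨⟨j, hjm⟩, 0, fun h2 => ?_⟩
    obtain ⟨v, hv⟩ := h.exists_ne
    apply hv
    apply hj
    have h4 : j = 0 := congrArg Subtype.val h2
    rw [h4]
    rfl
  · intro W hW
    have hst : ∀ g, ∀ w ∈ (Submodule.pi Set.univ (fun _ : Fin n => W)).map (ev hCT δ τ),
        τ g w ∈ (Submodule.pi Set.univ (fun _ : Fin n => W)).map (ev hCT δ τ) := by
      rintro g _ ⟨f, hf, rfl⟩
      obtain ⟨t, ht⟩ := exists_t h hT g
      refine ⟨_, ?_, ev_act h t g ht f⟩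
      rw [SetLike.mem_coe, Submodule.mem_pi] at hf ⊢
      intro i _
      rw [Un8.kr_apply]
      exact W.sum_mem fun j _ => W.smul_mem _ (hW t _ (hf j (Set.mem_univ j)))
    rcases hτ.sub _ hst with h1 | h1
    · left
      rw [eq_bot_iff]
      intro φ hφ
      rw [Submodule.mem_bot]
      apply ext_single
      intro i
      have h3 : ev hCT δ τ (Pi.single i φ) ∈
          (Submodule.pi Set.univ (fun _ : Fin n => W)).map (ev hCT δ τ) := by
        refine ⟨_, ?_, rfl⟩
        rw [SetLike.mem_coe, Submodule.mem_pi]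
        intro m _
        by_cases hm : m = i
        · subst hm
          rw [Pi.single_eq_same]
          exact hφ
        · rw [Pi.single_eq_of_ne hm]
          exact W.zero_mem
      rw [h1, Submodule.mem_bot, ev_single] at h3
      exact h3
    · right
      rw [eq_top_iff]
      intro φ _
      obtain ⟨v, hv⟩ := h.exists_ne
      obtain ⟨i, -⟩ : ∃ i, v i ≠ 0 := by
        by_contra hc
        push Not at hc
        exact hv (funext hc)
      have h3 : ev hCT δ τ (Pi.single i φ) ∈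
          (Submodule.pi Set.univ (fun _ : Fin n => W)).map (ev hCT δ τ) := by
        rw [h1]
        exact Submodule.mem_top
      obtain ⟨f, hf, hfe⟩ := h3
      have h4 := ev_inj h.irr hfe
      rw [SetLike.mem_coe, Submodule.mem_pi] at hf
      have h5 := hf i (Set.mem_univ i)
      rw [h4, Pi.single_eq_same] at h5
      exact h5

theorem exists_S' [IsAlgClosed k] [Finite A] [Module.Finite k U] (h : Lin p C δ ψ X)
    (hCT : C ≤ T) (hT : T ≤ stD C δ) {τ : Representation k T U} (hτ : Irr' τ)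
    (ho : ∃ j : (Fin n → k) →ₗ[k] U, Function.Injective j ∧
      ∀ (c : C) v, j (δ c v) = τ (Subgroup.inclusion hCT c) (j v)) :
    ∃ (m : ℕ) (S : Rp k (Ls ψ T) m) (P : (Fin n → (Fin m → k)) ≃ₗ[k] U),
      Irr' S ∧ TR ψ X T τ S P := by
  let E : (hom hCT δ τ) ≃ₗ[k] (Fin (Module.finrank k (hom hCT δ τ)) → k) :=
    (Module.finBasis k (hom hCT δ τ)).equivFun
  let P₀ : (Fin n → hom hCT δ τ) ≃ₗ[k] U :=
    LinearEquiv.ofBijective (ev hCT δ τ) ⟨ev_inj h.irr, ev_surj h hT hτ ho⟩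
  refine ⟨_, trRep (S₀ h hCT τ) E, (LinearEquiv.piCongrRight fun _ => E.symm).trans P₀,
    (S₀_irr h hT hτ ho).trRep E, ?_⟩
  intro t x ht f
  change ev hCT δ τ (fun i => E.symm (Un8.kr (X (t : G) (x : A)).toLinearMap
    (trRep (S₀ h hCT τ) E t) f i)) = τ x (ev hCT δ τ (fun i => E.symm (f i)))
  rw [← ev_act h t x ht]
  congr 1
  funext i
  rw [Un8.kr_apply, Un8.kr_apply, map_sum]
  refine Finset.sum_congr rfl fun j _ => ?_
  rw [map_smul]
  congr 1
  rw [LinearEquiv.symm_apply_eq, ← trRep_apply, LinearEquiv.apply_symm_apply]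

end TnsBAux

open TnsBAux

theorem Lin.exists_S [IsAlgClosed k] [Finite A] (h : Lin p C δ ψ X) {T : Subgroup A}
    (hCT : C ≤ T) (hT : T ≤ stD C δ) {l : ℕ} {τ : Rp k T l} (hτ : Irr' τ)
    (ho : Over hCT τ δ) :
    ∃ (m : ℕ) (S : Rp k (Ls ψ T) m) (P : (Fin n → (Fin m → k)) ≃ₗ[k] (Fin l → k)),
      Irr' S ∧ TR ψ X T τ S P :=
  exists_S' h hCT hT hτ (exists_emb hCT hT h.irr hτ ho)

end Pool.Agent.Lib.P0c8ca5.Ii
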