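import Mathlib
import Pool.Agent.Lib.P0c8ca5I.TnsD

/-!
# Module TnsC: properties of `TR`

`C ≤ T ≤ stD C δ`.  `Un8.kr a B` is the operator `a ⊗ B` on `Fin n → W`: P0c8ca5U.Kr has `kr_apply`, `kr_comp`, `kr_one`, `kr_smul_left`,
`kr_smul_right`, `kr_single`, `kr_right_inj`, `kr_cent`, `kr_sub`, `exists_act` (density), `act_hom`.

PROOF of `TR.ker`.  `x = 1`, `t = z`: `kr (X z 1) (S z) f = f`, `X z 1 = ze z • 1` (`h.ze_spec`), so `kr 1 (ze z • S z) = kr 1 1`; `kr_right_inj`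
(`1 ≠ 0` on `Fin n → k` by `h.exists_ne`).
PROOF of `TR.iso_iff`.  `→`: `P' ∘ kr 1 Q ∘ P⁻¹` for an isomorphism `Q`: `kr 1 Q` commutes with `kr (X t x) (S t)`, `kr (X t x) (S' t)` by
`kr_comp`; every `x ∈ T` has a `t` with `ψ t = x C` (`h.onto`), and `t ∈ Ls ψ T`.  `←`: an isomorphism gives a bijective
`F = P'⁻¹ ∘ R ∘ P : (Fin n → W) → (Fin n → W')` with `F (kr (X t x) (S t) g) = kr (X t x) (S' t) (F g)`; for `t = 1`, `x = c ∈ C` (`h.res`): it
commutes with `kr (δ c) 1`, so with all `kr a 1` (`exists_act h.irr`: `a = act δ u`, linearity), so `F = kr 1 Q` (`kr_cent`); the same for the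
inverse, so `Q` is bijective (`kr_right_inj`).  Then `kr (X t x) (Q ∘ S t) = kr (X t x) (S' t ∘ Q)`, and `kr_right_inj` gives `Q (S t w) = S' t (Q w)`
(every `t ∈ Ls ψ T` has an `x ∈ T`, `mem_Ls`).
PROOF of `TR.act_eq`.  For `t ∈ Ls ψ T` and `x ∈ T` with `ψ t = x C`: `∑ f(x c) τ(x c) (P g) = ∑ f(x c) P (kr (X t x ∘ δ c) (S t) g)
= P (kr (X t x ∘ opS f x) (S t) g) = be f t • P (kr 1 (S t) g)`, sums over `c ∈ C` (`h.mul_res`, `h.be_spec`, `opS_apply`); the left side is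
`∑ f(y) τ y (P g)` over the `y ∈ T` with `ψ t = y C`.  Sum over all `t ∈ Ls ψ T` and exchange the sums: the number of the `t` with `ψ t = y C`
is `|ker ψ|` for all `y ∈ T` (`h.onto`, `T ≤ stD C δ`), so `|ker ψ| act τ f (P g) = P (kr 1 (∑ be f t • S t) g) = |ker ψ| P (kr 1 (act S (stF f)) g)`
(`coeff_stF`, `act_apply`); divide by `h.card_ker_ne`.
PROOF of `TR.act_one_iff`.  `TR.act_eq`, `kr_right_inj`.
PROOF of `Lin.ker_of_act`.  By `h.stF_ker` the coefficients satisfy `(stF f) * single z⁻¹ 1 = ze z • stF f` (`z` is central, `h.ker_central`), so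
`act S (stF f) * S z⁻¹ = ze z • act S (stF f)` (`act_mul`, `act` of `single`: `LnBAux.act_sg` as used in P0c8ca5U.CmE; `stF f` is supported in `Ls ψ T`
by `h.stF_supp`), so `S z⁻¹ = ze z • 1` and `S z = (ze z)⁻¹ • 1`.
-/

set_option autoImplicit false

namespace Pool.Agent.Lib.P0c8ca5.Ii

open MonoidAlgebra Ps Bq Zz Gg Cy

variable {p : ℕ} {k : Type*} [Field k] {A G : Type*} [Group A] [Group G] {C : Subgroup A}
  [C.Normal] {n : ℕ} {δ : Rp k C n} {ψ : G →* A ⧸ C}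
  {X : G → A → ((Fin n → k) ≃ₗ[k] (Fin n → k))}
  {U W U' W' : Type*} [AddCommGroup U] [Module k U] [AddCommGroup W] [Module k W]
  [AddCommGroup U'] [Module k U'] [AddCommGroup W'] [Module k W'] {T : Subgroup A}
  {τ : Representation k T U} {S : Representation k (Ls ψ T) W} {P : (Fin n → W) ≃ₗ[k] U}
  {τ' : Representation k T U'} {S' : Representation k (Ls ψ T) W'}
  {P' : (Fin n → W') ≃ₗ[k] U'}

namespace TnsCAux

theorem one_ne (h : Lin p C δ ψ X) : (1 : Module.End k (Fin n → k)) ≠ 0 := by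
  obtain ⟨v, hv⟩ := h.exists_ne
  intro h0
  exact hv (LinearMap.congr_fun h0 v)

theorem equiv_ne (h : Lin p C δ ψ X) (Y : (Fin n → k) ≃ₗ[k] (Fin n → k)) :
    Y.toLinearMap ≠ 0 := by
  obtain ⟨v, hv⟩ := h.exists_ne
  intro h0
  apply hv
  rw [← LinearEquiv.map_eq_zero_iff Y]
  exact LinearMap.congr_fun h0 v

theorem kr_one_left_apply (B : W →ₗ[k] W') (f : Fin n → W) (i : Fin n) :
    Un8.kr (1 : Module.End k (Fin n → k)) B f i = B (f i) := by
  rw [Un8.kr_apply, Finset.sum_eq_single i]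
  · rw [Module.End.one_apply, Pi.single_eq_same, one_smul]
  · intro j _ hj
    rw [Module.End.one_apply, Pi.single_eq_of_ne (Ne.symm hj), zero_smul]
  · intro h; exact absurd (Finset.mem_univ _) h

/-- `1 ⊗ Q` commutes past `a ⊗ B` -/
theorem kr_swap (a : Module.End k (Fin n → k)) {Q : W →ₗ[k] W'} {B : Module.End k W}
    {B' : Module.End k W'} (hQ : ∀ w, Q (B w) = B' (Q w)) (f : Fin n → W) :
    Un8.kr (1 : Module.End k (Fin n → k)) Q (Un8.kr a B f)
      = Un8.kr a B' (Un8.kr (1 : Module.End k (Fin n → k)) Q f) := by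
  rw [Un8.kr_comp, Un8.kr_comp]
  have h1 : (1 : Module.End k (Fin n → k)) ∘ₗ a = a ∘ₗ (1 : Module.End k (Fin n → k)) := by
    ext; rfl
  have h2 : Q ∘ₗ B = B' ∘ₗ Q := LinearMap.ext hQ
  rw [h1, h2]

theorem exists_t (h : Lin p C δ ψ X) (hT : T ≤ stD C δ) (x : T) :
    ∃ t : Ls ψ T, ψ (t : G) = ((x : A) : A ⧸ C) := by
  obtain ⟨t, ht⟩ := h.mem_stD_iff.1 (hT x.2)
  exact ⟨⟨t, mem_Ls.2 ⟨x, x.2, ht⟩⟩, ht⟩

theorem exists_x (t : Ls ψ T) : ∃ x : T, ψ (t : G) = ((x : A) : A ⧸ C) := by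
  obtain ⟨x, hx, ht⟩ := mem_Ls.1 t.2
  exact ⟨⟨x, hx⟩, ht⟩

/-- one half of `iso_iff` -/
theorem iso_mp (h1 : TR ψ X T τ S P) (h2 : TR ψ X T τ' S' P')
    (h : Lin p C δ ψ X) (hT : T ≤ stD C δ) (hi : Iso S S') : Iso τ τ' := by
  obtain ⟨Q, hQ⟩ := hi
  let E : (Fin n → W) ≃ₗ[k] (Fin n → W') := LinearEquiv.piCongrRight (fun _ => Q)
  have hE : ∀ f, E f = Un8.kr (1 : Module.End k (Fin n → k)) Q.toLinearMap f := by
    intro f
    funext i
    rw [kr_one_left_apply]
    rfl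
  refine ⟨(P.symm.trans E).trans P', fun x v => ?_⟩
  obtain ⟨f, rfl⟩ := P.surjective v
  obtain ⟨t, ht⟩ := exists_t h hT x
  rw [← h1 t x ht f]
  simp only [LinearEquiv.trans_apply, LinearEquiv.symm_apply_apply]
  rw [← h2 t x ht, hE, hE]
  congr 1
  exact kr_swap _ (hQ t) f

theorem intw (h1 : TR ψ X T τ S P) (h2 : TR ψ X T τ' S' P') {R : U ≃ₗ[k] U'}
    (hR : ∀ (x : T) (v : U), R (τ x v) = τ' x (R v)) (t : Ls ψ T) (x : T)
    (ht : ψ (t : G) = ((x : A) : A ⧸ C)) (g : Fin n → W) :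
    ((P.trans R).trans P'.symm) (Un8.kr (X (t : G) (x : A)).toLinearMap (S t) g)
      = Un8.kr (X (t : G) (x : A)).toLinearMap (S' t) (((P.trans R).trans P'.symm) g) := by
  simp only [LinearEquiv.trans_apply]
  rw [h1 t x ht, hR, LinearEquiv.symm_apply_eq, h2 t x ht, LinearEquiv.apply_symm_apply]

theorem kr_sum {ι : Type*} (s : Finset ι) (a : ι → Module.End k (Fin n → k)) (B : W →ₗ[k] W')
    (g : Fin n → W) : Un8.kr (∑ i ∈ s, a i) B g = ∑ i ∈ s, Un8.kr (a i) B g := by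
  funext i
  rw [Un8.kr_apply, Finset.sum_apply]
  simp only [Un8.kr_apply, LinearMap.sum_apply, Finset.sum_apply, Finset.sum_smul]
  exact Finset.sum_comm

theorem kr_sum_right {ι : Type*} (s : Finset ι) (a : Module.End k (Fin n → k))
    (B : ι → Module.End k W)
    (g : Fin n → W) : Un8.kr a (∑ i ∈ s, B i) g = ∑ i ∈ s, Un8.kr a (B i) g := by
  funext i
  rw [Un8.kr_apply, Finset.sum_apply]
  simp only [Un8.kr_apply, LinearMap.sum_apply, Finset.smul_sum]
  exact Finset.sum_comm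

theorem comm_all [IsAlgClosed k] [Finite A] (h1 : TR ψ X T τ S P) (h2 : TR ψ X T τ' S' P')
    (h : Lin p C δ ψ X) (hCT : C ≤ T) {R : U ≃ₗ[k] U'}
    (hR : ∀ (x : T) (v : U), R (τ x v) = τ' x (R v)) (a : Module.End k (Fin n → k))
    (g : Fin n → W) :
    ((P.trans R).trans P'.symm) (Un8.kr a (1 : Module.End k W) g)
      = Un8.kr a (1 : Module.End k W') (((P.trans R).trans P'.symm) g) := by
  obtain ⟨u, -, rfl⟩ := Un8.exists_act h.irr a
  have : Fintype C := Fintype.ofFinite C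
  have hc : ∀ c : C, ((P.trans R).trans P'.symm) (Un8.kr (δ c) (1 : Module.End k W) g)
      = Un8.kr (δ c) (1 : Module.End k W') (((P.trans R).trans P'.symm) g) := by
    intro c
    have h3 := intw h1 h2 hR (1 : Ls ψ T) ⟨(c : A), hCT c.2⟩ (mk_one_of_mem c.2) g
    have h4 : (X ((1 : Ls ψ T) : G) ((⟨(c : A), hCT c.2⟩ : T) : A)).toLinearMap = δ c :=
      LinearMap.ext fun v => h.res c v
    rw [h4, map_one, map_one] at h3
    exact h3
  have h5 : act δ u = ∑ c : C, u.coeff (c : A) • δ c := by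
    ext1
    rw [act, finsum_eq_sum_of_fintype]
  rw [h5, kr_sum, kr_sum, map_sum]
  refine Finset.sum_congr rfl fun c _ => ?_
  rw [Un8.kr_smul_left, Un8.kr_smul_left, LinearMap.smul_apply, LinearMap.smul_apply, map_smul, hc]

theorem iso_mpr [IsAlgClosed k] [Finite A] (h1 : TR ψ X T τ S P) (h2 : TR ψ X T τ' S' P')
    (h : Lin p C δ ψ X) (hCT : C ≤ T) (hi : Iso τ τ') : Iso S S' := by
  obtain ⟨R, hR⟩ := hi
  have hR' : ∀ (x : T) (v : U'), R.symm (τ' x v) = τ x (R.symm v) := by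
    intro x v
    rw [LinearEquiv.symm_apply_eq, hR, LinearEquiv.apply_symm_apply]
  obtain ⟨F, hF⟩ : ∃ F, F = (P.trans R).trans P'.symm := ⟨_, rfl⟩
  have hFs : F.symm = (P'.trans R.symm).trans P.symm := by
    rw [hF]; rfl
  obtain ⟨Q, hQ⟩ := Un8.kr_cent F.toLinearMap (fun a f => by
    rw [hF]; exact comm_all h1 h2 h hCT hR a f)
  obtain ⟨Q', hQ'⟩ := Un8.kr_cent F.symm.toLinearMap (fun a f => by
    rw [hFs]; exact comm_all h2 h1 h hCT hR' a f)
  have hQ1 : ∀ f, F f = Un8.kr (1 : Module.End k (Fin n → k)) Q f :=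
    fun f => LinearMap.congr_fun hQ f
  have hQ1' : ∀ f, F.symm f = Un8.kr (1 : Module.End k (Fin n → k)) Q' f :=
    fun f => LinearMap.congr_fun hQ' f
  have hid : (1 : Module.End k (Fin n → k)) ∘ₗ (1 : Module.End k (Fin n → k)) = 1 := by
    ext; rfl
  have e1 : Q' ∘ₗ Q = (1 : Module.End k W) := by
    refine Un8.kr_right_inj (one_ne h) (LinearMap.ext fun f => ?_)
    rw [Un8.kr_one, ← hid, ← Un8.kr_comp, ← hQ1, ← hQ1', LinearEquiv.symm_apply_apply]
  have e2 : Q ∘ₗ Q' = (1 : Module.End k W') := by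
    refine Un8.kr_right_inj (one_ne h) (LinearMap.ext fun f => ?_)
    rw [Un8.kr_one, ← hid, ← Un8.kr_comp, ← hQ1', ← hQ1, LinearEquiv.apply_symm_apply]
  refine ⟨LinearEquiv.ofLinearMap Q Q' e2 e1, fun t w => ?_⟩
  obtain ⟨x, ht⟩ := exists_x t
  have h3 : Un8.kr (X (t : G) (x : A)).toLinearMap (Q ∘ₗ S t)
      = Un8.kr (X (t : G) (x : A)).toLinearMap (S' t ∘ₗ Q) := by
    refine LinearMap.ext fun g => ?_
    have h4 := intw h1 h2 hR t x ht g
    rw [← hF, hQ1, hQ1, Un8.kr_comp, Un8.kr_comp] at h4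
    exact h4
  exact LinearMap.congr_fun (Un8.kr_right_inj (equiv_ne h _) h3) w

theorem act_smul' [Finite A] {N : Subgroup A} {V : Type*} [AddCommGroup V] [Module k V]
    (ρ : Representation k N V) (s : k) (a : MonoidAlgebra k A) :
    act ρ (s • a) = s • act ρ a := by
  have : Fintype N := Fintype.ofFinite N
  ext v
  rw [LinearMap.smul_apply, act_apply, act_apply, Finset.smul_sum]
  refine Finset.sum_congr rfl (fun x _ => ?_)
  rw [coeff_smul, Finsupp.smul_apply, smul_assoc]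

theorem fib_card [Finite A] [Fintype G] (h : Lin p C δ ψ X) (hT : T ≤ stD C δ) (x : T)
    [Fintype (Ls ψ T)] [DecidablePred fun t : Ls ψ T => ψ (t : G) = ((x : A) : A ⧸ C)] :
    (Finset.univ.filter fun t : Ls ψ T => ψ (t : G) = ((x : A) : A ⧸ C)).card
      = Nat.card ψ.ker := by
  obtain ⟨t0, ht0⟩ := exists_t h hT x
  rw [← Fintype.card_subtype, ← Nat.card_eq_fintype_card]
  refine Nat.card_congr ⟨fun t => ⟨(t0 : G)⁻¹ * (t.1 : G), ?_⟩,
    fun z => ⟨⟨(t0 : G) * (z : G), ?_⟩, ?_⟩, ?_, ?_⟩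
  · rw [MonoidHom.mem_ker, map_mul, map_inv, ht0, t.2, inv_mul_cancel]
  · refine mem_Ls.2 ⟨x, x.2, ?_⟩
    have hz : ψ (z : G) = 1 := z.2
    rw [map_mul, hz, mul_one, ht0]
  · have hz : ψ (z : G) = 1 := z.2
    change ψ ((t0 : G) * (z : G)) = _
    rw [map_mul, hz, mul_one, ht0]
  · intro t
    apply Subtype.ext
    apply Subtype.ext
    change (t0 : G) * ((t0 : G)⁻¹ * (t.1 : G)) = t.1
    rw [mul_inv_cancel_left]
  · intro z
    apply Subtype.ext
    change (t0 : G)⁻¹ * ((t0 : G) * (z : G)) = z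
    rw [inv_mul_cancel_left]

/-- the sum over the elements of `T` over `ψ t` -/
theorem fib_sum [IsAlgClosed k] [Finite A] [Fintype T] (h1 : TR ψ X T τ S P)
    (h : Lin p C δ ψ X) (hCT : C ≤ T) {f : MonoidAlgebra k A} (hfi : InvBy C f)
    (g : Fin n → W) (t : Ls ψ T)
    [DecidablePred fun x : T => ψ (t : G) = ((x : A) : A ⧸ C)] :
    (∑ x : T, if ψ (t : G) = ((x : A) : A ⧸ C) then f.coeff (x : A) • τ x (P g) else 0)
      = be C δ ψ X f (t : G) • P (Un8.kr (1 : Module.End k (Fin n → k)) (S t) g) := by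
  obtain ⟨x0, ht⟩ := exists_x t
  have : Fintype C := Fintype.ofFinite C
  have e1 : (∑ c : C, f.coeff ((x0 : A) * (c : A)) • P (Un8.kr
        ((X (t : G) (x0 : A)).toLinearMap ∘ₗ δ c) (S t) g))
      = ∑ x : T, if ψ (t : G) = ((x : A) : A ⧸ C) then f.coeff (x : A) • τ x (P g) else 0 := by
    apply Fintype.sum_of_injective (fun c : C => x0 * (⟨(c : A), hCT c.2⟩ : T))
    · intro c c' hc
      have hc1 := congrArg (fun y : T => (y : A)) (mul_left_cancel hc)
      exact Subtype.ext hc1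
    · intro x hx
      rw [if_neg]
      intro hψ
      apply hx
      have h3 : (x0 : A)⁻¹ * (x : A) ∈ C := by
        rw [← QuotientGroup.eq, ← ht, hψ]
      refine ⟨⟨_, h3⟩, ?_⟩
      apply Subtype.ext
      change (x0 : A) * ((x0 : A)⁻¹ * (x : A)) = x
      rw [mul_inv_cancel_left]
    · intro c
      have hψ : ψ (t : G) = (((x0 * (⟨(c : A), hCT c.2⟩ : T) : T) : A) : A ⧸ C) := by
        rw [ht]
        apply QuotientGroup.eq.2
        change (x0 : A)⁻¹ * ((x0 : A) * (c : A)) ∈ C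
        rw [inv_mul_cancel_left]
        exact c.2
      rw [if_pos hψ, ← h1 t _ hψ]
      have h4 : (X (t : G) (x0 : A)).toLinearMap ∘ₗ δ c
          = (X (t : G) ((x0 * (⟨(c : A), hCT c.2⟩ : T) : T) : A)).toLinearMap := by
        refine LinearMap.ext fun v => ?_
        exact (h.mul_res ht c v).symm
      rw [h4]
      rfl
  rw [← e1]
  have e2 : (∑ c : C, f.coeff ((x0 : A) * (c : A)) • P (Un8.kr
        ((X (t : G) (x0 : A)).toLinearMap ∘ₗ δ c) (S t) g))
      = P (Un8.kr (∑ c : C, f.coeff ((x0 : A) * (c : A)) •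
        ((X (t : G) (x0 : A)).toLinearMap ∘ₗ δ c)) (S t) g) := by
    rw [kr_sum, map_sum]
    refine Finset.sum_congr rfl fun c _ => ?_
    rw [Un8.kr_smul_left, LinearMap.smul_apply, map_smul]
  rw [e2]
  have e3 : (∑ c : C, f.coeff ((x0 : A) * (c : A)) •
        ((X (t : G) (x0 : A)).toLinearMap ∘ₗ δ c))
      = be C δ ψ X f (t : G) • (1 : Module.End k (Fin n → k)) := by
    refine LinearMap.ext fun v => ?_
    have h5 := h.be_spec hfi ht v
    rw [opS_apply] at h5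
    rw [LinearMap.sum_apply, LinearMap.smul_apply, Module.End.one_apply]
    have h6 : ∀ c : C, (f.coeff ((x0 : A) * (c : A)) •
        ((X (t : G) (x0 : A)).toLinearMap ∘ₗ δ c)) v
        = X (t : G) (x0 : A) (f.coeff ((x0 : A) * (c : A)) • δ c v) := by
      intro c
      rw [map_smul]
      rfl
    rw [Finset.sum_congr rfl fun c _ => h6 c, ← map_sum, h5, map_smul,
      LinearEquiv.apply_symm_apply]
  rw [e3, Un8.kr_smul_left, LinearMap.smul_apply, map_smul]

end TnsCAux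

theorem TR.ker [IsAlgClosed k] (h1 : TR ψ X T τ S P) (h : Lin p C δ ψ X) {z : Ls ψ T}
    (hz : ψ (z : G) = 1) (w : W) : S z w = (ze X (z : G))⁻¹ • w := by
  have hz1 : ψ (z : G) = (((1 : T) : A) : A ⧸ C) := by rw [hz]; rfl
  have h2 : (X (z : G) ((1 : T) : A)).toLinearMap = ze X (z : G) • (1 : Module.End k (Fin n → k)) :=
    LinearMap.ext fun v => h.ze_spec hz v
  have h3 : Un8.kr (1 : Module.End k (Fin n → k)) (ze X (z : G) • S z)
      = Un8.kr (1 : Module.End k (Fin n → k)) (1 : Module.End k W) := by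
    refine LinearMap.ext fun f => ?_
    have h4 := h1 z 1 hz1 f
    rw [h2, map_one, Un8.kr_smul_left] at h4
    rw [Un8.kr_smul_right, Un8.kr_one]
    exact P.injective h4
  have h5 := LinearMap.congr_fun (Un8.kr_right_inj (TnsCAux.one_ne h) h3) w
  have h6 : ze X (z : G) • S z w = w := h5
  rw [← h6, smul_smul, h6, inv_mul_cancel₀ (h.ze_ne_zero hz), one_smul]

theorem TR.iso_iff [IsAlgClosed k] [Finite A] (h1 : TR ψ X T τ S P) (h2 : TR ψ X T τ' S' P')
    (h : Lin p C δ ψ X) (hCT : C ≤ T) (hT : T ≤ stD C δ) : Iso S S' ↔ Iso τ τ' :=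
  ⟨TnsCAux.iso_mp h1 h2 h hT, TnsCAux.iso_mpr h1 h2 h hCT⟩

theorem TR.act_eq [CharP k p] [IsAlgClosed k] [Finite A] [Fintype G] (h1 : TR ψ X T τ S P)
    (h : Lin p C δ ψ X) (hCT : C ≤ T) (hT : T ≤ stD C δ) {f : MonoidAlgebra k A}
    (hfi : InvBy C f) (g : Fin n → W) :
    act τ f (P g) = P (Un8.kr 1 (act S (stF C δ ψ X f)) g) := by
  classical
  have : Fintype T := Fintype.ofFinite T
  have : Fintype (Ls ψ T) := Fintype.ofFinite _
  have e1 : (∑ t : Ls ψ T, ∑ x : T,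
      if ψ (t : G) = ((x : A) : A ⧸ C) then f.coeff (x : A) • τ x (P g) else 0)
      = (Nat.card ψ.ker : k) • act τ f (P g) := by
    rw [Finset.sum_comm, act_apply, Finset.smul_sum]
    refine Finset.sum_congr rfl fun x _ => ?_
    rw [← Finset.sum_filter, Finset.sum_const, TnsCAux.fib_card h hT x, Nat.cast_smul_eq_nsmul]
  have e2 : (∑ t : Ls ψ T, ∑ x : T,
      if ψ (t : G) = ((x : A) : A ⧸ C) then f.coeff (x : A) • τ x (P g) else 0)
      = (Nat.card ψ.ker : k) • P (Un8.kr 1 (act S (stF C δ ψ X f)) g) := by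
    have e3 : act S (stF C δ ψ X f)
        = ∑ t : Ls ψ T, (stF C δ ψ X f).coeff (t : G) • S t := by
      rw [act, finsum_eq_sum_of_fintype]
    rw [e3, TnsCAux.kr_sum_right, map_sum, Finset.smul_sum]
    refine Finset.sum_congr rfl fun t _ => ?_
    rw [TnsCAux.fib_sum h1 h hCT hfi g t, Un8.kr_smul_right, LinearMap.smul_apply, map_smul,
      smul_smul, coeff_stF, mul_inv_cancel_left₀ h.card_ker_ne]
  rw [e1] at e2
  exact smul_right_injective _ h.card_ker_ne e2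

theorem TR.act_one_iff [CharP k p] [IsAlgClosed k] [Finite A] [Fintype G]
    (h1 : TR ψ X T τ S P) (h : Lin p C δ ψ X) (hCT : C ≤ T) (hT : T ≤ stD C δ)
    {f : MonoidAlgebra k A} (hfi : InvBy C f) :
    act τ f = 1 ↔ act S (stF C δ ψ X f) = 1 := by
  constructor
  · intro h2
    refine Un8.kr_right_inj (TnsCAux.one_ne h) (LinearMap.ext fun g => ?_)
    have h3 := h1.act_eq h hCT hT hfi g
    rw [h2] at h3
    rw [Un8.kr_one]
    exact (P.injective h3).symm
  · intro h2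
    refine LinearMap.ext fun u => ?_
    obtain ⟨g, rfl⟩ := P.surjective u
    rw [h1.act_eq h hCT hT hfi g, h2, Un8.kr_one]
    rfl

theorem Lin.ker_of_act [IsAlgClosed k] [Finite A] [Fintype G] (h : Lin p C δ ψ X)
    {f : MonoidAlgebra k A} (hf : SuppIn T f) (hfi : InvBy C f)
    (hS : act S (stF C δ ψ X f) = 1) {z : Ls ψ T} (hz : ψ (z : G) = 1) (w : W) :
    S z w = (ze X (z : G))⁻¹ • w := by
  classical
  have e1 : single ((z⁻¹ : Ls ψ T) : G) (1 : k) * stF C δ ψ X f = ze X (z : G) • stF C δ ψ X f := by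
    ext t
    rw [coeff_single_mul_apply, one_mul, coeff_smul, Finsupp.smul_apply, smul_eq_mul,
      ← h.stF_ker hfi hz t]
    congr 1
    rw [Subgroup.coe_inv, inv_inv]
  have hsup : SuppIn (Ls ψ T) (single ((z⁻¹ : Ls ψ T) : G) (1 : k)) := by
    intro x hx
    by_contra hne
    apply hx
    rw [coeff_single, Finsupp.single_eq_of_ne]
    intro h0
    exact hne (h0 ▸ (z⁻¹).2)
  have e2 := congrArg (act S) e1
  rw [act_mul S hsup, LnBAux.act_sg S (z⁻¹).2, TnsCAux.act_smul', hS, mul_one] at e2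
  have e3 : S z⁻¹ = ze X (z : G) • (1 : Module.End k W) := e2
  have e4 : ze X (z : G) • S z w = w := by
    have h5 : S z⁻¹ (S z w) = w := by
      rw [← Module.End.mul_apply, ← map_mul, inv_mul_cancel, map_one]
      rfl
    rw [e3] at h5
    exact h5
  rw [← e4, smul_smul, e4, inv_mul_cancel₀ (h.ze_ne_zero hz), one_smul]

end Pool.Agent.Lib.P0c8ca5.Ii
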