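import Mathlib
import Pool.Agent.Lib.P0c8ca5I.TnsA
import Pool.Agent.Lib.P0c8ca5I.TnsB
import Pool.Agent.Lib.P0c8ca5I.TnsC

/-!
# Module Tns: the irreducible representations of `T` over the invariant representation `δ` of `C`

PROOF of `Lin.card_tns`.  `Fr.FrEAux.card_of_rel` (P0c8ca5P.FrE; used as in `Cy.clifford`, P0c8ca5C.CorrC) with the relation
`R x y := ∃ (τ : IrrInv T ⊥ f) (S : IrrInv (Ls ψ T) ⊥ (stF f)) P, ⟦τ⟧ = x.1 ∧ ⟦S⟧ = y ∧ TR ψ X T τ.ρ S.ρ P`.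
`∀ x ∃ y`: `h.exists_S`, `TR.act_one_iff` (`mkIrr`, `act_iff`, `irr_iff`).  `∀ y ∃ x`: `h.ker_of_act`, `h.exists_tau`, `TR.act_one_iff`.
Uniqueness: for `TR τ S P`, `TR τ' S' P'` with `⟦τ⟧ = ⟦τ'⟧`: `TR.iso_iff` gives `⟦S⟧ = ⟦S'⟧` (`mk_eq_mk`), and conversely.
-/

set_option autoImplicit false

namespace Pool.Agent.Lib.P0c8ca5.Ii

open MonoidAlgebra Ps Bq Zz Gg Cy

variable {p : ℕ} {k : Type*} [Field k] {A G : Type*} [Group A] [Group G] {C : Subgroup A}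
  [C.Normal] {n : ℕ} {δ : Rp k C n} {ψ : G →* A ⧸ C}
  {X : G → A → ((Fin n → k) ≃ₗ[k] (Fin n → k))}

/-- the irreducible representations of `T` over `δ` in `f` and those of `Ls ψ T` in `stF f` -/
theorem Lin.card_tns [Fact p.Prime] [CharP k p] [IsAlgClosed k] [Finite A] [Fintype G]
    (h : Lin p C δ ψ X) {T : Subgroup A} (hCT : C ≤ T) (hT : T ≤ stD C δ)
    {f : MonoidAlgebra k A} (hf : SuppIn T f) (hfi : InvBy T f) :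
    Nat.card ↥(OvSet hCT f δ) = Nat.card (IrX (Ls ψ T) (stF C δ ψ X f)) := by
  have hfC : InvBy C f := hfi.mono hCT
  refine Fr.FrEAux.card_of_rel (fun x y => ∃ (τ : IrrInv T ⊥ f)
    (S : IrrInv (Ls ψ T) ⊥ (stF C δ ψ X f))
    (P : (Fin n → (Fin S.n → k)) ≃ₗ[k] (Fin τ.n → k)), (⟦τ⟧ : IrX T f) = x.1 ∧
      (⟦S⟧ : IrX (Ls ψ T) (stF C δ ψ X f)) = y ∧ TR ψ X T τ.ρ S.ρ P) ?_ ?_ ?_ ?_
  · rintro ⟨x, τ, hτ, ho⟩
    obtain ⟨m, S, P, hS, hTR⟩ := h.exists_S hCT hT (irr_iff.1 τ.irr) ho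
    have h4 : act S (stF C δ ψ X f) = 1 :=
      (hTR.act_one_iff h hCT hT hfC).1 (act_iff.2 τ.blk)
    exact ⟨⟦mkIrr S hS h4⟧, τ, mkIrr S hS h4, P, hτ, rfl, hTR⟩
  · intro y
    obtain ⟨S, rfl⟩ := Quotient.exists_rep y
    have hS1 : act S.ρ (stF C δ ψ X f) = 1 := act_iff.2 S.blk
    obtain ⟨l, τ, P, h1, h2, h3⟩ := h.exists_tau hCT hT (irr_iff.1 S.irr)
      (fun z hz w => h.ker_of_act hf hfC hS1 hz w)
    have h4 : act τ f = 1 := (h3.act_one_iff h hCT hT hfC).2 hS1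
    exact ⟨⟨(⟦mkIrr τ h1 h4⟧ : IrX T f), mkIrr τ h1 h4, rfl, h2⟩, mkIrr τ h1 h4, S, P, rfl,
      rfl, h3⟩
  · rintro x y y' ⟨τ, S, P, h1, h2, h3⟩ ⟨τ', S', P', h1', h2', h3'⟩
    rw [← h2, ← h2']
    exact mk_eq_mk.2 ((h3.iso_iff h3' h hCT hT).2 (mk_eq_mk.1 (h1.trans h1'.symm)))
  · rintro x x' y ⟨τ, S, P, h1, h2, h3⟩ ⟨τ', S', P', h1', h2', h3'⟩
    apply Subtype.ext
    rw [← h1, ← h1']
    exact mk_eq_mk.2 ((h3.iso_iff h3' h hCT hT).1 (mk_eq_mk.1 (h2.trans h2'.symm)))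

end Pool.Agent.Lib.P0c8ca5.Ii
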