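import Mathlib
import Pool.Agent.Lib.P0c8ca5I.A3P
import Pool.Agent.Lib.P0c8ca5I.HbL
import Pool.Agent.Lib.P0c8ca5G.SitA
import Pool.Agent.Lib.P0c8ca5I.Ex
import Pool.Agent.Lib.P0c8ca5I.Sum
import Pool.Agent.Lib.P0c8ca5I.Clf
import Pool.Agent.Lib.P0c8ca5I.Tns

/-!
# Module StepA: the weight conjecture for a block over `V` if the centralizer of `V` is larger than the centre

`Sit.navarro_of_centralizer`: the blockwise weight conjecture holds for the block `b` of `A` in the situation `Sit p V c b` if the centralizer `C` of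
`V` is not the centre of `A`.  The alternating sum `Bl ⊤ D b` over the chains in `V` is the sum over the irreducible representations `δ` of
`C` (up to factors) of the alternating sums for the groups `G` of the intertwiners of `δ`, and these vanish (module A3).
-/

set_option autoImplicit false

namespace Pool.Agent.Lib.P0c8ca5.Ii

open MonoidAlgebra Ps Bq Zz Gg Cy

universe u v

variable {p : ℕ} {k : Type v} [Field k] {A G : Type u} [Group A] [Group G] {C : Subgroup A}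
  [C.Normal] {n : ℕ} {δ : Rp k C n} {ψ : G →* A ⧸ C}
  {X : G → A → ((Fin n → k) ≃ₗ[k] (Fin n → k))} {V : Subgroup A}

theorem card_mul_relIndex' {H : Type*} [Group H] {K L : Subgroup H} (h : K ≤ L) :
    Nat.card K * K.relIndex L = Nat.card L := by
  have h1 := Subgroup.relIndex_mul_relIndex ⊥ K L bot_le h
  rw [Subgroup.relIndex_bot_left, Subgroup.relIndex_bot_left] at h1
  exact h1

theorem Lin.Ls_inf (h : Lin p C δ ψ X) {L : Subgroup A} (hCL : C ≤ L) :
    Ls ψ (stD C δ ⊓ L) = Ls ψ L := by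
  ext t
  obtain ⟨x, hx⟩ := exists_rep ψ t
  rw [mem_Ls_of (le_inf (C_le_stD δ) hCL) hx, mem_Ls_of hCL hx, Subgroup.mem_inf]
  exact ⟨fun h1 => h1.2, fun h1 => ⟨h.mem_stD hx, h1⟩⟩

theorem Lin.card_Ls [Finite A] [Finite G] (h : Lin p C δ ψ X) {L : Subgroup A} (hCL : C ≤ L) :
    Nat.card ψ.ker * Nat.card ↥(stD C δ ⊓ L) = Nat.card C * Nat.card ↥(Ls ψ L) := by
  have h1 : (Ls ψ L).map ψ = (stD C δ ⊓ L).map (QuotientGroup.mk' C) := by
    ext y
    constructor
    · rintro ⟨t, ht, rfl⟩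
      obtain ⟨x, hx, hx1⟩ := mem_Ls.1 ht
      exact ⟨x, ⟨h.mem_stD hx1, hx⟩, hx1.symm⟩
    · rintro ⟨x, ⟨hx, hx'⟩, rfl⟩
      obtain ⟨t, ht⟩ := h.mem_stD_iff.1 hx
      exact ⟨t, mem_Ls.2 ⟨x, hx', ht⟩, ht⟩
  have h2 : ψ.ker ≤ Ls ψ L := by
    intro z hz
    rw [mem_Ls]
    exact ⟨1, L.one_mem, hz⟩
  have h3 : Nat.card ψ.ker * ψ.ker.relIndex (Ls ψ L) = Nat.card ↥(Ls ψ L) :=
    card_mul_relIndex' h2
  have h4 : Nat.card C * C.relIndex (stD C δ ⊓ L) = Nat.card ↥(stD C δ ⊓ L) :=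
    card_mul_relIndex' (le_inf (C_le_stD δ) hCL)
  have h5 : ψ.ker.relIndex (Ls ψ L) = Nat.card ↥((Ls ψ L).map ψ) := Subgroup.relIndex_ker _ _
  have h6 : (QuotientGroup.mk' C).ker.relIndex (stD C δ ⊓ L)
      = Nat.card ↥((stD C δ ⊓ L).map (QuotientGroup.mk' C)) := Subgroup.relIndex_ker _ _
  rw [QuotientGroup.ker_mk'] at h6
  rw [← h3, ← h4, h5, h6, h1]
  ring

/-- the number of the irreducible representations over `δ` -/
theorem Lin.key [Fact p.Prime] [CharP k p] [IsAlgClosed k] [Finite A] [Fintype G]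
    (h : Lin p C δ ψ X) {L : Subgroup A} (hCL : C ≤ L) {f : MonoidAlgebra k A}
    (hf : SuppIn L f) (hfi : InvBy L f) :
    Nat.card ψ.ker * (Nat.card ↥(stD C δ ⊓ L) * Nat.card ↥(OvSet hCL f δ))
      = Nat.card C * (Nat.card ↥(Ls ψ L) * Nat.card (IrX (Ls ψ L) (stF C δ ψ X f))) := by
  have hCT : C ≤ stD C δ ⊓ L := le_inf (C_le_stD δ) hCL
  have hn : L ≤ Subgroup.normalizer (C : Set A) := fun x _ => mem_norm_of_normal C x
  have h1 : Nat.card ↥(OvSet hCL f δ)
      = Nat.card ↥(OvSet hCT (resS ((stD C δ ⊓ L : Subgroup A) : Set A) f) δ) := by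
    refine clifford_f hCT inf_le_right hn hf hfi h.irr ?_
    intro x hx
    rw [itw_iff (hn hx), Subgroup.mem_inf]
    exact ⟨fun h2 => h2.1, fun h2 => ⟨h2, hx⟩⟩
  have h2 : Nat.card ↥(OvSet hCT (resS ((stD C δ ⊓ L : Subgroup A) : Set A) f) δ)
      = Nat.card (IrX (Ls ψ (stD C δ ⊓ L))
        (stF C δ ψ X (resS ((stD C δ ⊓ L : Subgroup A) : Set A) f))) := by
    refine h.card_tns hCT inf_le_left ?_ ?_
    · exact resS_suppIn
    · exact resS_invBy Subgroup.le_normalizer (hfi.mono inf_le_right)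
  rw [h1, h2, h.stF_res (hfi.mono hCL) hf hCL, h.Ls_inf hCL, ← mul_assoc, h.card_Ls hCL, mul_assoc]

open Classical in
/-- the number of the irreducible representations over `δ`, zero if `C` is not contained in `L` -/
noncomputable def ov (C L : Subgroup A) (f : MonoidAlgebra k A) {n : ℕ} (δ : Rp k C n) : ℕ :=
  if h : C ≤ L then Nat.card ↥(OvSet h f δ) else 0

/-- the sum for one representation `δ` of `C` vanishes -/
theorem sum_delta [Fact p.Prime] [CharP k p] [IsAlgClosed k] [Fintype A] (hV : VH p C V)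
    {c b : MonoidAlgebra k A} (blk : IsBlock ⊤ b) (cblk : IsBlock V c) (cinv : InvBy ⊤ c)
    (cb : c * b = b) (br : ∃ P : Subgroup A, P ≤ V ∧ IsPGroup p P ∧ P ≠ ⊥ ∧ HasBr P c)
    (below : BelowP p k A b) (hZ : Subgroup.center A ≤ C) (hZC : C ≠ Subgroup.center A)
    (hδ : Irr' δ) :
    ∑ σ ∈ Ch (famAll p V), (-1 : ℤ) ^ σ.card * ((Nat.card ↥(stD C δ ⊓ stab ⊤ σ)
      * ov C (stab ⊤ σ) (cS (σ.sup id) b) δ : ℕ) : ℤ) = 0 := by
  classical
  obtain ⟨G, iG, iF, ψ, X, h⟩ := exists_lin (p := p) C hδ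
  have hbi : InvBy ⊤ b := (mem_fixAlg.1 blk.mem).2
  have h0 := h.bl_zeroP hV blk cblk cinv cb br below hZ hZC (fun P' hP' hbr => h.hasBr_lift blk hP' hbr)
  have hker : (Nat.card ψ.ker : ℤ) ≠ 0 := by
    have h1 : 0 < Nat.card ψ.ker := Nat.card_pos
    exact_mod_cast h1.ne'
  apply mul_left_cancel₀ hker
  rw [mul_zero, Finset.mul_sum]
  unfold Bl at h0
  rw [h.chain_sum hV] at h0
  calc _ = ∑ σ ∈ Ch (famAll p V), (Nat.card C : ℤ) * ((-1) ^ (σ.image (lq C ψ X)).card *
        ((Nat.card ↥(stab ⊤ (σ.image (lq C ψ X))) * Nat.card (IrX (stab ⊤ (σ.image (lq C ψ X)))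
          (cS ((σ.image (lq C ψ X)).sup id) (stF C δ ψ X b))) : ℕ) : ℤ)) := ?_
    _ = 0 := by rw [← Finset.mul_sum, h0, mul_zero]
  refine Finset.sum_congr rfl (fun σ hσ => ?_)
  obtain ⟨hσD, hch⟩ := InvAux.mem_Ch.1 hσ
  have hCL : C ≤ stab ⊤ σ := Lin.C_le_stab hV hσ
  have hsup : σ.sup id ≤ V ∧ IsPGroup p ↥(σ.sup id) := by
    rcases σ.eq_empty_or_nonempty with h1 | h1
    · rw [h1, Finset.sup_empty]
      exact ⟨bot_le, IsPGroup.of_bot⟩
    · have h2 := mem_famAll.1 (hσD (sup_mem_chain h1 hch))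
      exact ⟨h2.1, h2.2.1⟩
  have hctx : Ctx p ⊤ (stab ⊤ σ) (σ.sup id) b :=
    { hHX := le_top
      hS := hsup.2
      hHS := by
        rcases σ.eq_empty_or_nonempty with h1 | h1
        · rw [h1, Finset.sup_empty]
          intro x _
          exact mem_norm_of_normal _ x
        · exact fun x hx => (mem_stab.1 hx).2 _ (sup_mem_chain h1 hch)
      hCS := by
        intro x hx
        rw [mem_stab]
        refine ⟨hx.1, fun R hR => ?_⟩
        have hRS : R ≤ σ.sup id := Finset.le_sup (f := id) hR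
        exact Subgroup.centralizer_le_normalizer _ (Subgroup.centralizer_le hRS hx.2)
      supp := fun x _ => Subgroup.mem_top x
      inv := hbi }
  have h1 := h.key hCL hctx.cS_supp hctx.cS_inv
  rw [h.card_image hV hσ, h.stab_image hV hσ, h.sup_image hV hσ,
    ← h.stF_cS hV hsup.1 hsup.2 (hbi.mono le_top)]
  rw [ov, dif_pos hCL, mul_left_comm, mul_left_comm (Nat.card C : ℤ)]
  congr 1
  exact_mod_cast h1

theorem vh_of_core [Fact p.Prime] [Finite A] (hVn : V.Normal)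
    (core : ∀ P : Subgroup A, P.Normal → IsPGroup p P → P = ⊥) :
    VH p (Subgroup.centralizer (V : Set A)) V := by
  classical
  refine ⟨?_, hVn, ?_⟩
  · intro x hx
    rw [Subgroup.mem_centralizer_iff]
    intro y hy
    exact (Subgroup.mem_centralizer_iff.1 hy x hx).symm
  intro hp
  let P : Subgroup A :=
    { carrier := {x | x ∈ V ⊓ Subgroup.centralizer (V : Set A) ∧ ∃ n : ℕ, x ^ p ^ n = 1}
      one_mem' := ⟨one_mem _, 0, by simp⟩
      mul_mem' := by
        rintro x y ⟨hx, n, hn⟩ ⟨hy, m, hm⟩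
        refine ⟨mul_mem hx hy, n + m, ?_⟩
        have hc : Commute x y := Subgroup.mem_centralizer_iff.1 hy.2 x hx.1
        have h1 : x ^ p ^ (n + m) = 1 := by rw [pow_add, pow_mul, hn, one_pow]
        have h2 : y ^ p ^ (n + m) = 1 := by rw [add_comm, pow_add, pow_mul, hm, one_pow]
        rw [hc.mul_pow, h1, h2, one_mul]
      inv_mem' := by
        rintro x ⟨hx, n, hn⟩
        exact ⟨inv_mem hx, n, by rw [inv_pow, hn, inv_one]⟩ }
  have hCn : (Subgroup.centralizer (V : Set A)).Normal := by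
    infer_instance
  have hP1 : P.Normal := by
    refine ⟨?_⟩
    rintro x ⟨hx, n, hn⟩ g
    refine ⟨⟨hVn.conj_mem x hx.1 g, hCn.conj_mem x hx.2 g⟩, n, ?_⟩
    rw [conj_pow, hn, mul_one, mul_inv_cancel]
  have hP2 : IsPGroup p P := by
    rintro ⟨x, hx, n, hn⟩
    exact ⟨n, Subtype.ext hn⟩
  have hP3 := core P hP1 hP2
  obtain ⟨x, hx⟩ := exists_prime_orderOf_dvd_card' p hp
  have hx1 : (x : A) ∈ P := by
    refine ⟨x.2, 1, ?_⟩
    rw [pow_one]
    have h1 := pow_orderOf_eq_one x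
    rw [hx] at h1
    exact congrArg Subtype.val h1
  rw [hP3, Subgroup.mem_bot] at hx1
  have hx2 : x = 1 := Subtype.ext hx1
  rw [hx2, orderOf_one] at hx
  exact (Fact.out : p.Prime).one_lt.ne hx

/-- **the alternating sum vanishes if the centralizer of `V` is larger than the centre** -/
theorem bl_zero_of_centralizer [Fact p.Prime] [CharP k p] [IsAlgClosed k] [Fintype A]
    {c b : MonoidAlgebra k A} (nV : V.Normal)
    (core : ∀ P : Subgroup A, P.Normal → IsPGroup p P → P = ⊥)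
    (blk : IsBlock ⊤ b) (cblk : IsBlock V c) (cinv : InvBy ⊤ c)
    (cb : c * b = b) (br : ∃ P : Subgroup A, P ≤ V ∧ IsPGroup p P ∧ P ≠ ⊥ ∧ HasBr P c)
    (below : BelowP p k A b)
    (hne : Subgroup.centralizer (V : Set A) ≠ Subgroup.center A) :
    Bl ⊤ (famAll p V) b = 0 := by
  classical
  have hV := vh_of_core nV core
  obtain ⟨C, hC⟩ : ∃ C : Subgroup A, C = Subgroup.centralizer (V : Set A) := ⟨_, rfl⟩
  rw [← hC] at hV hne
  have hCn : C.Normal := by
    rw [hC]
    infer_instance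
  have hZ : Subgroup.center A ≤ C := by
    rw [hC]
    exact Subgroup.center_le_centralizer _
  have hfin : Finite (IrX C (1 : MonoidAlgebra k A)) := inferInstance
  have : Fintype (IrX C (1 : MonoidAlgebra k A)) := Fintype.ofFinite _
  unfold Bl
  calc _ = ∑ σ ∈ Ch (famAll p V), ∑ d : IrX C (1 : MonoidAlgebra k A),
        (-1 : ℤ) ^ σ.card * ((Nat.card ↥(stD C (Quotient.out d).ρ ⊓ stab ⊤ σ)
          * ov C (stab ⊤ σ) (cS (σ.sup id) b) (Quotient.out d).ρ : ℕ) : ℤ) := ?_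
    _ = ∑ d : IrX C (1 : MonoidAlgebra k A), ∑ σ ∈ Ch (famAll p V),
        (-1 : ℤ) ^ σ.card * ((Nat.card ↥(stD C (Quotient.out d).ρ ⊓ stab ⊤ σ)
          * ov C (stab ⊤ σ) (cS (σ.sup id) b) (Quotient.out d).ρ : ℕ) : ℤ) := Finset.sum_comm
    _ = 0 := Finset.sum_eq_zero (fun d _ =>
        sum_delta hV blk cblk cinv cb br below hZ hne (irr_iff.1 (Quotient.out d).irr))
  refine Finset.sum_congr rfl (fun σ hσ => ?_)
  have hCL : C ≤ stab ⊤ σ := Lin.C_le_stab hV hσ
  rw [← Finset.mul_sum, card_irX_sum (p := p) hCL (cS (σ.sup id) b)]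
  congr 1
  push_cast
  refine Finset.sum_congr rfl (fun d _ => ?_)
  rw [ov, dif_pos hCL]

/-- **the weight conjecture for a block over `V` if the centralizer of `V` is larger than the centre** -/
theorem Sit.navarro_of_centralizer [Fact p.Prime] [CharP k p] [IsAlgClosed k] [Fintype A]
    {c b : MonoidAlgebra k A} (h : Sit p V c b)
    (hne : Subgroup.centralizer (V : Set A) ≠ Subgroup.center A) : NavarroEq p ⊤ ⊤ b := by
  have := h.nV
  have hD : Fam p ⊤ V (famAll p V) := famAll_fam (fun x _ => mem_norm_of_normal V x)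
  rw [h.navarro_iff hD]
  exact bl_zero_of_centralizer h.nV h.core h.blk h.cblk h.cinv h.cb h.br h.below hne

end Pool.Agent.Lib.P0c8ca5.Ii
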